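import Pool.Agent.Lib.P1346L.Defs

/-!
# Basic lemmas
-/

set_option autoImplicit false

namespace P1346e8

namespace L

variable {Z Z' : Type} {side : Z → Bool} {M : Z → Z → Prop}

theorem ed_symm {u v : Z} (h : side u ≠ side v) : ed side M u v ↔ ed side M v u := by
  unfold ed
  cases hu : side u <;> cases hv : side v <;> simp_all

theorem TD.mono : ∀ {τ : List Rule} {W W' : Z → Prop}, TD side M τ W → (∀ u, W' u → W u) →
    TD side M τ W'
  | [], _, _, h, hW => fun u v hu hv => h u v (hW u hu) (hW v hv)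
  | .par :: _, _, _, ⟨g, h1, h2⟩, hW => ⟨g, fun u v hu hv => h1 u v (hW u hu) (hW v hv),
      fun c => (h2 c).mono fun u hu => ⟨hW u hu.1, hu.2⟩⟩
  | .ser :: _, _, _, ⟨g, h1, h2⟩, hW => ⟨g, fun u v hu hv => h1 u v (hW u hu) (hW v hv),
      fun c => (h2 c).mono fun u hu => ⟨hW u hu.1, hu.2⟩⟩
  | .ord :: _, _, _, ⟨g, h1, h2⟩, hW => ⟨g, fun u v hu hv => h1 u v (hW u hu) (hW v hv),
      fun c => (h2 c).mono fun u hu => ⟨hW u hu.1, hu.2⟩⟩

theorem TD.oneSided : ∀ {τ : List Rule} {W : Z → Prop}, (∀ u v, W u → W v → side u = side v) →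
    TD side M τ W
  | [], _, h => h
  | .par :: _, _, h => ⟨fun _ => 0, fun u v hu hv hne => absurd (h u v hu hv) hne,
      fun _ => TD.oneSided fun u v hu hv => h u v hu.1 hv.1⟩
  | .ser :: _, _, h => ⟨fun _ => 0, fun u v hu hv hne => absurd (h u v hu hv) hne,
      fun _ => TD.oneSided fun u v hu hv => h u v hu.1 hv.1⟩
  | .ord :: _, _, h => ⟨fun _ => 0, fun u v hu hv hne => absurd (h u v hu hv) hne,
      fun _ => TD.oneSided fun u v hu hv => h u v hu.1 hv.1⟩

theorem D_pull {side' : Z' → Bool} {M' : Z' → Z' → Prop} (π : Z → Z')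
    (hs : ∀ z, side' (π z) = side z) (hM : ∀ u v, M' (π u) (π v) ↔ M u v) (ρ : Rule) (u v : Z) :
    D side' M' ρ (π u) (π v) ↔ D side M ρ u v := by
  cases ρ <;> simp only [D, ed, hs, hM]

theorem ed_pull {side' : Z' → Bool} {M' : Z' → Z' → Prop} (π : Z → Z')
    (hs : ∀ z, side' (π z) = side z) (hM : ∀ u v, M' (π u) (π v) ↔ M u v) (u v : Z) :
    ed side' M' (π u) (π v) ↔ ed side M u v := by
  simp only [ed, hs, hM]

/-- Pulling back along a map that preserves sides and entries. -/
theorem TD.pull {side' : Z' → Bool} {M' : Z' → Z' → Prop} (π : Z → Z')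
    (hs : ∀ z, side' (π z) = side z) (hM : ∀ u v, M' (π u) (π v) ↔ M u v) :
    ∀ {τ : List Rule} {W : Z' → Prop}, TD side' M' τ W → TD side M τ (fun z => W (π z))
  | [], _, h => fun u v hu hv => by
      have := h _ _ hu hv
      rwa [hs, hs] at this
  | .par :: _, _, ⟨g, h1, h2⟩ => ⟨fun z => g (π z), fun u v hu hv hne hg => by
      have := h1 _ _ hu hv (by rwa [hs, hs]) hg
      rwa [ed_pull π hs hM] at this, fun c => TD.pull π hs hM (h2 c)⟩
  | .ser :: _, _, ⟨g, h1, h2⟩ => ⟨fun z => g (π z), fun u v hu hv hne hg => by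
      have := h1 _ _ hu hv (by rwa [hs, hs]) hg
      rwa [ed_pull π hs hM] at this, fun c => TD.pull π hs hM (h2 c)⟩
  | .ord :: _, _, ⟨g, h1, h2⟩ => ⟨fun z => g (π z), fun u v hu hv hne hg => by
      have := h1 _ _ hu hv (by rwa [hs, hs]) hg
      rwa [D_pull π hs hM] at this, fun c => TD.pull π hs hM (h2 c)⟩

/-- All entries false. -/
theorem TD.constFalse {W : Z → Prop}
    (h : ∀ u v, W u → W v → side u = true → side v = false → ¬ M u v) :
    TD side M [.par] W := by
  refine ⟨fun z => if side z = true then 0 else 1, ?_, ?_⟩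
  · intro u v hu hv hne _ he
    unfold ed at he
    cases hsu : side u <;> cases hsv : side v <;> simp_all
  · intro c u v hu hv
    have h1 := hu.2
    have h2 := hv.2
    cases hsu : side u <;> cases hsv : side v <;> simp_all <;> omega

/-- All entries true. -/
theorem TD.constTrue {W : Z → Prop}
    (h : ∀ u v, W u → W v → side u = true → side v = false → M u v) :
    TD side M [.ser] W := by
  refine ⟨fun z => if side z = true then 0 else 1, ?_, ?_⟩
  · intro u v hu hv hne _
    unfold ed
    cases hsu : side u <;> cases hsv : side v <;> simp_all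
  · intro c u v hu hv
    have h1 := hu.2
    have h2 := hv.2
    cases hsu : side u <;> cases hsv : side v <;> simp_all <;> omega

theorem Pth.mono {ρ : Rule} {q : Z → Z → Prop} {m n : ℕ} (hmn : m ≤ n) {u v : Z}
    (h : Pth side M ρ q m u v) : Pth side M ρ q n u v := by
  induction hmn with
  | refl => exact h
  | step _ ih => exact Or.inl ih

end L

end P1346e8
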