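import Pool.Agent.Lib.P1346L.Basic

/-!
# MODULE Blocks: decomposition into blocks (about 1.2 h)

STATEMENT. Let the elements of `W` lie in blocks `B z : ℕ`, rows in blocks with residue `i0` modulo 3,
columns in blocks with residue `j0` modulo 3.  Suppose that the entry of a row and a column is `φ1` if the
block of the column is larger by at least 2, `φ2` if it is smaller by at least 2, `ψ1` if it is larger by
1, `ψ2` if it is smaller by 1, and that every block is decomposable by `τ0`.  Then `W` is decomposable by a
list `τ` which depends only on `i0, j0, φ1, φ2, ψ1, ψ2, τ0`.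

PROOF. If `i0 ≥ 3` or `j0 ≥ 3` there are no rows or no columns: `τ := []`, `TD.oneSided`.
First rule `ρ`: `par` if `φ1`, `φ2` are false, `ser` if both are true, `ord` if they are different.
Shifted block number (integer): `B' z := B z` for rows; for columns `B' z := B z + ε` with `ε = 0` if
`j0 = i0`, `ε = -1` if `j0 ≡ i0 + 1`, `ε = 1` if `j0 ≡ i0 + 2` (mod 3).  As the residues of rows and
columns are fixed, for a row `u` and a column `v` the difference `B' v - B' u` is a multiple of 3, and if
it is not `0` then `B v - B u` has the same sign and absolute value at least 2: the entry is `φ1` if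
`B' u < B' v` and `φ2` if `B' v < B' u`.  Labels `g := B'`, except if `φ1` is false and `φ2` is true:
`g := - B'`.  The condition for the rule holds (for `ord` with `g u < g v`: if `φ1` true, `φ2` false: `u` row,
`v` column: the entry is true; `u` column, `v` row: false; i.e. `D side M .ord u v`; if `φ1` false, `φ2`
true the same with `-B'`).  The label classes: `j0 = i0`: a block: `τ := ρ :: τ0`.  `j0 ≡ i0 + 1`: rows
in the block `c` and columns in the block `c + 1`: all entries are `ψ1`: `τ := [ρ, ser]` or `[ρ, par]`
(`TD.constTrue`, `TD.constFalse`).  `j0 ≡ i0 + 2`: rows in the block `c` and columns in the block `c - 1`: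
all entries are `ψ2`: the same with `ψ2`.  (`omega` does the residues.)
-/

set_option autoImplicit false

namespace P1346e8

namespace L

namespace BlocksAux

open Classical in
/-- The rule for the two values. -/
noncomputable def rho (φ1 φ2 : Prop) : Rule :=
  if φ1 then (if φ2 then .ser else .ord) else (if φ2 then .ord else .par)

open Classical in
/-- The rule list for constant entries. -/
noncomputable def cst (ψ : Prop) : List Rule := if ψ then [.ser] else [.par]

theorem cst_td {Z : Type} {side : Z → Bool} {M : Z → Z → Prop} {W : Z → Prop} {ψ : Prop}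
    (h : ∀ u v, W u → W v → side u = true → side v = false → (M u v ↔ ψ)) :
    TD side M (cst ψ) W := by
  classical
  unfold cst
  split_ifs with hψ
  · exact TD.constTrue fun u v hu hv h1 h2 => (h u v hu hv h1 h2).2 hψ
  · exact TD.constFalse fun u v hu hv h1 h2 h3 => hψ ((h u v hu hv h1 h2).1 h3)

theorem first_td {Z : Type} {side : Z → Bool} {M : Z → Z → Prop} {W : Z → Prop} {φ1 φ2 : Prop}
    {τ0 : List Rule} (B : Z → ℤ)
    (h1 : ∀ u v, W u → W v → side u = true → side v = false → B u < B v → (M u v ↔ φ1))
    (h2 : ∀ u v, W u → W v → side u = true → side v = false → B v < B u → (M u v ↔ φ2))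
    (h0 : ∀ c, TD side M τ0 (fun z => W z ∧ B z = c)) :
    TD side M (rho φ1 φ2 :: τ0) W := by
  classical
  have hb : ∀ b : Bool, b = true ∨ b = false := fun b => by cases b <;> simp
  unfold rho
  split_ifs with p1 p2 p2
  · refine ⟨B, fun u v hu hv hs hg => ?_, h0⟩
    unfold ed
    rcases hb (side u) with su | su <;> rcases hb (side v) with sv | sv
    · exact absurd (su.trans sv.symm) hs
    · rw [if_pos su]
      rcases lt_or_gt_of_ne hg with h | h
      · exact (h1 u v hu hv su sv h).2 p1
      · exact (h2 u v hu hv su sv h).2 p2
    · rw [if_neg (by rw [su]; decide)]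
      rcases lt_or_gt_of_ne hg with h | h
      · exact (h2 v u hv hu sv su h).2 p2
      · exact (h1 v u hv hu sv su h).2 p1
    · exact absurd (su.trans sv.symm) hs
  · refine ⟨B, fun u v hu hv hs hg => ⟨hs, ?_⟩, h0⟩
    unfold ed
    rcases hb (side u) with su | su <;> rcases hb (side v) with sv | sv
    · exact absurd (su.trans sv.symm) hs
    · rw [if_pos su]
      exact iff_of_true ((h1 u v hu hv su sv hg).2 p1) su
    · rw [if_neg (by rw [su]; decide)]
      exact iff_of_false (fun h => p2 ((h2 v u hv hu sv su hg).1 h)) (by rw [su]; decide)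
    · exact absurd (su.trans sv.symm) hs
  · refine ⟨fun z => - B z, fun u v hu hv hs hg => ⟨hs, ?_⟩, fun c => (h0 (-c)).mono ?_⟩
    · have hg' : B v < B u := by
        have : - B u < - B v := hg
        omega
      unfold ed
      rcases hb (side u) with su | su <;> rcases hb (side v) with sv | sv
      · exact absurd (su.trans sv.symm) hs
      · rw [if_pos su]
        exact iff_of_true ((h2 u v hu hv su sv hg').2 p2) su
      · rw [if_neg (by rw [su]; decide)]
        exact iff_of_false (fun h => p1 ((h1 v u hv hu sv su hg').1 h)) (by rw [su]; decide)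
      · exact absurd (su.trans sv.symm) hs
    · rintro u ⟨hu, hc⟩
      refine ⟨hu, ?_⟩
      have : - B u = c := hc
      omega
  · refine ⟨B, fun u v hu hv hs hg => ?_, h0⟩
    unfold ed
    rcases hb (side u) with su | su <;> rcases hb (side v) with sv | sv
    · exact absurd (su.trans sv.symm) hs
    · rw [if_pos su]
      rcases lt_or_gt_of_ne hg with h | h
      · exact fun h' => p1 ((h1 u v hu hv su sv h).1 h')
      · exact fun h' => p2 ((h2 u v hu hv su sv h).1 h')
    · rw [if_neg (by rw [su]; decide)]
      rcases lt_or_gt_of_ne hg with h | h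
      · exact fun h' => p2 ((h2 v u hv hu sv su h).1 h')
      · exact fun h' => p1 ((h1 v u hv hu sv su h).1 h')
    · exact absurd (su.trans sv.symm) hs

end BlocksAux

open BlocksAux in
theorem td_blocks (i0 j0 : ℕ) (φ1 φ2 ψ1 ψ2 : Prop) (τ0 : List Rule) : ∃ τ : List Rule,
    ∀ (Z : Type) (side : Z → Bool) (M : Z → Z → Prop) (W : Z → Prop) (B : Z → ℕ),
      (∀ u, W u → side u = true → B u % 3 = i0) → (∀ v, W v → side v = false → B v % 3 = j0) →
      (∀ u v, W u → W v → side u = true → side v = false → B u + 2 ≤ B v → (M u v ↔ φ1)) →
      (∀ u v, W u → W v → side u = true → side v = false → B v + 2 ≤ B u → (M u v ↔ φ2)) →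
      (∀ u v, W u → W v → side u = true → side v = false → B v = B u + 1 → (M u v ↔ ψ1)) →
      (∀ u v, W u → W v → side u = true → side v = false → B u = B v + 1 → (M u v ↔ ψ2)) →
      (∀ c, TD side M τ0 (fun z => W z ∧ B z = c)) → TD side M τ W := by
  classical
  have hb : ∀ b : Bool, b = true ∨ b = false := fun b => by cases b <;> simp
  by_cases h3 : i0 < 3 ∧ j0 < 3
  swap
  · refine ⟨[], fun Z side M W B hi hj _ _ _ _ _ => ?_⟩
    refine TD.oneSided fun u v hu hv => ?_
    rcases hb (side u) with su | su <;> rcases hb (side v) with sv | sv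
    · exact su.trans sv.symm
    · exfalso
      have := hi u hu su
      have := hj v hv sv
      omega
    · exfalso
      have := hj u hu su
      have := hi v hv sv
      omega
    · exact su.trans sv.symm
  obtain ⟨hi3, hj3⟩ := h3
  by_cases hij : i0 = j0
  · refine ⟨rho φ1 φ2 :: τ0, fun Z side M W B hi hj h1 h2 _ _ h0 => ?_⟩
    refine first_td (fun z => (B z : ℤ)) ?_ ?_ ?_
    · intro u v hu hv su sv hlt
      refine h1 u v hu hv su sv ?_
      have e1 := hi u hu su
      have e2 := hj v hv sv
      have : (B u : ℤ) < B v := hlt
      omega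
    · intro u v hu hv su sv hlt
      refine h2 u v hu hv su sv ?_
      have e1 := hi u hu su
      have e2 := hj v hv sv
      have : (B v : ℤ) < B u := hlt
      omega
    · intro c
      refine (h0 c.toNat).mono ?_
      rintro z ⟨hz, hc⟩
      refine ⟨hz, ?_⟩
      have : (B z : ℤ) = c := hc
      omega
  · by_cases hij' : j0 = (i0 + 1) % 3
    · refine ⟨rho φ1 φ2 :: cst ψ1, fun Z side M W B hi hj h1 h2 h4 _ _ => ?_⟩
      refine first_td (fun z => (B z : ℤ) + if side z = true then 0 else -1) ?_ ?_ ?_
      · intro u v hu hv su sv hlt
        refine h1 u v hu hv su sv ?_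
        have e1 := hi u hu su
        have e2 := hj v hv sv
        simp only [su, sv, if_true] at hlt
        simp at hlt
        omega
      · intro u v hu hv su sv hlt
        refine h2 u v hu hv su sv ?_
        have e1 := hi u hu su
        have e2 := hj v hv sv
        simp only [su, sv, if_true] at hlt
        simp at hlt
        omega
      · intro c
        refine cst_td ?_
        rintro u v ⟨hu, cu⟩ ⟨hv, cv⟩ su sv
        refine h4 u v hu hv su sv ?_
        simp [su] at cu
        simp [sv] at cv
        omega
    · refine ⟨rho φ1 φ2 :: cst ψ2, fun Z side M W B hi hj h1 h2 _ h4 _ => ?_⟩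
      refine first_td (fun z => (B z : ℤ) + if side z = true then 0 else 1) ?_ ?_ ?_
      · intro u v hu hv su sv hlt
        refine h1 u v hu hv su sv ?_
        have e1 := hi u hu su
        have e2 := hj v hv sv
        simp [su, sv] at hlt
        omega
      · intro u v hu hv su sv hlt
        refine h2 u v hu hv su sv ?_
        have e1 := hi u hu su
        have e2 := hj v hv sv
        simp [su, sv] at hlt
        omega
      · intro c
        refine cst_td ?_
        rintro u v ⟨hu, cu⟩ ⟨hv, cv⟩ su sv
        refine h4 u v hu hv su sv ?_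
        simp [su] at cu
        simp [sv] at cv
        omega

end L

end P1346e8
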