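import Pool.Agent.Lib.P1346e8.Lib

/-!
# MODULE CopyElim: definable relations on copies (about 0.8 h)

STATEMENT. Let `F` be a family of structures, `κ` a finite type, and suppose that the elements of
`F.X i × κ` carry relations `R' i b`, `U' i u` which are definable in `F` for any fixed values of the second
components. Then every relation `Q` definable from the `R'`, `U'` on `F.X i × κ` is definable in `F` for
any fixed values of the second components.

PROOF. `Q` is given by a formula `φ`; show by induction on `φ` (for all `c`), as in the proof of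
`Fam.interp` in `Pool.Agent.Lib.P1346e8.Lib`, that
`F.Def (fun i v => φ.Sat (R' i) (U' i) (fun j => (v j, c j)))`:
`eq j k`: `(v j, c j) = (v k, c k)` iff `v j = v k ∧ c j = c k` (if `c j = c k` use `Def.eq`, otherwise the
relation is constantly false: `Def.eq.and Def.eq.not`, or `Fam.Def.const` with `0 < n` from `j : Fin n`);
`bin b j k`: `Fam.Def2.at (hR b (c j) (c k)) j k`; `un u j`: `Fam.Def1.at`; `neg`, `and`: `Def.not`,
`Def.and`; `ex φ`: `∃ (a, k) : F.X i × κ, ...` is `∃ a, ∃ k, ...`: `Fam.Def.ex` and `Fam.Def.exFin`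
(the number of variables is `n + 1 > 0`), the induction hypothesis for
`Fin.snoc c k : Fin (n + 1) → κ`, and `Fin.snoc (fun j => (v j, c j)) (a, k)` equals
`fun j => (Fin.snoc v a j, Fin.snoc c k j)` (`Fin.lastCases`).
-/

set_option autoImplicit false

namespace P1346e8

namespace L

universe u

theorem copyElim {ι : Type u} {β υ β' υ' κ : Type} [Finite κ] (F : Fam ι β υ)
    (R' : (i : ι) → β' → F.X i × κ → F.X i × κ → Prop) (U' : (i : ι) → υ' → F.X i × κ → Prop)
    (hR : ∀ (b : β') (c d : κ), F.Def2 (fun i x y => R' i b (x, c) (y, d)))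
    (hU : ∀ (u : υ') (c : κ), F.Def1 (fun i x => U' i u (x, c))) {n : ℕ}
    {Q : (i : ι) → (Fin n → F.X i × κ) → Prop}
    (h : (Fam.mk (fun i => F.X i × κ) R' U' : Fam ι β' υ').Def Q) (c : Fin n → κ) :
    F.Def (fun i v => Q i (fun j => (v j, c j))) := by
  obtain ⟨φ, hφ⟩ := h
  suffices H : ∀ {n : ℕ} (φ : Fml β' υ' n) (c : Fin n → κ),
      F.Def (fun i v => φ.Sat (R' i) (U' i) (fun j => (v j, c j))) from
    (H φ c).congr fun i v => hφ i _
  intro n φ
  induction φ with
  | eq j k =>
    intro c
    by_cases hc : c j = c k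
    · refine (Fam.Def.eq F j k).congr fun i v => ?_
      change ((v j, c j) = (v k, c k)) ↔ _
      simp [hc]
    · refine ((Fam.Def.eq F j k).and (Fam.Def.eq F j k).not).congr fun i v => ?_
      change ((v j, c j) = (v k, c k)) ↔ _
      simp [hc]
  | bin b j k => intro c; exact Fam.Def2.at (hR b (c j) (c k)) j k
  | un u j => intro c; exact Fam.Def1.at (hU u (c j)) j
  | neg φ ih => intro c; exact (ih c).not
  | and φ ψ ih ih' => intro c; exact (ih c).and (ih' c)
  | @ex m φ ih =>
    intro c
    have h1 : F.Def (fun i v => ∃ a : F.X i, ∃ k : κ,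
        φ.Sat (R' i) (U' i) (Fin.snoc (α := fun _ => F.X i × κ) (fun j => (v j, c j)) (a, k))) := by
      refine Fam.Def.ex (Fam.Def.exFin (Nat.succ_pos m) fun k => ?_)
      refine (ih (Fin.snoc c k)).congr fun i v => ?_
      apply iff_of_eq
      congr 1
      funext j
      refine Fin.lastCases ?_ (fun j => ?_) j
      · simp
      · simp
    refine h1.congr fun i v => ?_
    constructor
    · rintro ⟨⟨a, k⟩, h⟩
      exact ⟨a, k, h⟩
    · rintro ⟨a, k, h⟩
      exact ⟨(a, k), h⟩

end L

end P1346e8
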