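import Pool.Agent.Lib.P1346L.FinalL

/-!
# Q1 for classes whose reducts have vertex partitions with pairs of bounded linear rank-width
-/

set_option autoImplicit false

namespace P1346e8

/-- The edges of `E` between the parts `α` and `β` of the vertex partition `κ` (inside the part if
`α = β`). -/
def pairRel {V : Type} {N : ℕ} (E : V → V → Prop) (κ : V → Fin N) (α β : Fin N) (u v : V) : Prop :=
  E u v ∧ ((κ u = α ∧ κ v = β) ∨ (κ u = β ∧ κ v = α))

namespace L

theorem ed_congr {Z : Type} {side : Z → Bool} {M M' : Z → Z → Prop} {W : Z → Prop}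
    (hM : ∀ u v, W u → W v → side u = true → side v = false → (M u v ↔ M' u v)) {u v : Z}
    (hu : W u) (hv : W v) (hs : side u ≠ side v) : ed side M u v ↔ ed side M' u v := by
  unfold ed
  cases hsu : side u with
  | true =>
    have hsv : side v = false := by
      cases h : side v with
      | true => exact absurd (hsu.trans h.symm) hs
      | false => rfl
    simpa using hM u v hu hv hsu hsv
  | false =>
    have hsv : side v = true := by
      cases h : side v with
      | true => rfl
      | false => exact absurd (hsu.trans h.symm) hs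
    simpa using hM v u hv hu hsv hsu

theorem TD.congrM {Z : Type} {side : Z → Bool} {M M' : Z → Z → Prop} :
    ∀ {τ : List Rule} {W : Z → Prop},
      (∀ u v, W u → W v → side u = true → side v = false → (M u v ↔ M' u v)) →
        TD side M τ W → TD side M' τ W
  | [], _, _, h => h
  | .par :: _, _, hM, ⟨g, h1, h2⟩ => ⟨g, fun u v hu hv hs hg he =>
      h1 u v hu hv hs hg ((ed_congr hM hu hv hs).2 he), fun c =>
      TD.congrM (fun u v hu hv => hM u v hu.1 hv.1) (h2 c)⟩
  | .ser :: _, _, hM, ⟨g, h1, h2⟩ => ⟨g, fun u v hu hv hs hg =>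
      (ed_congr hM hu hv hs).1 (h1 u v hu hv hs hg), fun c =>
      TD.congrM (fun u v hu hv => hM u v hu.1 hv.1) (h2 c)⟩
  | .ord :: _, _, hM, ⟨g, h1, h2⟩ => ⟨g, fun u v hu hv hs hg => by
      have := h1 u v hu hv hs hg
      exact ⟨this.1, (ed_congr hM hu hv hs).symm.trans this.2⟩, fun c =>
      TD.congrM (fun u v hu hv => hM u v hu.1 hv.1) (h2 c)⟩

theorem final_cover (C : Set Str) (hC : ∀ A ∈ C, A.IsOrderedGraph) (k N : ℕ)
    (h : ∀ A ∈ C, ∃ κ : A.V → Fin N, ∀ α β, LinRankWidthLE k (pairRel (A.r 0) κ α β)) :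
    ∃ P : Set Str, IsPermClass P ∧ IsTransductionOf C P ∧ IsTransductionOf P C := by
  obtain ⟨Col, hCol, τ, hτ⟩ := td_graph k
  refine final_td C hC (Col := Fin N × (Fin N → Fin N → Col))
    (fun p q => τ (p.2 p.1 q.1) (q.2 p.1 q.1)) fun A hA => ?_
  obtain ⟨κ, hκ⟩ := h A hA
  have hAr := hC A hA
  choose lam hlam using fun α β => hτ A.V A.fin (pairRel (A.r 0) κ α β)
    (fun x hx => hAr.1 x hx.1)
    (fun x y hxy => ⟨hAr.2.1 x y hxy.1, hxy.2.symm.imp (fun h => ⟨h.2, h.1⟩) (fun h => ⟨h.2, h.1⟩)⟩)
    (hκ α β)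
  refine ⟨fun v => (κ v, fun α β => lam α β v), fun p q => ?_⟩
  have h1 := hlam p.1 q.1 (p.2 p.1 q.1) (q.2 p.1 q.1)
  have h2 := h1.mono (W' := fun z : A.V × Bool =>
    (κ z.1, fun α β => lam α β z.1) = if z.2 = true then p else q) fun z hz => by
      split_ifs at hz ⊢ with h0
      · rw [← hz]
      · rw [← hz]
  refine h2.congrM fun u v hu hv hsu hsv => ?_
  have hu' : (κ u.1, fun α β => lam α β u.1) = p := by
    rw [if_pos hsu] at hu
    exact hu
  have hv' : (κ v.1, fun α β => lam α β v.1) = q := by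
    have : ¬ (v.2 = true) := by
      have h3 : v.2 = false := hsv
      rw [h3]
      decide
    rw [if_neg this] at hv
    exact hv
  constructor
  · intro h3
    exact h3.1
  · intro h3
    refine ⟨h3, Or.inl ⟨?_, ?_⟩⟩
    · rw [← hu']
    · rw [← hv']

end L

end P1346e8
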