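import Pool.Agent.Lib.P1346e8.Defs

/-!
# Linear rank-width; rule-decomposable bipartite relations (definitions)
-/

set_option autoImplicit false

namespace P1346e8

open Classical in
/-- The rank over GF(2) of the cut after `x` of the relation `E` for the linear order `r`: rows are the
elements up to `x`, columns the elements after `x`. -/
noncomputable def cutRank {V : Type} (E r : V → V → Prop) (x : V) : ℕ :=
  Module.finrank (ZMod 2) (Submodule.span (ZMod 2)
    (Set.range fun (u : {u : V // u = x ∨ r u x}) (y : {y : V // r x y}) =>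
      if E u.1 y.1 then (1 : ZMod 2) else 0))

/-- `E` has linear rank-width at most `k`: for some linear order all cuts have rank at most `k`. -/
def LinRankWidthLE {V : Type} (k : ℕ) (E : V → V → Prop) : Prop :=
  ∃ r : V → V → Prop, StrictLin (fun _ => True) r ∧ ∀ x, cutRank E r x ≤ k

namespace L

/-- The three rules: no edges, all edges, ordered. -/
inductive Rule
  | par
  | ser
  | ord


variable {Z : Type}

/-- The entry of the pair `u, v` (used for `u`, `v` on different sides; `true` = row). -/
def ed (side : Z → Bool) (M : Z → Z → Prop) (u v : Z) : Prop :=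
  if side u = true then M u v else M v u

/-- The arcs for a rule. -/
def D (side : Z → Bool) (M : Z → Z → Prop) : Rule → Z → Z → Prop
  | .par, u, v => side u ≠ side v ∧ ed side M u v
  | .ser, u, v => side u ≠ side v ∧ ¬ ed side M u v
  | .ord, u, v => side u ≠ side v ∧ (ed side M u v ↔ side u = true)

/-- Decomposable by a list of rules: for the first rule there is a labelling `g` such that between
different labels the entries are as the rule says, and every label class is decomposable by the rest;
for the empty list the set has only rows or only columns. -/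
def TD (side : Z → Bool) (M : Z → Z → Prop) : List Rule → (Z → Prop) → Prop
  | [], W => ∀ u v, W u → W v → side u = side v
  | .par :: τ, W => ∃ g : Z → ℤ,
      (∀ u v, W u → W v → side u ≠ side v → g u ≠ g v → ¬ ed side M u v) ∧
        ∀ c, TD side M τ (fun u => W u ∧ g u = c)
  | .ser :: τ, W => ∃ g : Z → ℤ,
      (∀ u v, W u → W v → side u ≠ side v → g u ≠ g v → ed side M u v) ∧
        ∀ c, TD side M τ (fun u => W u ∧ g u = c)
  | .ord :: τ, W => ∃ g : Z → ℤ,
      (∀ u v, W u → W v → side u ≠ side v → g u < g v → D side M .ord u v) ∧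
        ∀ c, TD side M τ (fun u => W u ∧ g u = c)

/-- Paths of length at most `n` with arcs inside the classes of `q`. -/
def Pth (side : Z → Bool) (M : Z → Z → Prop) (ρ : Rule) (q : Z → Z → Prop) : ℕ → Z → Z → Prop
  | 0, u, v => q u v ∧ u = v
  | n + 1, u, v => Pth side M ρ q n u v ∨ ∃ w, Pth side M ρ q n u w ∧ q w v ∧ D side M ρ w v

/-- The refinement of `q` by a rule: linked by short paths in both directions. -/
def nxt (side : Z → Bool) (M : Z → Z → Prop) (ρ : Rule) (q : Z → Z → Prop) (u v : Z) : Prop :=
  Pth side M ρ q 6 u v ∧ Pth side M ρ q 6 v u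

/-- The class of `u` has the smaller minimum. -/
def MinLt (lt q' : Z → Z → Prop) (u v : Z) : Prop := ∃ m, q' u m ∧ ∀ m', q' v m' → lt m m'

/-- The class of `u` is before the class of `v` (rule `ord`). -/
def Bf (side : Z → Bool) (M : Z → Z → Prop) (q q' : Z → Z → Prop) (u v : Z) : Prop :=
  (∃ u', q' u u' ∧ ∃ v', q' v v' ∧ D side M .ord u' v') ∨
    ∃ w, q u w ∧ D side M .ord u w ∧ D side M .ord w v

/-- The order of the classes of `q'` inside a class of `q`. -/
def LtL (side : Z → Bool) (M lt : Z → Z → Prop) : Rule → (Z → Z → Prop) → (Z → Z → Prop) → Z → Z → Prop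
  | .par, _, q', u, v => MinLt lt q' u v
  | .ser, _, q', u, v => MinLt lt q' u v
  | .ord, q, q', u, v => Bf side M q q' u v ∨
      (¬ Bf side M q q' u v ∧ ¬ Bf side M q q' v u ∧ MinLt lt q' u v)

/-- The lexicographic order given by a list of rules. -/
def Lam (side : Z → Bool) (M lt : Z → Z → Prop) : List Rule → (Z → Z → Prop) → Z → Z → Prop
  | [], q, u, v => q u v ∧ lt u v
  | ρ :: τ, q, u, v => (q u v ∧ ¬ nxt side M ρ q u v ∧ LtL side M lt ρ q (nxt side M ρ q) u v) ∨
      Lam side M lt τ (nxt side M ρ q) u v

/-- `q` is an equivalence relation on the set `W`. -/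
structure EqOn (W : Z → Prop) (q : Z → Z → Prop) : Prop where
  dom : ∀ u v, q u v → W u ∧ W v
  refl : ∀ u, W u → q u u
  symm : ∀ u v, q u v → q v u
  trans : ∀ u v w, q u v → q v w → q u w

end L

end P1346e8
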