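import Pool.Agent.Lib.P1346L.Defs
import Pool.Agent.Lib.P1346e8.Lib

/-!
# MODULE ZDef: the lexicographic order is definable (about 1 h)

STATEMENT. In a family `G` of structures in which `side`, `M`, `lt`, `q` are (uniformly) definable, the
relation `Lam side M lt τ q` is definable, for every list of rules `τ`.

PROOF. By the closure properties `Fam.Def.and/or/not/imp/iff/ex/all/eq` and `Fam.Def1.at`, `Fam.Def2.at`
(`Pool.Agent.Lib.P1346e8.Lib`; see `Pool.Agent.Lib.P1346e8.EncDef` for the style: quantified variables are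
the last ones, `v j.castSucc`, `v (Fin.last n)`):
`side u = true` and `side v = true` are definable, `side u ≠ side v` is equivalent to
`¬ (side u = true ↔ side v = true)`; `ed side M u v` is
`(side u = true ∧ M u v) ∨ (¬ side u = true ∧ M v u)`; so `D side M ρ` is `Def2` for every `ρ`.
`Pth side M ρ q n` is `Def2` by induction on `n`; so `nxt`; `MinLt`, `Bf`, `LtL` for definable `q`, `q'`
by unfolding; `Lam` by induction on `τ` for all definable `q`.
(Useful steps: lemmas `def2_D`, `def2_pth`, `def2_nxt`, `def2_minLt`, `def2_bf`, `def2_ltL`.)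
-/

set_option autoImplicit false

namespace P1346e8

namespace L

universe u

variable {ι : Type u} {β υ : Type}

namespace ZDefAux

variable {G : Fam ι β υ}

theorem and2 {Q Q' : (i : ι) → G.X i → G.X i → Prop} (h : G.Def2 Q) (h' : G.Def2 Q') :
    G.Def2 (fun i u v => Q i u v ∧ Q' i u v) := Fam.Def.and h h'

theorem or2 {Q Q' : (i : ι) → G.X i → G.X i → Prop} (h : G.Def2 Q) (h' : G.Def2 Q') :
    G.Def2 (fun i u v => Q i u v ∨ Q' i u v) := Fam.Def.or h h'

theorem iff2 {Q Q' : (i : ι) → G.X i → G.X i → Prop} (h : G.Def2 Q) (h' : G.Def2 Q') :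
    G.Def2 (fun i u v => Q i u v ↔ Q' i u v) := Fam.Def.iff h h'

theorem not2 {Q : (i : ι) → G.X i → G.X i → Prop} (h : G.Def2 Q) :
    G.Def2 (fun i u v => ¬ Q i u v) := Fam.Def.not h

theorem swap2 {Q : (i : ι) → G.X i → G.X i → Prop} (h : G.Def2 Q) :
    G.Def2 (fun i u v => Q i v u) := Fam.Def2.at h 1 0

theorem fst1 {Q : (i : ι) → G.X i → Prop} (h : G.Def1 Q) :
    G.Def2 (fun i u _ => Q i u) := Fam.Def1.at h 0

theorem snd1 {Q : (i : ι) → G.X i → Prop} (h : G.Def1 Q) :
    G.Def2 (fun i _ v => Q i v) := Fam.Def1.at h 1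

variable (side : (i : ι) → G.X i → Bool)
    (M lt q q' : (i : ι) → G.X i → G.X i → Prop)

theorem def2_ne (hs : G.Def1 (fun i z => side i z = true)) :
    G.Def2 (fun i u v => side i u ≠ side i v) := by
  refine (not2 (iff2 (fst1 hs) (snd1 hs))).congr fun i u v => ?_
  cases h1 : side i u <;> cases h2 : side i v <;> simp

theorem def2_ed (hs : G.Def1 (fun i z => side i z = true)) (hM : G.Def2 M) :
    G.Def2 (fun i u v => ed (side i) (M i) u v) := by
  refine (or2 (and2 (fst1 hs) hM) (and2 (not2 (fst1 hs)) (swap2 hM))).congr fun i u v => ?_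
  unfold ed
  cases h1 : side i u <;> simp

theorem def2_D (hs : G.Def1 (fun i z => side i z = true)) (hM : G.Def2 M) (ρ : Rule) :
    G.Def2 (fun i u v => D (side i) (M i) ρ u v) := by
  cases ρ with
  | par => exact and2 (def2_ne side hs) (def2_ed side M hs hM)
  | ser => exact and2 (def2_ne side hs) (not2 (def2_ed side M hs hM))
  | ord => exact and2 (def2_ne side hs) (iff2 (def2_ed side M hs hM) (fst1 hs))

theorem def2_pth (hs : G.Def1 (fun i z => side i z = true)) (hM : G.Def2 M) (hq : G.Def2 q)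
    (ρ : Rule) : ∀ n : ℕ, G.Def2 (fun i u v => Pth (side i) (M i) ρ (q i) n u v)
  | 0 => and2 hq (Fam.Def.eq G 0 1)
  | n + 1 => or2 (def2_pth hs hM hq ρ n)
      (Fam.Def.ex (F := G) (n := 2)
        (Q := fun i (v : Fin 2 → G.X i) (w : G.X i) => Pth (side i) (M i) ρ (q i) n (v 0) w ∧
          q i w (v 1) ∧ D (side i) (M i) ρ w (v 1))
        (Fam.Def.and (Fam.Def2.at (def2_pth hs hM hq ρ n) (Fin.castSucc 0) (Fin.last 2))
          (Fam.Def.and (Fam.Def2.at hq (Fin.last 2) (Fin.castSucc 1))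
            (Fam.Def2.at (def2_D side M hs hM ρ) (Fin.last 2) (Fin.castSucc 1)))))

theorem def2_nxt (hs : G.Def1 (fun i z => side i z = true)) (hM : G.Def2 M) (hq : G.Def2 q)
    (ρ : Rule) : G.Def2 (fun i u v => nxt (side i) (M i) ρ (q i) u v) :=
  and2 (def2_pth side M q hs hM hq ρ 6) (swap2 (def2_pth side M q hs hM hq ρ 6))

theorem def2_minLt (hlt : G.Def2 lt) (hq' : G.Def2 q') :
    G.Def2 (fun i u v => MinLt (lt i) (q' i) u v) :=
  Fam.Def.ex (F := G) (n := 2)
    (Q := fun i (v : Fin 2 → G.X i) (m : G.X i) => q' i (v 0) m ∧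
      ∀ m', q' i (v 1) m' → lt i m m')
    (Fam.Def.and (Fam.Def2.at hq' (Fin.castSucc 0) (Fin.last 2))
      (Fam.Def.all (F := G) (n := 3)
        (Q := fun i (v : Fin 3 → G.X i) (m' : G.X i) => q' i (v (Fin.castSucc 1)) m' →
          lt i (v (Fin.last 2)) m')
        (Fam.Def.imp (Fam.Def2.at hq' (Fin.castSucc (Fin.castSucc 1)) (Fin.last 3))
          (Fam.Def2.at hlt (Fin.castSucc (Fin.last 2)) (Fin.last 3)))))

theorem def2_bf (hs : G.Def1 (fun i z => side i z = true)) (hM : G.Def2 M) (hq : G.Def2 q)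
    (hq' : G.Def2 q') : G.Def2 (fun i u v => Bf (side i) (M i) (q i) (q' i) u v) :=
  or2
    (Fam.Def.ex (F := G) (n := 2)
      (Q := fun i (v : Fin 2 → G.X i) (u' : G.X i) => q' i (v 0) u' ∧
        ∃ v', q' i (v 1) v' ∧ D (side i) (M i) .ord u' v')
      (Fam.Def.and (Fam.Def2.at hq' (Fin.castSucc 0) (Fin.last 2))
        (Fam.Def.ex (F := G) (n := 3)
          (Q := fun i (v : Fin 3 → G.X i) (v' : G.X i) => q' i (v (Fin.castSucc 1)) v' ∧
            D (side i) (M i) .ord (v (Fin.last 2)) v')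
          (Fam.Def.and (Fam.Def2.at hq' (Fin.castSucc (Fin.castSucc 1)) (Fin.last 3))
            (Fam.Def2.at (def2_D side M hs hM .ord) (Fin.castSucc (Fin.last 2)) (Fin.last 3))))))
    (Fam.Def.ex (F := G) (n := 2)
      (Q := fun i (v : Fin 2 → G.X i) (w : G.X i) => q i (v 0) w ∧
        D (side i) (M i) .ord (v 0) w ∧ D (side i) (M i) .ord w (v 1))
      (Fam.Def.and (Fam.Def2.at hq (Fin.castSucc 0) (Fin.last 2))
        (Fam.Def.and (Fam.Def2.at (def2_D side M hs hM .ord) (Fin.castSucc 0) (Fin.last 2))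
          (Fam.Def2.at (def2_D side M hs hM .ord) (Fin.last 2) (Fin.castSucc 1)))))

theorem def2_ltL (hs : G.Def1 (fun i z => side i z = true)) (hM : G.Def2 M) (hlt : G.Def2 lt)
    (hq : G.Def2 q) (hq' : G.Def2 q') (ρ : Rule) :
    G.Def2 (fun i u v => LtL (side i) (M i) (lt i) ρ (q i) (q' i) u v) := by
  cases ρ with
  | par => exact def2_minLt lt q' hlt hq'
  | ser => exact def2_minLt lt q' hlt hq'
  | ord =>
    exact or2 (def2_bf side M q q' hs hM hq hq')
      (and2 (not2 (def2_bf side M q q' hs hM hq hq'))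
        (and2 (not2 (swap2 (def2_bf side M q q' hs hM hq hq'))) (def2_minLt lt q' hlt hq')))

theorem def2_lam' (hs : G.Def1 (fun i z => side i z = true)) (hM : G.Def2 M) (hlt : G.Def2 lt) :
    ∀ (τ : List Rule) (q : (i : ι) → G.X i → G.X i → Prop), G.Def2 q →
      G.Def2 (fun i u v => Lam (side i) (M i) (lt i) τ (q i) u v)
  | [], q, hq => and2 hq hlt
  | ρ :: τ, q, hq => or2
      (and2 hq (and2 (not2 (def2_nxt side M q hs hM hq ρ))
        (def2_ltL side M lt q (fun i => nxt (side i) (M i) ρ (q i)) hs hM hlt hq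
          (def2_nxt side M q hs hM hq ρ) ρ)))
      (def2_lam' hs hM hlt τ (fun i => nxt (side i) (M i) ρ (q i))
        (def2_nxt side M q hs hM hq ρ))

end ZDefAux

theorem def2_lam (G : Fam ι β υ) (side : (i : ι) → G.X i → Bool)
    (M lt q : (i : ι) → G.X i → G.X i → Prop) (hs : G.Def1 (fun i z => side i z = true))
    (hM : G.Def2 M) (hlt : G.Def2 lt) (hq : G.Def2 q) (τ : List Rule) :
    G.Def2 (fun i => Lam (side i) (M i) (lt i) τ (q i)) := by
  exact ZDefAux.def2_lam' side M lt hs hM hlt τ q hq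

end L

end P1346e8
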