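import Pool.Agent.Lib.P1346L.VDefs
import Pool.Agent.Lib.P1346L.ZDef
import Pool.Agent.Lib.P1346L.CopyElim

/-!
# MODULE VDef: the orders of rows and columns are definable (about 0.8 h)

STATEMENT. If `X`, `Y`, `M`, `lt` are definable in a family `F` then `rowOrd` and `colOrd` are definable.

PROOF. Let `G := Fam.mk (fun i => F.X i × Bool) R' U' : Fam ι (Fin 2) (Fin 2)` with
`R' i 0 u v := M i u.1 v.1`, `R' i 1 u v := ltZ (lt i) u v`, `U' i 0 z := z.2 = true`,
`U' i 1 z := W0 (X i) (Y i) z`.  `def2_lam` applies to `G` (`side = Prod.snd`, `q u v = W0 u ∧ W0 v`):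
`lam0` is `Def2` in `G`.  The basic relations are definable in `F` for fixed second components `c, d`:
`M i x y`; `lt i x y ∨ (x = y ∧ c = true ∧ d = false)` (cases `c`, `d`); `c = true` (constant,
`Fam.Def.const` with `0 < 1`); `X i x` or `Y i x`.  `copyElim` with `c = ![true, true]` resp.
`![false, false]` gives that `lam0 (x, true) (x', true)` and `lam0 (y, false) (y', false)` are definable;
take the conjunction with `X x ∧ X x'` resp. `Y y ∧ Y y'`.
-/

set_option autoImplicit false

namespace P1346e8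

namespace L

universe u

variable {ι : Type u} {β υ : Type}

namespace VDefAux

theorem def2_lam0 (F : Fam ι β υ) (M lt : (i : ι) → F.X i → F.X i → Prop)
    (X Y : (i : ι) → F.X i → Prop) (hM : F.Def2 M) (hlt : F.Def2 lt) (hX : F.Def1 X) (hY : F.Def1 Y)
    (τ : List Rule) (b : Bool) :
    F.Def2 (fun i x y => lam0 (M i) (lt i) (X i) (Y i) τ (x, b) (y, b)) := by
  let R' : (i : ι) → Fin 2 → F.X i × Bool → F.X i × Bool → Prop := fun i b u v =>
    if b = 0 then M i u.1 v.1 else ltZ (lt i) u v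
  let U' : (i : ι) → Fin 2 → F.X i × Bool → Prop := fun i b z =>
    if b = 0 then z.2 = true else W0 (X i) (Y i) z
  let G : Fam ι (Fin 2) (Fin 2) := Fam.mk (fun i => F.X i × Bool) R' U'
  have hs : G.Def1 (fun i z => (Prod.snd z : Bool) = true) := by
    refine (Fam.Def.un G 0 0).congr fun i v => ?_
    change _ ↔ (if (0 : Fin 2) = 0 then (v 0 : F.X i × Bool).2 = true else
      W0 (X i) (Y i) (v 0 : F.X i × Bool))
    rw [if_pos rfl]
  have hW : G.Def1 (fun i z => W0 (X i) (Y i) z) := by
    refine (Fam.Def.un G 1 0).congr fun i v => ?_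
    change _ ↔ (if (1 : Fin 2) = 0 then (v 0 : F.X i × Bool).2 = true else
      W0 (X i) (Y i) (v 0 : F.X i × Bool))
    rw [if_neg (by decide)]
  have hMM : G.Def2 (fun i u v => M i u.1 v.1) := by
    refine (Fam.Def.bin G 0 0 1).congr fun i v => ?_
    change _ ↔ (if (0 : Fin 2) = 0 then M i (v 0 : F.X i × Bool).1 (v 1 : F.X i × Bool).1 else
      ltZ (lt i) (v 0 : F.X i × Bool) (v 1 : F.X i × Bool))
    rw [if_pos rfl]
  have hL : G.Def2 (fun i u v => ltZ (lt i) u v) := by
    refine (Fam.Def.bin G 1 0 1).congr fun i v => ?_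
    change _ ↔ (if (1 : Fin 2) = 0 then M i (v 0 : F.X i × Bool).1 (v 1 : F.X i × Bool).1 else
      ltZ (lt i) (v 0 : F.X i × Bool) (v 1 : F.X i × Bool))
    rw [if_neg (by decide)]
  have hq : G.Def2 (fun i u v => W0 (X i) (Y i) u ∧ W0 (X i) (Y i) v) :=
    Fam.Def.and (Fam.Def1.at hW 0) (Fam.Def1.at hW 1)
  have hlam : G.Def2 (fun i u v => lam0 (M i) (lt i) (X i) (Y i) τ u v) :=
    def2_lam G (fun _ => Prod.snd) (fun i u v => M i u.1 v.1) (fun i => ltZ (lt i))
      (fun i u v => W0 (X i) (Y i) u ∧ W0 (X i) (Y i) v) hs hMM hL hq τ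
  have hR : ∀ (k : Fin 2) (c d : Bool), F.Def2 (fun i x y => R' i k (x, c) (y, d)) := by
    intro k c d
    by_cases hk : k = 0
    · refine hM.congr fun i x y => ?_
      change (if k = 0 then M i x y else ltZ (lt i) (x, c) (y, d)) ↔ _
      rw [if_pos hk]
    · have h1 : F.Def2 (fun i x y => lt i x y ∨ (x = y ∧ (c = true ∧ d = false))) :=
        Fam.Def.or hlt (Fam.Def.and (Fam.Def.eq F 0 1) (Fam.Def.const F _ (by omega)))
      refine h1.congr fun i x y => ?_
      change (if k = 0 then M i x y else ltZ (lt i) (x, c) (y, d)) ↔ _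
      rw [if_neg hk]
      rfl
  have hU : ∀ (k : Fin 2) (c : Bool), F.Def1 (fun i x => U' i k (x, c)) := by
    intro k c
    by_cases hk : k = 0
    · have h1 : F.Def1 (fun i _ => c = true) := Fam.Def.const F (c = true) (n := 1) (by omega)
      refine h1.congr fun i x => ?_
      change (if k = 0 then c = true else W0 (X i) (Y i) (x, c)) ↔ _
      rw [if_pos hk]
    · cases c with
      | true =>
        refine hX.congr fun i x => ?_
        change (if k = 0 then (true = true) else W0 (X i) (Y i) (x, true)) ↔ _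
        rw [if_neg hk]
        simp [W0]
      | false =>
        refine hY.congr fun i x => ?_
        change (if k = 0 then (false = true) else W0 (X i) (Y i) (x, false)) ↔ _
        rw [if_neg hk]
        simp [W0]
  exact copyElim F R' U' hR hU hlam (fun _ => b)

end VDefAux

theorem def2_rowOrd (F : Fam ι β υ) (M lt : (i : ι) → F.X i → F.X i → Prop)
    (X Y : (i : ι) → F.X i → Prop) (hM : F.Def2 M) (hlt : F.Def2 lt) (hX : F.Def1 X) (hY : F.Def1 Y)
    (τ : List Rule) : F.Def2 (fun i => rowOrd (M i) (lt i) (X i) (Y i) τ) :=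
  Fam.Def.and (Fam.Def1.at hX 0) (Fam.Def.and (Fam.Def1.at hX 1)
    (VDefAux.def2_lam0 F M lt X Y hM hlt hX hY τ true))

theorem def2_colOrd (F : Fam ι β υ) (M lt : (i : ι) → F.X i → F.X i → Prop)
    (X Y : (i : ι) → F.X i → Prop) (hM : F.Def2 M) (hlt : F.Def2 lt) (hX : F.Def1 X) (hY : F.Def1 Y)
    (τ : List Rule) : F.Def2 (fun i => colOrd (M i) (lt i) (X i) (Y i) τ) :=
  Fam.Def.and (Fam.Def1.at hY 0) (Fam.Def.and (Fam.Def1.at hY 1)
    (VDefAux.def2_lam0 F M lt X Y hM hlt hX hY τ false))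

end L

end P1346e8
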