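import Pool.Agent.Lib.P1346L.LamLin

/-!
# MODULE Runs: few changes in a row (about 1.8 h)

STATEMENT. Let `x ∈ W`.  Along the order `Lam side M lt τ q`, restricted to the elements `y` of the class
of `x` on the other side, the entry `ed side M x y` changes at most `2 * τ.length` times.  (`s` is a set of
elements `y` at which the entry changes: the next such element `y'` has a different entry.)

PROOF. Induction on `τ` (for all `q`).  `[]`: the class of `x` is one-sided, there is no `y`: `s` is empty.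
`ρ :: τ`, `q' = nxt side M ρ q`.  The class `q' x` is convex in the class `q x` for the order
`Lam (ρ :: τ) q` (if `a, c ∈ q' x`, `a < b < c` and `b ∉ q' x` then `LtL a b`, `LtL b c`, hence by invariance
`LtL b a`: contradiction with asymmetry).  For `y` in `q x`, not in `q' x`, on the other side than `x`, the
entry is false (`par`), true (`ser`), and for `ord`: `y` before `x` iff `LtL y x` iff `D .ord y x`, `y` after
`x` iff `D .ord x y` (`entry_ord`), and `ed side M x y ↔ side x = true` resp. (by `ed_symm`)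
`ed side M x y ↔ side y = true`; so the entry is constant for all such `y` before `q' x` and constant for all
such `y` after it.  So a change at `y` (next element `y'`) happens only if (a) `y, y' ∈ q' x`, and then `y'`
is next after `y` also in the class `q' x` for `Lam τ q'` (the orders agree on `q' x`), at most
`2 * τ.length` such `y` by induction; or (b) `y` is before `q' x` and `y'` is not, which determines `y` (it
is the last element of the other side before `q' x`); or (c) `y'` is after `q' x` and `y` is not, which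
determines `y` (the last element of the other side that is not after `q' x`).  Total
`2 * τ.length + 2 = 2 * (ρ :: τ).length`.
-/

set_option autoImplicit false

namespace P1346e8

namespace L

variable {Z : Type} [Finite Z] {side : Z → Bool} {M lt : Z → Z → Prop} {W : Z → Prop}

namespace RunsAux

/-- `z` is before the class of `x`. -/
def Bef (side : Z → Bool) (M lt : Z → Z → Prop) (ρ : Rule) (q : Z → Z → Prop) (x z : Z) : Prop :=
  ¬ nxt side M ρ q x z ∧ LtL side M lt ρ q (nxt side M ρ q) z x

/-- `z` is after the class of `x`. -/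
def Aft (side : Z → Bool) (M lt : Z → Z → Prop) (ρ : Rule) (q : Z → Z → Prop) (x z : Z) : Prop :=
  ¬ nxt side M ρ q x z ∧ LtL side M lt ρ q (nxt side M ρ q) x z

theorem lam_split (τ : List Rule) (ρ : Rule) (q : Z → Z → Prop) (hq : EqOn W q)
    (hTD : ∀ u, W u → TD side M (ρ :: τ) (q u)) (a b : Z) (h : Lam side M lt (ρ :: τ) q a b)
    (hn : ¬ nxt side M ρ q a b) : LtL side M lt ρ q (nxt side M ρ q) a b := by
  rcases h with h | h
  · exact h.2.2
  · exfalso
    apply hn
    exact lam_dom τ (nxt side M ρ q) (nxt_eqOn hq (fun u hu => ⟨_, hTD u hu⟩) ρ)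
      (fun u hu => nxt_td hq ρ τ u hu (hTD u hu)) a b h

theorem dn (hlt : StrictLin W lt) (τ : List Rule) (ρ : Rule) (q : Z → Z → Prop) (hq : EqOn W q)
    (hTD : ∀ u, W u → TD side M (ρ :: τ) (q u)) (x a b : Z) (hxa : q x a) (hxb : q x b)
    (hb : Bef side M lt ρ q x b) (hab : Lam side M lt (ρ :: τ) q a b) :
    Bef side M lt ρ q x a := by
  have hT : ∀ u, W u → ∃ τ, TD side M τ (q u) := fun u hu => ⟨_, hTD u hu⟩
  have hq' : EqOn W (nxt side M ρ q) := nxt_eqOn hq hT ρ
  have hqab : q a b := hq.trans _ _ _ (hq.symm _ _ hxa) hxb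
  have hWx : W x := (hq.dom _ _ hxa).1
  have hWb : W b := (hq.dom _ _ hxb).2
  have hWa : W a := (hq.dom _ _ hxa).2
  by_cases h1 : nxt side M ρ q x a
  · exfalso
    have h2 : ¬ nxt side M ρ q a b := fun h => hb.1 (hq'.trans _ _ _ h1 h)
    have h3 := lam_split τ ρ q hq hTD a b hab h2
    have h4 := ltL_inv hq hT hlt ρ a b x b hqab h2 (hq'.symm _ _ h1) (hq'.refl b hWb) h3
    exact ltL_asymm hq hT hlt ρ x b hxb hb.1 h4 hb.2
  · refine ⟨h1, ?_⟩
    rcases ltL_total hq hT hlt ρ x a hxa h1 with h2 | h2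
    · exfalso
      by_cases h3 : nxt side M ρ q a b
      · have h4 := ltL_inv hq hT hlt ρ x a x b hxa h1 (hq'.refl x hWx) h3 h2
        exact ltL_asymm hq hT hlt ρ x b hxb hb.1 h4 hb.2
      · have h4 := lam_split τ ρ q hq hTD a b hab h3
        have h5 := ltL_trans hq hT hlt ρ a b x hqab (hq.symm _ _ hxb) h3
          (fun h => hb.1 (hq'.symm _ _ h)) h4 hb.2
        exact ltL_asymm hq hT hlt ρ x a hxa h1 h2 h5.2
    · exact h2

theorem up (hlt : StrictLin W lt) (τ : List Rule) (ρ : Rule) (q : Z → Z → Prop) (hq : EqOn W q)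
    (hTD : ∀ u, W u → TD side M (ρ :: τ) (q u)) (x a b : Z) (hxa : q x a) (hxb : q x b)
    (ha : Aft side M lt ρ q x a) (hab : Lam side M lt (ρ :: τ) q a b) :
    Aft side M lt ρ q x b := by
  have hT : ∀ u, W u → ∃ τ, TD side M τ (q u) := fun u hu => ⟨_, hTD u hu⟩
  have hq' : EqOn W (nxt side M ρ q) := nxt_eqOn hq hT ρ
  have hqab : q a b := hq.trans _ _ _ (hq.symm _ _ hxa) hxb
  have hWx : W x := (hq.dom _ _ hxa).1
  have hWb : W b := (hq.dom _ _ hxb).2
  have hWa : W a := (hq.dom _ _ hxa).2
  by_cases h1 : nxt side M ρ q x b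
  · exfalso
    have h2 : ¬ nxt side M ρ q a b := fun h => ha.1 (hq'.trans _ _ _ h1 (hq'.symm _ _ h))
    have h3 := lam_split τ ρ q hq hTD a b hab h2
    have h4 := ltL_inv hq hT hlt ρ a b a x hqab h2 (hq'.refl a hWa) (hq'.symm _ _ h1) h3
    exact ltL_asymm hq hT hlt ρ x a hxa ha.1 ha.2 h4
  · by_cases h3 : nxt side M ρ q a b
    · exact ⟨h1, ltL_inv hq hT hlt ρ x a x b hxa ha.1 (hq'.refl x hWx) h3 ha.2⟩
    · have h4 := lam_split τ ρ q hq hTD a b hab h3
      exact ltL_trans hq hT hlt ρ x a b hxa hqab ha.1 h3 ha.2 h4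

theorem const_bef (hlt : StrictLin W lt) (τ : List Rule) (ρ : Rule) (q : Z → Z → Prop)
    (hq : EqOn W q) (hTD : ∀ u, W u → TD side M (ρ :: τ) (q u)) (x a b : Z) (hxa : q x a)
    (hxb : q x b) (sa : side a ≠ side x) (sb : side b ≠ side x) (ha : Bef side M lt ρ q x a)
    (hb : Bef side M lt ρ q x b) : ed side M x a ↔ ed side M x b := by
  have hT : ∀ u, W u → ∃ τ, TD side M τ (q u) := fun u hu => ⟨_, hTD u hu⟩
  have hq' : EqOn W (nxt side M ρ q) := nxt_eqOn hq hT ρ
  cases ρ with
  | par =>
    have h1 := entry_par hq x a hxa ha.1 (Ne.symm sa)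
    have h2 := entry_par hq x b hxb hb.1 (Ne.symm sb)
    exact iff_of_false h1 h2
  | ser =>
    have h1 := entry_ser hq x a hxa ha.1 (Ne.symm sa)
    have h2 := entry_ser hq x b hxb hb.1 (Ne.symm sb)
    exact iff_of_true h1 h2
  | ord =>
    have key : ∀ z, q x z → side z ≠ side x → Bef side M lt .ord q x z →
        (ed side M x z ↔ side x = false) := by
      intro z hz sz hbz
      have h1 := (entry_ord hq hT hlt z x (hq.symm _ _ hz) (fun h => hbz.1 (hq'.symm _ _ h)) sz).1 hbz.2
      obtain ⟨h2, h3⟩ := h1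
      rw [ed_symm (Ne.symm sz), h3]
      cases hsz : side z <;> cases hsx : side x <;> simp_all
    rw [key a hxa sa ha, key b hxb sb hb]

theorem const_aft (hlt : StrictLin W lt) (τ : List Rule) (ρ : Rule) (q : Z → Z → Prop)
    (hq : EqOn W q) (hTD : ∀ u, W u → TD side M (ρ :: τ) (q u)) (x a b : Z) (hxa : q x a)
    (hxb : q x b) (sa : side a ≠ side x) (sb : side b ≠ side x) (ha : Aft side M lt ρ q x a)
    (hb : Aft side M lt ρ q x b) : ed side M x a ↔ ed side M x b := by
  have hT : ∀ u, W u → ∃ τ, TD side M τ (q u) := fun u hu => ⟨_, hTD u hu⟩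
  have hq' : EqOn W (nxt side M ρ q) := nxt_eqOn hq hT ρ
  cases ρ with
  | par =>
    have h1 := entry_par hq x a hxa ha.1 (Ne.symm sa)
    have h2 := entry_par hq x b hxb hb.1 (Ne.symm sb)
    exact iff_of_false h1 h2
  | ser =>
    have h1 := entry_ser hq x a hxa ha.1 (Ne.symm sa)
    have h2 := entry_ser hq x b hxb hb.1 (Ne.symm sb)
    exact iff_of_true h1 h2
  | ord =>
    have key : ∀ z, q x z → side z ≠ side x → Aft side M lt .ord q x z →
        (ed side M x z ↔ side x = true) := by
      intro z hz sz hbz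
      exact ((entry_ord hq hT hlt x z hz hbz.1 (Ne.symm sz)).1 hbz.2).2
    rw [key a hxa sa ha, key b hxb sb hb]

end RunsAux

open RunsAux in
theorem runs_le (hlt : StrictLin W lt) (τ : List Rule) (q : Z → Z → Prop) (hq : EqOn W q)
    (hTD : ∀ u, W u → TD side M τ (q u)) (x : Z) (hx : W x) (s : Finset Z)
    (hs : ∀ y ∈ s, ∃ y', Nxt (fun z => q x z ∧ side z ≠ side x) (Lam side M lt τ q) y y' ∧
      ¬ (ed side M x y ↔ ed side M x y')) :
    s.card ≤ 2 * τ.length := by
  classical
  induction τ generalizing q s with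
  | nil =>
    have h0 : s = ∅ := by
      rw [Finset.eq_empty_iff_forall_notMem]
      intro y hy
      obtain ⟨y', h1, _⟩ := hs y hy
      have h2 := hTD x hx x y (hq.refl x hx) h1.1.1
      exact h1.1.2 h2.symm
    simp [h0]
  | cons ρ τ ih =>
    have hT : ∀ u, W u → ∃ τ, TD side M τ (q u) := fun u hu => ⟨_, hTD u hu⟩
    have hq' : EqOn W (nxt side M ρ q) := nxt_eqOn hq hT ρ
    have hTD' : ∀ u, W u → TD side M τ (nxt side M ρ q u) := fun u hu =>
      nxt_td hq ρ τ u hu (hTD u hu)
    have hlin : StrictLin (q x) (Lam side M lt (ρ :: τ) q) := lam_lin hlt (ρ :: τ) q hq hTD x hx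
    set S : Z → Prop := fun z => q x z ∧ side z ≠ side x with hS
    set L : Z → Z → Prop := Lam side M lt (ρ :: τ) q with hL
    -- trichotomy
    have tri : ∀ z, q x z → nxt side M ρ q x z ∨ Bef side M lt ρ q x z ∨ Aft side M lt ρ q x z := by
      intro z hz
      by_cases h1 : nxt side M ρ q x z
      · exact Or.inl h1
      · rcases ltL_total hq hT hlt ρ x z hz h1 with h2 | h2
        · exact Or.inr (Or.inr ⟨h1, h2⟩)
        · exact Or.inr (Or.inl ⟨h1, h2⟩)
    have bna : ∀ z, q x z → Bef side M lt ρ q x z → ¬ Aft side M lt ρ q x z := by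
      intro z hz h1 h2
      exact ltL_asymm hq hT hlt ρ x z hz h1.1 h2.2 h1.2
    set s1 := s.filter (fun y => ∃ y', Nxt S L y y' ∧ ¬ (ed side M x y ↔ ed side M x y') ∧
      nxt side M ρ q x y ∧ nxt side M ρ q x y') with hs1
    set s2 := s.filter (fun y => ∃ y', Nxt S L y y' ∧ Bef side M lt ρ q x y ∧
      ¬ Bef side M lt ρ q x y') with hs2
    set s3 := s.filter (fun y => ∃ y', Nxt S L y y' ∧ ¬ Aft side M lt ρ q x y ∧
      Aft side M lt ρ q x y') with hs3
    have hsub : s ⊆ s1 ∪ s2 ∪ s3 := by
      intro y hy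
      obtain ⟨y', h1, h2⟩ := hs y hy
      have hSy := h1.1
      have hSy' := h1.2.1
      have hLyy := h1.2.2.1
      rw [Finset.mem_union, Finset.mem_union, hs1, hs2, hs3, Finset.mem_filter, Finset.mem_filter,
        Finset.mem_filter]
      by_cases ha : Aft side M lt ρ q x y'
      · by_cases ha' : Aft side M lt ρ q x y
        · exact absurd (const_aft hlt τ ρ q hq hTD x y y' hSy.1 hSy'.1 hSy.2 hSy'.2 ha' ha) h2
        · exact Or.inr ⟨hy, y', h1, ha', ha⟩
      · by_cases hb : Bef side M lt ρ q x y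
        · by_cases hb' : Bef side M lt ρ q x y'
          · exact absurd (const_bef hlt τ ρ q hq hTD x y y' hSy.1 hSy'.1 hSy.2 hSy'.2 hb hb') h2
          · exact Or.inl (Or.inr ⟨hy, y', h1, hb, hb'⟩)
        · -- now `y'` is not after, `y` is not before
          have hb' : ¬ Bef side M lt ρ q x y' := fun h =>
            hb (dn hlt τ ρ q hq hTD x y y' hSy.1 hSy'.1 h hLyy)
          have ha' : ¬ Aft side M lt ρ q x y := fun h =>
            ha (up hlt τ ρ q hq hTD x y y' hSy.1 hSy'.1 h hLyy)
          have h3 : nxt side M ρ q x y := by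
            rcases tri y hSy.1 with h | h | h
            · exact h
            · exact absurd h hb
            · exact absurd h ha'
          have h4 : nxt side M ρ q x y' := by
            rcases tri y' hSy'.1 with h | h | h
            · exact h
            · exact absurd h hb'
            · exact absurd h ha
          exact Or.inl (Or.inl ⟨hy, y', h1, h2, h3, h4⟩)
    have hc1 : s1.card ≤ 2 * τ.length := by
      apply ih (nxt side M ρ q) hq' hTD' s1
      intro y hy
      rw [hs1, Finset.mem_filter] at hy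
      obtain ⟨hys, y', h1, h2, h3, h4⟩ := hy
      refine ⟨y', ⟨⟨h3, h1.1.2⟩, ⟨h4, h1.2.1.2⟩, ?_, ?_⟩, h2⟩
      · rcases h1.2.2.1 with h | h
        · exact absurd (hq'.trans _ _ _ (hq'.symm _ _ h3) h4) h.2.1
        · exact h
      · rintro z ⟨hz1, hz2⟩ ⟨hz3, hz4⟩
        exact h1.2.2.2 z ⟨nxt_le hq ρ _ _ hz1, hz2⟩ ⟨Or.inr hz3, Or.inr hz4⟩
    have hstep : ∀ y1 y2 y1', Nxt S L y1 y1' → S y2 → L y1 y2 → y2 = y1' ∨ L y1' y2 := by
      intro y1 y2 y1' h1 h2 h3
      by_cases h4 : y2 = y1'
      · exact Or.inl h4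
      · rcases hlin.2.2 y2 y1' h2.1 h1.2.1.1 h4 with h5 | h5
        · exact absurd ⟨h3, h5⟩ (h1.2.2.2 y2 h2)
        · exact Or.inr h5
    have hc2 : s2.card ≤ 1 := by
      have key : ∀ y1 y2, y1 ∈ s2 → y2 ∈ s2 → ¬ L y1 y2 := by
        intro y1 y2 hy1 hy2 h12
        rw [hs2, Finset.mem_filter] at hy1 hy2
        obtain ⟨_, y1', a1, a2, a3⟩ := hy1
        obtain ⟨_, y2', b1, b2, b3⟩ := hy2
        rcases hstep y1 y2 y1' a1 b1.1 h12 with h | h
        · rw [h] at b2
          exact a3 b2
        · exact a3 (dn hlt τ ρ q hq hTD x y1' y2 a1.2.1.1 b1.1.1 b2 h)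
      rw [Finset.card_le_one]
      intro y1 hy1 y2 hy2
      by_contra hne
      have q1 : q x y1 := by
        have := hy1
        rw [hs2, Finset.mem_filter] at this
        obtain ⟨_, _, a1, _⟩ := this
        exact a1.1.1
      have q2 : q x y2 := by
        have := hy2
        rw [hs2, Finset.mem_filter] at this
        obtain ⟨_, _, a1, _⟩ := this
        exact a1.1.1
      rcases hlin.2.2 y1 y2 q1 q2 hne with h | h
      · exact key y1 y2 hy1 hy2 h
      · exact key y2 y1 hy2 hy1 h
    have hc3 : s3.card ≤ 1 := by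
      have key : ∀ y1 y2, y1 ∈ s3 → y2 ∈ s3 → ¬ L y1 y2 := by
        intro y1 y2 hy1 hy2 h12
        rw [hs3, Finset.mem_filter] at hy1 hy2
        obtain ⟨_, y1', a1, a2, a3⟩ := hy1
        obtain ⟨_, y2', b1, b2, b3⟩ := hy2
        rcases hstep y1 y2 y1' a1 b1.1 h12 with h | h
        · rw [h] at b2
          exact b2 a3
        · exact b2 (up hlt τ ρ q hq hTD x y1' y2 a1.2.1.1 b1.1.1 a3 h)
      rw [Finset.card_le_one]
      intro y1 hy1 y2 hy2
      by_contra hne
      have q1 : q x y1 := by
        have := hy1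
        rw [hs3, Finset.mem_filter] at this
        obtain ⟨_, _, a1, _⟩ := this
        exact a1.1.1
      have q2 : q x y2 := by
        have := hy2
        rw [hs3, Finset.mem_filter] at this
        obtain ⟨_, _, a1, _⟩ := this
        exact a1.1.1
      rcases hlin.2.2 y1 y2 q1 q2 hne with h | h
      · exact key y1 y2 hy1 hy2 h
      · exact key y2 y1 hy2 hy1 h
    have h1 := Finset.card_le_card hsub
    have h2 := Finset.card_union_le (s1 ∪ s2) s3
    have h3 := Finset.card_union_le s1 s2
    rw [List.length_cons]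
    omega

end L

end P1346e8
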