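import Pool.Agent.Lib.P1346L.VDefs
import Pool.Agent.Lib.P1346L.Runs

/-!
# MODULE VOrd: the orders of rows and columns have few corners (about 1.5 h)

STATEMENT. Let `V` be finite, `lt` a linear order of `V`, and let the rows `X` and the columns `Y` be
decomposable by `τ`. Then `rowOrd` is a strict linear order on `X`, `colOrd` on `Y`, and the corner relation
of `M` for these orders contains no `K_{t,t}` with `t = 4 * τ.length + 1`.

PROOF. Put `Z = V × Bool`, `W = W0 X Y`, `q u v := W u ∧ W v`; `EqOn W q`; the class `q u` (`u ∈ W`) is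
`W`: decomposable by `τ` (`TD.mono`); `ltZ lt` is a strict linear order on `W`.  `lam_lin` gives that
`lam0` is a strict linear order on `W`, so `rowOrd`, `colOrd` are strict linear orders on `X`, `Y` (if `X`
and `Y` are empty there is nothing to show).
Note `ed Prod.snd (fun u v => M u.1 v.1) (x, true) (y, false)` is `M x y`.
Suppose `f, g : Fin t → V` are injective with `Corner ... (f i) (g j)` for all `i, j`.  Consider the row
`x = f 0` and the next row `x'` (from `Corner` at `(f 0, g 0)`; the next element is unique, as `rowOrd`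
is a strict linear order on `X`: so for every `j` the `x'` of the corner at `(f 0, g j)` is this one).
The corner at `(x, g j)` says: with `y = g j` and the next column `y'`, the two columns `y`, `y'` of the
`2 × 2` matrix on the rows `x, x'` are different, so the entry changes at `y` in the row `x` or in the row
`x'`.  So `Fin t` is the union of two sets, and by `runs_le` for `(x, true)` and `(x', true)` (apply it to
the images of the two sets under `j ↦ (g j, false)`, which is injective; `Nxt Y colOrd y y'` gives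
`Nxt (fun z => q (x, true) z ∧ z.2 ≠ true) (lam0 ...) (y, false) (y', false)`) each has at most
`2 * τ.length` elements: `t ≤ 4 * τ.length`, a contradiction.
(The matrix is restricted to `X x ∧ Y y`, which changes nothing: all elements of a corner are in `X`
resp. `Y`.)
-/

set_option autoImplicit false

namespace P1346e8

namespace L

namespace VOrdAux

variable {V : Type}

theorem ltZ_lin {lt : V → V → Prop} (hlt : StrictLin (fun _ => True) lt) (W : V × Bool → Prop) :
    StrictLin W (ltZ lt) := by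
  refine ⟨?_, ?_, ?_⟩
  · rintro ⟨x, b⟩ _ h
    rcases h with h | ⟨_, h1, h2⟩
    · exact hlt.1 x trivial h
    · rw [h1] at h2
      exact Bool.noConfusion h2
  · rintro ⟨x, b⟩ ⟨y, b'⟩ ⟨z, b''⟩ _ _ _ h h'
    rcases h with h | ⟨h0, h1, h2⟩
    · rcases h' with h' | ⟨h0', _, _⟩
      · exact Or.inl (hlt.2.1 x y z trivial trivial trivial h h')
      · change y = z at h0'
        subst h0'
        exact Or.inl h
    · rcases h' with h' | ⟨_, h1', _⟩
      · change x = y at h0
        subst h0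
        exact Or.inl h'
      · rw [h1'] at h2
        exact Bool.noConfusion h2
  · rintro ⟨x, b⟩ ⟨y, b'⟩ _ _ hne
    by_cases h : x = y
    · subst h
      cases b <;> cases b'
      · exact absurd rfl hne
      · exact Or.inr (Or.inr ⟨rfl, rfl, rfl⟩)
      · exact Or.inl (Or.inr ⟨rfl, rfl, rfl⟩)
      · exact absurd rfl hne
    · rcases hlt.2.2 x y trivial trivial h with h1 | h1
      · exact Or.inl (Or.inl h1)
      · exact Or.inr (Or.inl h1)

theorem nxt_unique {S : V → Prop} {r : V → V → Prop} (h : StrictLin S r) {x a b : V}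
    (ha : Nxt S r x a) (hb : Nxt S r x b) : a = b := by
  by_contra hne
  rcases h.2.2 a b ha.2.1 hb.2.1 hne with h1 | h1
  · exact hb.2.2.2 a ha.2.1 ⟨ha.2.2.1, h1⟩
  · exact ha.2.2.2 b hb.2.1 ⟨hb.2.2.1, h1⟩

theorem eqOn0 (X Y : V → Prop) : EqOn (W0 X Y) (fun u v => W0 X Y u ∧ W0 X Y v) :=
  ⟨fun _ _ h => h, fun _ h => ⟨h, h⟩, fun _ _ h => ⟨h.2, h.1⟩, fun _ _ _ h h' => ⟨h.1, h'.2⟩⟩

/-- Few changes along one row. -/
theorem row_le [Finite V] (M lt : V → V → Prop) (hlt : StrictLin (fun _ => True) lt)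
    (X Y : V → Prop) (τ : List Rule)
    (h : TD (Z := V × Bool) Prod.snd (fun u v => M u.1 v.1) τ (W0 X Y)) (x : V) (hx : X x)
    {t : ℕ} (g : Fin t → V) (hg : Function.Injective g) (s : Finset (Fin t))
    (hs : ∀ j ∈ s, ∃ y', Nxt Y (colOrd M lt X Y τ) (g j) y' ∧ ¬ (M x (g j) ↔ M x y')) :
    s.card ≤ 2 * τ.length := by
  classical
  have hWx : W0 X Y (x, true) := by simpa [W0] using hx
  have key := runs_le (side := (Prod.snd : V × Bool → Bool)) (M := fun u v => M u.1 v.1)
    (ltZ_lin hlt (W0 X Y)) τ _ (eqOn0 X Y)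
    (fun u hu => h.mono fun v hv => hv.2) (x, true) hWx (s.image fun j => (g j, false)) (by
      intro y hy
      rw [Finset.mem_image] at hy
      obtain ⟨j, hj, rfl⟩ := hy
      obtain ⟨y', h1, h2⟩ := hs j hj
      have hWy : W0 X Y (g j, false) := by simpa [W0] using h1.1
      have hWy' : W0 X Y (y', false) := by simpa [W0] using h1.2.1
      refine ⟨(y', false), ⟨⟨⟨hWx, hWy⟩, by simp⟩, ⟨⟨hWx, hWy'⟩, by simp⟩, h1.2.2.1.2.2, ?_⟩, ?_⟩
      · rintro ⟨z, b⟩ ⟨⟨_, hz⟩, hb⟩ ⟨hz1, hz2⟩
        have hb' : b = false := by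
          cases b
          · rfl
          · exact absurd rfl hb
        subst hb'
        have hYz : Y z := by simpa [W0] using hz
        exact h1.2.2.2 z hYz ⟨⟨h1.1, hYz, hz1⟩, ⟨hYz, h1.2.1, hz2⟩⟩
      · simpa [ed] using h2)
  rwa [Finset.card_image_of_injective] at key
  intro a b hab
  exact hg (congrArg Prod.fst hab)

end VOrdAux

open VOrdAux in
theorem vord {V : Type} [Finite V] (M lt : V → V → Prop) (hlt : StrictLin (fun _ => True) lt)
    (X Y : V → Prop) (τ : List Rule)
    (h : TD (Z := V × Bool) Prod.snd (fun u v => M u.1 v.1) τ (W0 X Y)) :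
    StrictLin X (rowOrd M lt X Y τ) ∧ StrictLin Y (colOrd M lt X Y τ) ∧
      BicliqueFree (4 * τ.length + 1) (Corner X (rowOrd M lt X Y τ) Y (colOrd M lt X Y τ)
        (fun x y => X x ∧ Y y ∧ M x y)) := by
  classical
  have hl := lam_lin (side := (Prod.snd : V × Bool → Bool)) (M := fun u v => M u.1 v.1)
    (ltZ_lin hlt (W0 X Y)) τ _ (eqOn0 X Y) (fun u hu => h.mono fun v hv => hv.2)
  have hWX : ∀ x, X x → W0 X Y (x, true) := fun x hx => by simpa [W0] using hx
  have hWY : ∀ y, Y y → W0 X Y (y, false) := fun y hy => by simpa [W0] using hy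
  have hrow : StrictLin X (rowOrd M lt X Y τ) := by
    refine ⟨?_, ?_, ?_⟩
    · intro x hx hxx
      exact (hl (x, true) (hWX x hx)).1 (x, true) ⟨hWX x hx, hWX x hx⟩ hxx.2.2
    · intro x y z hx hy hz h1 h2
      exact ⟨hx, hz, (hl (x, true) (hWX x hx)).2.1 (x, true) (y, true) (z, true)
        ⟨hWX x hx, hWX x hx⟩ ⟨hWX x hx, hWX y hy⟩ ⟨hWX x hx, hWX z hz⟩ h1.2.2 h2.2.2⟩
    · intro x y hx hy hne
      rcases (hl (x, true) (hWX x hx)).2.2 (x, true) (y, true) ⟨hWX x hx, hWX x hx⟩
        ⟨hWX x hx, hWX y hy⟩ (fun h => hne (congrArg Prod.fst h)) with h1 | h1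
      · exact Or.inl ⟨hx, hy, h1⟩
      · exact Or.inr ⟨hy, hx, h1⟩
  have hcol : StrictLin Y (colOrd M lt X Y τ) := by
    refine ⟨?_, ?_, ?_⟩
    · intro x hx hxx
      exact (hl (x, false) (hWY x hx)).1 (x, false) ⟨hWY x hx, hWY x hx⟩ hxx.2.2
    · intro x y z hx hy hz h1 h2
      exact ⟨hx, hz, (hl (x, false) (hWY x hx)).2.1 (x, false) (y, false) (z, false)
        ⟨hWY x hx, hWY x hx⟩ ⟨hWY x hx, hWY y hy⟩ ⟨hWY x hx, hWY z hz⟩ h1.2.2 h2.2.2⟩
    · intro x y hx hy hne
      rcases (hl (x, false) (hWY x hx)).2.2 (x, false) (y, false) ⟨hWY x hx, hWY x hx⟩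
        ⟨hWY x hx, hWY y hy⟩ (fun h => hne (congrArg Prod.fst h)) with h1 | h1
      · exact Or.inl ⟨hx, hy, h1⟩
      · exact Or.inr ⟨hy, hx, h1⟩
  refine ⟨hrow, hcol, ?_⟩
  rintro ⟨f, g, _, hg, hC⟩
  obtain ⟨x', _, hx', _, _, _⟩ := hC 0 0
  have hall : ∀ j, ∃ y', Nxt Y (colOrd M lt X Y τ) (g j) y' ∧
      (¬ (M (f 0) (g j) ↔ M (f 0) y') ∨ ¬ (M x' (g j) ↔ M x' y')) := by
    intro j
    obtain ⟨x'', y', h1, h2, _, h4⟩ := hC 0 j
    have h5 : x'' = x' := nxt_unique hrow h1 hx'
    subst h5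
    refine ⟨y', h2, ?_⟩
    by_contra hcon
    rw [not_or, not_not, not_not] at hcon
    apply h4
    have hX := h1.1
    have hX' := h1.2.1
    have hY := h2.1
    have hY' := h2.2.1
    simp only [hX, hX', hY, hY', true_and]
    exact hcon
  set s1 : Finset (Fin (4 * τ.length + 1)) := Finset.univ.filter fun j =>
    ∃ y', Nxt Y (colOrd M lt X Y τ) (g j) y' ∧ ¬ (M (f 0) (g j) ↔ M (f 0) y') with hs1
  set s2 : Finset (Fin (4 * τ.length + 1)) := Finset.univ.filter fun j =>
    ∃ y', Nxt Y (colOrd M lt X Y τ) (g j) y' ∧ ¬ (M x' (g j) ↔ M x' y') with hs2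
  have hc1 : s1.card ≤ 2 * τ.length :=
    row_le M lt hlt X Y τ h (f 0) hx'.1 g hg s1 fun j hj => (Finset.mem_filter.1 hj).2
  have hc2 : s2.card ≤ 2 * τ.length :=
    row_le M lt hlt X Y τ h x' hx'.2.1 g hg s2 fun j hj => (Finset.mem_filter.1 hj).2
  have hsub : (Finset.univ : Finset (Fin (4 * τ.length + 1))) ⊆ s1 ∪ s2 := by
    intro j _
    obtain ⟨y', h1, h2⟩ := hall j
    rw [Finset.mem_union, hs1, hs2, Finset.mem_filter, Finset.mem_filter]
    rcases h2 with h2 | h2
    · exact Or.inl ⟨Finset.mem_univ _, y', h1, h2⟩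
    · exact Or.inr ⟨Finset.mem_univ _, y', h1, h2⟩
  have h1 := Finset.card_le_card hsub
  have h2 := Finset.card_union_le s1 s2
  rw [Finset.card_univ, Fintype.card_fin] at h1
  omega

theorem bicliqueFree_mono {V : Type} {t t' : ℕ} (htt : t ≤ t') {P : V → V → Prop}
    (h : BicliqueFree t P) : BicliqueFree t' P := by
  rintro ⟨f, g, hf, hg, hP⟩
  exact h ⟨fun i => f (Fin.castLE htt i), fun i => g (Fin.castLE htt i),
    hf.comp (Fin.castLE_injective htt), hg.comp (Fin.castLE_injective htt), fun i j => hP _ _⟩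

end L

end P1346e8
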