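import Pool.Agent.Lib.P1346L.TDGraph
import Pool.Agent.Lib.P1346L.VOrd
import Pool.Agent.Lib.P1346L.VDef
import Pool.Agent.Lib.P1346e8.Main

/-!
# Q1 for classes of ordered graphs whose reducts have bounded linear rank-width
-/

set_option autoImplicit false

namespace P1346e8

namespace L

/-- Classes which admit, after a colouring, decompositions of the blocks by fixed lists of rules. -/
theorem final_td (C : Set Str) (hC : ∀ A ∈ C, A.IsOrderedGraph) {Col : Type} [Finite Col]
    (τ : Col → Col → List Rule)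
    (h : ∀ A ∈ C, ∃ κ : A.V → Col, ∀ α β,
        TD (Z := A.V × Bool) Prod.snd (fun u v => A.r 0 u.1 v.1) (τ α β)
          (fun z => κ z.1 = if z.2 = true then α else β)) :
    ∃ P : Set Str, IsPermClass P ∧ IsTransductionOf C P ∧ IsTransductionOf P C := by
  classical
  choose κ hκ using fun i : C => h i.1 i.2
  have : Fintype (Col × Col) := Fintype.ofFinite _
  let en : Fin (Fintype.card (Col × Col)) ≃ Col × Col := (Fintype.equivFin _).symm
  let U : (i : C) → Col → i.1.V → Prop := fun i γ v => κ i v = γ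
  have hV : ∀ i : C, Finite i.1.V := fun i => i.1.fin
  have hvord := fun (i : C) (j : Fin (Fintype.card (Col × Col))) =>
    vord (V := i.1.V) (i.1.r 0) (i.1.r 1) (hC i.1 i.2).2.2 (U i (en j).1) (U i (en j).2)
      (τ (en j).1 (en j).2) ((hκ i (en j).1 (en j).2).mono fun z hz => by
        unfold W0 at hz
        split_ifs at hz with h0
        · rw [if_pos h0]; exact hz
        · rw [if_neg h0]; exact hz)
  let t : ℕ := Finset.univ.sup fun j : Fin (Fintype.card (Col × Col)) =>
    4 * (τ (en j).1 (en j).2).length + 1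
  have hU : ∀ γ, (baseFam (fun i : C => i.1) U).Def1 (fun i => U i γ) := fun γ =>
    Fam.Def.un (baseFam (fun i : C => i.1) U) γ 0
  have hr : ∀ b, (baseFam (fun i : C => i.1) U).Def2 (fun i => i.1.r b) := fun b =>
    Fam.Def.bin (baseFam (fun i : C => i.1) U) b 0 1
  refine main_fam C hC (υ := Col) U (fun j => (en j).1) (fun j => (en j).2)
    (fun j i => rowOrd (i.1.r 0) (i.1.r 1) (U i (en j).1) (U i (en j).2) (τ (en j).1 (en j).2))
    (fun j i => colOrd (i.1.r 0) (i.1.r 1) (U i (en j).1) (U i (en j).2) (τ (en j).1 (en j).2))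
    (fun j i x y => U i (en j).1 x ∧ U i (en j).2 y ∧ i.1.r 0 x y)
    (fun j i x y h => ⟨h.1, h.2.1⟩) (fun j i x y h => ⟨h.1, h.2.1⟩) (fun j i x y h => ⟨h.1, h.2.1⟩)
    (fun j i => (hvord i j).1) (fun j i => (hvord i j).2.1) ?_ ?_ ?_ t ?_ ?_
  · intro j
    exact def2_rowOrd (baseFam (fun i : C => i.1) U) _ _ _ _ (hr 0) (hr 1) (hU _) (hU _) _
  · intro j
    exact def2_colOrd (baseFam (fun i : C => i.1) U) _ _ _ _ (hr 0) (hr 1) (hU _) (hU _) _
  · intro j
    exact Fam.Def.and (Fam.Def.un (baseFam (fun i : C => i.1) U) _ 0)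
      (Fam.Def.and (Fam.Def.un (baseFam (fun i : C => i.1) U) _ 1) (hr 0))
  · intro j i
    refine bicliqueFree_mono ?_ (hvord i j).2.2
    exact Finset.le_sup (f := fun j : Fin (Fintype.card (Col × Col)) =>
      4 * (τ (en j).1 (en j).2).length + 1) (Finset.mem_univ j)
  · have h1 := Fam.Def.exFin (F := Asm.relFam C U fun j i x y =>
        U i (en j).1 x ∧ U i (en j).2 y ∧ i.1.r 0 x y) (n := 2)
      (α := Fin (Fintype.card (Col × Col)))
      (Q := fun j i v => (Asm.relFam C U fun j i x y =>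
        U i (en j).1 x ∧ U i (en j).2 y ∧ i.1.r 0 x y).R i (some j) (v 0) (v 1)) (by omega)
      fun j => Fam.Def.bin _ _ _ _
    refine h1.congr fun i v => ?_
    constructor
    · intro h0
      refine ⟨en.symm (κ i (v 0), κ i (v 1)), ?_⟩
      change (κ i (v 0) = _ ∧ κ i (v 1) = _ ∧ i.1.r 0 (v 0) (v 1))
      rw [Equiv.apply_symm_apply]
      exact ⟨rfl, rfl, h0⟩
    · rintro ⟨j, hj⟩
      exact hj.2.2

theorem final_lin (C : Set Str) (hC : ∀ A ∈ C, A.IsOrderedGraph) (k : ℕ)
    (h : ∀ A ∈ C, LinRankWidthLE k (A.r 0)) :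
    ∃ P : Set Str, IsPermClass P ∧ IsTransductionOf C P ∧ IsTransductionOf P C := by
  obtain ⟨Col, hCol, τ, hτ⟩ := td_graph k
  exact final_td C hC τ fun A hA => hτ A.V A.fin (A.r 0) (hC A hA).1 (hC A hA).2.1 (h A hA)

end L

end P1346e8
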