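import Pool.Agent.Lib.P1346L.LvlOrd

/-!
# MODULE LamLin: the lexicographic order is a strict linear order (about 1.2 h)

STATEMENT. `Lam side M lt τ q` is a strict linear order on every class of `q`.

PROOF. Induction on `τ` (for all `W`, `q`).  `[]`: `q u v ∧ lt u v` on a class of `q`.  `ρ :: τ`: let
`q' = nxt side M ρ q`; by `nxt_eqOn` an equivalence relation on `W`, its classes are decomposable by `τ`
(`nxt_td`), so by induction `Lam τ q'` is a strict linear order on every class of `q'`; moreover
`Lam τ q' u v` implies `q' u v` (small induction: `lam_dom`).  So for `q u v`: if `q' u v` then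
`Lam (ρ :: τ) q u v ↔ Lam τ q' u v`; if not then `Lam (ρ :: τ) q u v ↔ LtL u v`.  Irreflexive and total:
clear (`ltL_total`).  Transitive: cases according to whether `q' u v`, `q' v w`: both: then `q' u w`,
induction; one of them: `LtL` is invariant (`ltL_inv`); none: `ltL_trans`.
-/

set_option autoImplicit false

namespace P1346e8

namespace L

variable {Z : Type} [Finite Z] {side : Z → Bool} {M lt : Z → Z → Prop} {W : Z → Prop}

theorem lam_dom (τ : List Rule) (q : Z → Z → Prop) (hq : EqOn W q)
    (hTD : ∀ u, W u → TD side M τ (q u)) (u v : Z) (h : Lam side M lt τ q u v) : q u v := by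
  induction τ generalizing q with
  | nil => exact h.1
  | cons ρ τ ih =>
    have hTD' : ∀ u, W u → ∃ τ, TD side M τ (q u) := fun u hu => ⟨ρ :: τ, hTD u hu⟩
    rcases h with h | h
    · exact h.1
    · exact nxt_le hq ρ u v (ih (nxt side M ρ q) (nxt_eqOn hq hTD' ρ)
        (fun w hw => nxt_td hq ρ τ w hw (hTD w hw)) h)

theorem lam_lin (hlt : StrictLin W lt) (τ : List Rule) (q : Z → Z → Prop) (hq : EqOn W q)
    (hTD : ∀ u, W u → TD side M τ (q u)) (x : Z) (hx : W x) :
    StrictLin (q x) (Lam side M lt τ q) := by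
  induction τ generalizing q x with
  | nil =>
    refine ⟨fun y hy h => ?_, fun y z t hy hz ht h1 h2 => ?_, fun y z hy hz hne => ?_⟩
    · exact hlt.1 y (hq.dom x y hy).2 h.2
    · exact ⟨hq.trans y z t h1.1 h2.1, hlt.2.1 y z t (hq.dom x y hy).2 (hq.dom x z hz).2
        (hq.dom x t ht).2 h1.2 h2.2⟩
    · have hyz : q y z := hq.trans y x z (hq.symm x y hy) hz
      rcases hlt.2.2 y z (hq.dom x y hy).2 (hq.dom x z hz).2 hne with h | h
      · exact Or.inl ⟨hyz, h⟩
      · exact Or.inr ⟨hq.symm y z hyz, h⟩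
  | cons ρ τ ih =>
    have hTD' : ∀ u, W u → ∃ τ, TD side M τ (q u) := fun u hu => ⟨ρ :: τ, hTD u hu⟩
    have hq' : EqOn W (nxt side M ρ q) := nxt_eqOn hq hTD' ρ
    have hT : ∀ u, W u → TD side M τ (nxt side M ρ q u) :=
      fun w hw => nxt_td hq ρ τ w hw (hTD w hw)
    have IH := fun y hy => ih (nxt side M ρ q) hq' hT y hy
    have hdom : ∀ u v, Lam side M lt τ (nxt side M ρ q) u v → nxt side M ρ q u v :=
      fun u v h => lam_dom τ _ hq' hT u v h
    refine ⟨fun y hy h => ?_, fun y z t hy hz ht h1 h2 => ?_, fun y z hy hz hne => ?_⟩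
    · have hWy := (hq.dom x y hy).2
      rcases h with h | h
      · exact h.2.1 (hq'.refl y hWy)
      · exact (IH y hWy).1 y (hq'.refl y hWy) h
    · have hWy := (hq.dom x y hy).2
      have hWz := (hq.dom x z hz).2
      have hWt := (hq.dom x t ht).2
      have hyt : q y t := hq.trans y x t (hq.symm x y hy) ht
      rcases h1 with h1 | h1
      · rcases h2 with h2 | h2
        · obtain ⟨h3, h4⟩ := ltL_trans hq hTD' hlt ρ y z t h1.1 h2.1 h1.2.1 h2.2.1 h1.2.2 h2.2.2
          exact Or.inl ⟨hyt, h3, h4⟩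
        · have hzt := hdom z t h2
          refine Or.inl ⟨hyt, fun h3 => ?_, ?_⟩
          · exact h1.2.1 (hq'.trans y t z h3 (hq'.symm z t hzt))
          · exact ltL_inv hq hTD' hlt ρ y z y t h1.1 h1.2.1 (hq'.refl y hWy) hzt h1.2.2
      · have hyz := hdom y z h1
        rcases h2 with h2 | h2
        · refine Or.inl ⟨hyt, fun h3 => ?_, ?_⟩
          · exact h2.2.1 (hq'.trans z y t (hq'.symm y z hyz) h3)
          · exact ltL_inv hq hTD' hlt ρ z t y t h2.1 h2.2.1 (hq'.symm y z hyz) (hq'.refl t hWt)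
              h2.2.2
        · have hzt := hdom z t h2
          exact Or.inr ((IH y hWy).2.1 y z t (hq'.refl y hWy) hyz (hq'.trans y z t hyz hzt) h1 h2)
    · have hWy := (hq.dom x y hy).2
      have hyz : q y z := hq.trans y x z (hq.symm x y hy) hz
      by_cases h : nxt side M ρ q y z
      · rcases (IH y hWy).2.2 y z (hq'.refl y hWy) h hne with h1 | h1
        · exact Or.inl (Or.inr h1)
        · exact Or.inr (Or.inr h1)
      · rcases ltL_total hq hTD' hlt ρ y z hyz h with h1 | h1
        · exact Or.inl (Or.inl ⟨hyz, h, h1⟩)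
        · exact Or.inr (Or.inl ⟨hq.symm y z hyz, fun h2 => h (hq'.symm z y h2), h1⟩)

end L

end P1346e8
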