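import Pool.Agent.Lib.P1346L.Defs

/-!
# Bounded cut rank gives few classes

If the rank of the cut after `x` is at most `k` then there is a map `cl : V → Fin (2 ^ k)` such that
`u, u' ≤ x` have the same value iff they have the same neighbours after `x`.
-/

set_option autoImplicit false

namespace P1346e8

namespace L

open Classical in
theorem rank_cls {V : Type} [Finite V] (E r : V → V → Prop) (k : ℕ) (x : V)
    (h : cutRank E r x ≤ k) : ∃ cl : V → Fin (2 ^ k), ∀ u u', (u = x ∨ r u x) →
      (u' = x ∨ r u' x) → (cl u = cl u' ↔ ∀ y, r x y → (E u y ↔ E u' y)) := by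
  haveI : Fact (Nat.Prime 2) := ⟨Nat.prime_two⟩
  let row : {u : V // u = x ∨ r u x} → ({y : V // r x y} → ZMod 2) :=
    fun u y => if E u.1 y.1 then (1 : ZMod 2) else 0
  let P : Submodule (ZMod 2) ({y : V // r x y} → ZMod 2) :=
    Submodule.span (ZMod 2) (Set.range row)
  have hP : Module.finrank (ZMod 2) P ≤ k := h
  haveI : Finite ({y : V // r x y} → ZMod 2) := Pi.finite
  haveI : Finite P := Subtype.finite
  have hc : Nat.card P = 2 ^ Module.finrank (ZMod 2) P := by
    have h1 := Module.natCard_eq_pow_finrank (K := ZMod 2) (V := P)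
    rwa [Nat.card_zmod] at h1
  have hle : Nat.card P ≤ 2 ^ k := by
    rw [hc]
    exact Nat.pow_le_pow_right (by norm_num) hP
  let emb : P → Fin (2 ^ k) := fun p => Fin.castLE hle (Finite.equivFin P p)
  have hemb : Function.Injective emb := by
    intro p q hpq
    exact (Finite.equivFin P).injective (Fin.castLE_injective hle hpq)
  let rw' : {u : V // u = x ∨ r u x} → P := fun u =>
    ⟨row u, Submodule.subset_span (Set.mem_range_self u)⟩
  refine ⟨fun u => if hu : u = x ∨ r u x then emb (rw' ⟨u, hu⟩) else ⟨0, by positivity⟩, ?_⟩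
  intro u u' hu hu'
  simp only [dif_pos hu, dif_pos hu']
  rw [hemb.eq_iff, Subtype.ext_iff]
  change row ⟨u, hu⟩ = row ⟨u', hu'⟩ ↔ _
  constructor
  · intro he y hy
    have h1 := congrFun he ⟨y, hy⟩
    simp only [row] at h1
    by_cases h2 : E u y <;> by_cases h3 : E u' y <;> simp_all
  · intro he
    funext y
    simp only [row]
    have := he y.1 y.2
    by_cases h2 : E u y.1
    · rw [if_pos h2, if_pos (this.1 h2)]
    · rw [if_neg h2, if_neg (fun h3 => h2 (this.2 h3))]

end L

end P1346e8
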