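import Pool.Agent.Lib.P1346L.Sep

/-!
# MODULE Reach: short paths (about 2.2 h)

STATEMENT. Let `W` have a split `Sep`, and suppose that for the rule `ρ` any two elements of `W` are
joined by a path inside `W` (of any length).  Then any two elements are joined by a path of length at
most 6 inside `W`.

Here `Pth side M ρ (fun a b => W a ∧ W b) n u v`: path of length at most `n` from `u` to `v` in `W`, the
arcs being `D side M ρ`.

PROOF. Write `X`/`Y` for the rows (`side = true`) / columns of `W`, `X_L, Y_L` for those in `L`,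
`X_R, Y_R` for those not in `L`; `p` the value of the entries `X_L x Y_R`, `q` the value of `X_R x Y_L`.
As `L` and `R` are non-empty and `W` is strongly connected, every element has an arc out of it and an arc
into it, there is an arc from `L` to `R` and one from `R` to `L` (take a path from an element of `L` to one
of `R` and look at the first arc that leaves `L`).
Rule `par` (arcs = entries true, symmetric).  An arc between `L` and `R` shows `p` or `q` is true; by
symmetry (exchange `L` and `R`, which exchanges `p` and `q`) let `p` be true: `X_L x Y_R` complete.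
  - `q` false: the crossing arc joins `X_L` and `Y_R`, so both are non-empty; every element of `Y_L` has a
    neighbour, which must be in `X_L`; every element of `X_R` has a neighbour, which must be in `Y_R`.
    So from any `u` one gets by at most one step into the complete bipartite `K = X_L ∪ Y_R`, inside `K`
    by at most 2 steps anywhere, and by one more step to any `v`: length at most 4.
  - `q` true: both `K1 = X_L ∪ Y_R` and `K2 = X_R ∪ Y_L` are complete bipartite.  If `X_L` is empty:
    `L = Y_L` is non-empty, all rows are in `X_R`, not empty (else no arcs at all); every row is adjacent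
    to all of `Y_L`; every column has a neighbour row; so any two elements are at distance at most 4
    (column - row - Y_L - row - column).  Similarly if `Y_L`, `X_R` or `Y_R` is empty.  If all four are
    non-empty: there is an arc between `K1` and `K2` (strong connectivity), and in `K1`, `K2` distances are
    at most 2: total at most 5.
Rule `ser`: the same with `¬ M` in place of `M` (one can deduce it from the case `par` for `¬ M`).
Rule `ord`: arcs row `x` -> column `y` if `M x y`, column `y` -> row `x` if `¬ M x y`.  `p` true: arcs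
`X_L -> Y_R`; `p` false: `Y_R -> X_L`; `q` true: `X_R -> Y_L`; `q` false: `Y_L -> X_R`.  If `p`, `¬ q` all
arcs between `L` and `R` go from `L` to `R`; if `¬ p`, `q` all go from `R` to `L`: impossible.
  - `p`, `q` true: rows have arcs to all columns of the other part; a column has no arc into the other
    part, but has some arc out, so to a row of its own part; a row has no arc from the other part, but has
    some arc in, from a column of its own part.  So in each of `L`, `R` there are rows and columns (each
    part is non-empty).  From any row of `L`: 1 step to any column of `R`; then 1 step to some row of `R`,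
    1 step to any column of `L`.  So any column is reached from any row by at most 3 steps, from any column
    by at most 4, and any row by one more step (through a column with an arc to it): at most 5.
  - `p`, `q` false: the same with all arcs reversed: columns have arcs to all rows of the other part, etc.
(`Pth.mono` pads to 6.  A lemma composing paths, `Pth m u v -> Pth n v w -> Pth (m+n) u w`, is useful.)
-/

set_option autoImplicit false

namespace P1346e8

namespace L

variable {Z : Type}

theorem Pth.trans {side : Z → Bool} {M : Z → Z → Prop} {ρ : Rule} {q : Z → Z → Prop} {m n : ℕ}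
    {u v w : Z} (h : Pth side M ρ q m u v) (h' : Pth side M ρ q n v w) (hq : ∀ a b c, q a b →
      q b c → q a c) : Pth side M ρ q (m + n) u w := by
  induction n generalizing w with
  | zero =>
    obtain ⟨_, rfl⟩ := h'
    exact h
  | succ n ih =>
    rcases h' with h' | ⟨x, h1, h2, h3⟩
    · exact Or.inl (ih h')
    · exact Or.inr ⟨x, ih h1, h2, h3⟩

namespace ReachAux

/-- Abstract paths. -/
structure PA (W : Z → Prop) (A : Z → Z → Prop) (P : ℕ → Z → Z → Prop) : Prop where
  p0 : ∀ u, W u → P 0 u u
  p1 : ∀ u v, W u → W v → A u v → P 1 u v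
  pt : ∀ m n u v w, P m u v → P n v w → P (m + n) u w
  pm : ∀ m n u v, m ≤ n → P m u v → P n u v
  cr : ∀ K : Z → Prop, (∃ u, W u ∧ K u) → (∃ u, W u ∧ ¬ K u) →
    ∃ a b, W a ∧ W b ∧ K a ∧ ¬ K b ∧ A a b

variable {W : Z → Prop} {A : Z → Z → Prop} {P : ℕ → Z → Z → Prop}

theorem PA.out (h : PA W A P) {u : Z} (hu : W u) (hne : ∃ v, W v ∧ v ≠ u) : ∃ v, W v ∧ A u v := by
  obtain ⟨a, b, ha, hb, h1, h2, h3⟩ := h.cr (fun z => z = u) ⟨u, hu, rfl⟩ hne
  exact ⟨b, hb, h1 ▸ h3⟩

theorem PA.inn (h : PA W A P) {u : Z} (hu : W u) (hne : ∃ v, W v ∧ v ≠ u) : ∃ v, W v ∧ A v u := by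
  obtain ⟨a, b, ha, hb, h1, h2, h3⟩ := h.cr (fun z => z ≠ u) hne ⟨u, hu, fun h => h rfl⟩
  have h4 : b = u := not_not.1 h2
  exact ⟨a, ha, h4 ▸ h3⟩

theorem ne_of_split {L : Z → Prop} (hL : ∃ u, W u ∧ L u) (hR : ∃ u, W u ∧ ¬ L u) (u : Z) :
    ∃ v, W v ∧ v ≠ u := by
  obtain ⟨a, ha, hla⟩ := hL
  obtain ⟨b, hb, hlb⟩ := hR
  by_cases h : L u
  · exact ⟨b, hb, fun e => hlb (e ▸ h)⟩
  · exact ⟨a, ha, fun e => h (e ▸ hla)⟩

/-- a vertex adjacent to the whole other side -/
theorem star (h : PA W A P) (side : Z → Bool) (hs : ∀ u v, A u v → side u ≠ side v)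
    (hsym : ∀ u v, W u → W v → A u v → A v u) (hne : ∀ u : Z, ∃ v, W v ∧ v ≠ u) {c : Z} (hc : W c)
    (hall : ∀ u, W u → side u ≠ side c → A u c) : ∀ u v, W u → W v → P 6 u v := by
  have key : ∀ u, W u → P 2 u c := by
    intro u hu
    by_cases h1 : side u = side c
    · obtain ⟨w, hw, hA⟩ := h.out hu (hne u)
      have h2 : side w ≠ side c := by
        intro e
        exact hs u w hA (h1.trans e.symm)
      exact h.pt 1 1 u w c (h.p1 u w hu hw hA) (h.p1 w c hw hc (hall w hw h2))
    · exact h.pm 1 2 u c (by norm_num) (h.p1 u c hu hc (hall u hu h1))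
  have key' : ∀ u, W u → P 2 c u := by
    intro u hu
    by_cases h1 : side u = side c
    · obtain ⟨w, hw, hA⟩ := h.out hu (hne u)
      have h2 : side w ≠ side c := by
        intro e
        exact hs u w hA (h1.trans e.symm)
      exact h.pt 1 1 c w u (h.p1 c w hc hw (hsym w c hw hc (hall w hw h2)))
        (h.p1 w u hw hu (hsym u w hu hw hA))
    · exact h.pm 1 2 c u (by norm_num) (h.p1 c u hc hu (hsym u c hu hc (hall u hu h1)))
  intro u v hu hv
  exact h.pm 4 6 u v (by norm_num) (h.pt 2 2 u c v (key u hu) (key' v hv))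

theorem sym_case (h : PA W A P) (side : Z → Bool) (hs : ∀ u v, A u v → side u ≠ side v)
    (hsym : ∀ u v, W u → W v → A u v → A v u) (L : Z → Prop) (hL : ∃ u, W u ∧ L u)
    (hR : ∃ u, W u ∧ ¬ L u)
    (hp : ∀ u v, W u → W v → L u → ¬ L v → side u = true → side v = false → A u v) (q : Prop)
    (hq : ∀ u v, W u → W v → L u → ¬ L v → side u = false → side v = true → (A u v ↔ q)) :
    ∀ u v, W u → W v → P 6 u v := by
  have hne := fun u => ne_of_split hL hR u
  -- distances in the complete bipartite graph X_L, Y_R
  have hK1 : ∀ a b, W a → W b → side a = true → L a → side b = false → ¬ L b →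
      ∀ u v, W u → W v → ((side u = true ∧ L u) ∨ (side u = false ∧ ¬ L u)) →
        ((side v = true ∧ L v) ∨ (side v = false ∧ ¬ L v)) → P 2 u v := by
    intro a b ha hb sa la sb lb u v hu hv hu' hv'
    rcases hu' with ⟨su, lu⟩ | ⟨su, lu⟩ <;> rcases hv' with ⟨sv, lv⟩ | ⟨sv, lv⟩
    · exact h.pt 1 1 u b v (h.p1 _ _ hu hb (hp u b hu hb lu lb su sb))
        (h.p1 _ _ hb hv (hsym _ _ hv hb (hp v b hv hb lv lb sv sb)))
    · exact h.pm 1 2 u v (by norm_num) (h.p1 _ _ hu hv (hp u v hu hv lu lv su sv))
    · exact h.pm 1 2 u v (by norm_num) (h.p1 _ _ hu hv (hsym _ _ hv hu (hp v u hv hu lv lu sv su)))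
    · exact h.pt 1 1 u a v (h.p1 _ _ hu ha (hsym _ _ ha hu (hp a u ha hu la lu sa su)))
        (h.p1 _ _ ha hv (hp a v ha hv la lv sa sv))
  by_cases hqt : q
  · -- both complete
    have hq' : ∀ u v, W u → W v → L u → ¬ L v → side u = false → side v = true → A u v :=
      fun u v hu hv lu lv su sv => (hq u v hu hv lu lv su sv).2 hqt
    by_cases e1 : ∃ a, W a ∧ side a = true ∧ L a
    swap
    · obtain ⟨c, hc, lc⟩ := hL
      have sc : side c = false := by
        cases hsc : side c
        · rfl
        · exact absurd ⟨c, hc, hsc, lc⟩ e1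
      refine star h side hs hsym hne hc fun u hu hsu => ?_
      have su : side u = true := by
        cases hsu' : side u
        · exact absurd (hsu'.trans sc.symm) hsu
        · rfl
      have lu : ¬ L u := fun hlu => e1 ⟨u, hu, su, hlu⟩
      exact hsym _ _ hc hu (hq' c u hc hu lc lu sc su)
    by_cases e2 : ∃ a, W a ∧ side a = false ∧ L a
    swap
    · obtain ⟨c, hc, lc⟩ := hL
      have sc : side c = true := by
        cases hsc : side c
        · exact absurd ⟨c, hc, hsc, lc⟩ e2
        · rfl
      refine star h side hs hsym hne hc fun u hu hsu => ?_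
      have su : side u = false := by
        cases hsu' : side u
        · rfl
        · exact absurd (hsu'.trans sc.symm) hsu
      have lu : ¬ L u := fun hlu => e2 ⟨u, hu, su, hlu⟩
      exact hsym _ _ hc hu (hp c u hc hu lc lu sc su)
    by_cases e3 : ∃ a, W a ∧ side a = true ∧ ¬ L a
    swap
    · obtain ⟨c, hc, lc⟩ := hR
      have sc : side c = false := by
        cases hsc : side c
        · rfl
        · exact absurd ⟨c, hc, hsc, lc⟩ e3
      refine star h side hs hsym hne hc fun u hu hsu => ?_
      have su : side u = true := by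
        cases hsu' : side u
        · exact absurd (hsu'.trans sc.symm) hsu
        · rfl
      have lu : L u := by
        by_contra hlu
        exact e3 ⟨u, hu, su, hlu⟩
      exact hp u c hu hc lu lc su sc
    by_cases e4 : ∃ a, W a ∧ side a = false ∧ ¬ L a
    swap
    · obtain ⟨c, hc, lc⟩ := hR
      have sc : side c = true := by
        cases hsc : side c
        · exact absurd ⟨c, hc, hsc, lc⟩ e4
        · rfl
      refine star h side hs hsym hne hc fun u hu hsu => ?_
      have su : side u = false := by
        cases hsu' : side u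
        · rfl
        · exact absurd (hsu'.trans sc.symm) hsu
      have lu : L u := by
        by_contra hlu
        exact e4 ⟨u, hu, su, hlu⟩
      exact hq' u c hu hc lu lc su sc
    obtain ⟨xl, hxl, sxl, lxl⟩ := e1
    obtain ⟨yl, hyl, syl, lyl⟩ := e2
    obtain ⟨xr, hxr, sxr, lxr⟩ := e3
    obtain ⟨yr, hyr, syr, lyr⟩ := e4
    have d1 := hK1 xl yr hxl hyr sxl lxl syr lyr
    -- distances in the complete bipartite graph X_R, Y_L
    have d2 : ∀ u v, W u → W v → ((side u = true ∧ ¬ L u) ∨ (side u = false ∧ L u)) →
        ((side v = true ∧ ¬ L v) ∨ (side v = false ∧ L v)) → P 2 u v := by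
      intro u v hu hv hu' hv'
      rcases hu' with ⟨su, lu⟩ | ⟨su, lu⟩ <;> rcases hv' with ⟨sv, lv⟩ | ⟨sv, lv⟩
      · exact h.pt 1 1 u yl v (h.p1 _ _ hu hyl (hsym _ _ hyl hu (hq' yl u hyl hu lyl lu syl su)))
          (h.p1 _ _ hyl hv (hq' yl v hyl hv lyl lv syl sv))
      · exact h.pm 1 2 u v (by norm_num) (h.p1 _ _ hu hv (hsym _ _ hv hu (hq' v u hv hu lv lu sv su)))
      · exact h.pm 1 2 u v (by norm_num) (h.p1 _ _ hu hv (hq' u v hu hv lu lv su sv))
      · exact h.pt 1 1 u xr v (h.p1 _ _ hu hxr (hq' u xr hu hxr lu lxr su sxr))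
          (h.p1 _ _ hxr hv (hsym _ _ hv hxr (hq' v xr hv hxr lv lxr sv sxr)))
    have dich : ∀ u, ((side u = true ∧ L u) ∨ (side u = false ∧ ¬ L u)) ∨
        ((side u = true ∧ ¬ L u) ∨ (side u = false ∧ L u)) := by
      intro u
      by_cases hl : L u <;> cases hsu : side u <;> simp [hl]
    obtain ⟨a, b, ha, hb, ka, kb, hab⟩ := h.cr
      (fun z => (side z = true ∧ L z) ∨ (side z = false ∧ ¬ L z)) ⟨xl, hxl, Or.inl ⟨sxl, lxl⟩⟩
      ⟨xr, hxr, by
        rintro (⟨_, h2⟩ | ⟨h1, _⟩)
        · exact lxr h2
        · rw [sxr] at h1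
          exact Bool.false_ne_true h1.symm⟩
    have kb' : (side b = true ∧ ¬ L b) ∨ (side b = false ∧ L b) := (dich b).resolve_left kb
    intro u v hu hv
    rcases dich u with du | du <;> rcases dich v with dv | dv
    · exact h.pm 2 6 u v (by norm_num) (d1 u v hu hv du dv)
    · have h1 := h.pt 2 1 u a b (d1 u a hu ha du ka) (h.p1 _ _ ha hb hab)
      exact h.pm 5 6 u v (by norm_num) (h.pt 3 2 u b v h1 (d2 b v hb hv kb' dv))
    · have h1 := h.pt 2 1 u b a (d2 u b hu hb du kb') (h.p1 _ _ hb ha (hsym _ _ ha hb hab))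
      exact h.pm 5 6 u v (by norm_num) (h.pt 3 2 u a v h1 (d1 a v ha hv ka dv))
    · exact h.pm 2 6 u v (by norm_num) (d2 u v hu hv du dv)
  · -- only X_L, Y_R complete
    have hnq : ∀ u v, W u → W v → L u → ¬ L v → side u = false → side v = true → ¬ A u v :=
      fun u v hu hv lu lv su sv hA => hqt ((hq u v hu hv lu lv su sv).1 hA)
    obtain ⟨a, b, ha, hb, la, lb, hab⟩ := h.cr L hL hR
    have hsab := hs a b hab
    have sa : side a = true := by
      cases hsa : side a
      · cases hsb : side b
        · exact absurd (hsa.trans hsb.symm) hsab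
        · exact absurd hab (hnq a b ha hb la lb hsa hsb)
      · rfl
    have sb : side b = false := by
      cases hsb : side b
      · rfl
      · exact absurd (sa.trans hsb.symm) hsab
    have d1 := hK1 a b ha hb sa la sb lb
    have near : ∀ u, W u → ∃ c, W c ∧ ((side c = true ∧ L c) ∨ (side c = false ∧ ¬ L c)) ∧
        P 1 u c ∧ P 1 c u := by
      intro u hu
      by_cases hk : (side u = true ∧ L u) ∨ (side u = false ∧ ¬ L u)
      · exact ⟨u, hu, hk, h.pm 0 1 _ _ (by norm_num) (h.p0 u hu),
          h.pm 0 1 _ _ (by norm_num) (h.p0 u hu)⟩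
      · obtain ⟨c, hc, hA⟩ := h.out hu (hne u)
        refine ⟨c, hc, ?_, h.p1 _ _ hu hc hA, h.p1 _ _ hc hu (hsym _ _ hu hc hA)⟩
        have hsc := hs u c hA
        cases su : side u
        · have sc : side c = true := by
            cases hsc' : side c
            · exact absurd (su.trans hsc'.symm) hsc
            · rfl
          have lu : L u := by
            by_contra hl
            exact hk (Or.inr ⟨su, hl⟩)
          left
          refine ⟨sc, ?_⟩
          by_contra lc
          exact hnq u c hu hc lu lc su sc hA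
        · have sc : side c = false := by
            cases hsc' : side c
            · rfl
            · exact absurd (su.trans hsc'.symm) hsc
          have lu : ¬ L u := fun hl => hk (Or.inl ⟨su, hl⟩)
          right
          refine ⟨sc, fun lc => ?_⟩
          exact hnq c u hc hu lc lu sc su (hsym _ _ hu hc hA)
    intro u v hu hv
    obtain ⟨c, hc, kc, h1, _⟩ := near u hu
    obtain ⟨c', hc', kc', _, h2⟩ := near v hv
    have h3 := h.pt 1 2 u c c' h1 (d1 c c' hc hc' kc kc')
    exact h.pm 4 6 u v (by norm_num) (h.pt 3 1 u c' v h3 h2)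

theorem sym_main (h : PA W A P) (side : Z → Bool) (hs : ∀ u v, A u v → side u ≠ side v)
    (hsym : ∀ u v, W u → W v → A u v → A v u) (L : Z → Prop) (hL : ∃ u, W u ∧ L u)
    (hR : ∃ u, W u ∧ ¬ L u) (p q : Prop)
    (hp : ∀ u v, W u → W v → L u → ¬ L v → side u = true → side v = false → (A u v ↔ p))
    (hq : ∀ u v, W u → W v → L u → ¬ L v → side u = false → side v = true → (A u v ↔ q)) :
    ∀ u v, W u → W v → P 6 u v := by
  by_cases hpt : p
  · exact sym_case h side hs hsym L hL hR
      (fun u v hu hv lu lv su sv => (hp u v hu hv lu lv su sv).2 hpt) q hq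
  · have hqt : q := by
      obtain ⟨a, b, ha, hb, la, lb, hab⟩ := h.cr L hL hR
      have hsab := hs a b hab
      cases hsa : side a
      · cases hsb : side b
        · exact absurd (hsa.trans hsb.symm) hsab
        · exact (hq a b ha hb la lb hsa hsb).1 hab
      · cases hsb : side b
        · exact absurd ((hp a b ha hb la lb hsa hsb).1 hab) hpt
        · exact absurd (hsa.trans hsb.symm) hsab
    have hsym' : ∀ u v, W u → W v → (A u v ↔ A v u) := fun u v hu hv =>
      ⟨hsym u v hu hv, hsym v u hv hu⟩
    refine sym_case h side hs hsym (fun z => ¬ L z) hR ?_ ?_ p ?_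
    · obtain ⟨u, hu, hl⟩ := hL
      exact ⟨u, hu, fun h => h hl⟩
    · intro u v hu hv lu lv su sv
      exact (hsym' u v hu hv).2 ((hq v u hv hu (not_not.1 lv) lu sv su).2 hqt)
    · intro u v hu hv lu lv su sv
      exact (hsym' u v hu hv).trans (hp v u hv hu (not_not.1 lv) lu sv su)

theorem ord_case (h : PA W A P) (side : Z → Bool) (hs : ∀ u v, A u v → side u ≠ side v)
    (L : Z → Prop) (hL : ∃ u, W u ∧ L u) (hR : ∃ u, W u ∧ ¬ L u) (s : Bool)
    (h1 : ∀ u v, W u → W v → side u = s → side v ≠ s → ¬ (L u ↔ L v) → A u v)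
    (h2 : ∀ u v, W u → W v → side u ≠ s → side v = s → ¬ (L u ↔ L v) → ¬ A u v) :
    ∀ u v, W u → W v → P 6 u v := by
  have hne := fun u => ne_of_split hL hR u
  have bo : ∀ {a b : Bool}, a ≠ b → b ≠ s → a = s := by
    intro a b hab hb
    cases a <;> cases b <;> cases s <;> simp_all
  have bo' : ∀ {a b : Bool}, a ≠ b → b = s → a ≠ s := by
    intro a b hab hb
    rw [← hb]
    exact hab
  -- a weak vertex has an arc to a strong vertex of its part
  have wk : ∀ u, W u → side u ≠ s → ∃ w, W w ∧ side w = s ∧ (L u ↔ L w) ∧ A u w := by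
    intro u hu su
    obtain ⟨w, hw, hA⟩ := h.out hu (hne u)
    have sw : side w = s := bo (hs u w hA).symm su
    refine ⟨w, hw, sw, ?_, hA⟩
    by_contra hl
    exact h2 u w hu hw su sw hl hA
  -- a strong vertex has an arc from a weak vertex of its part
  have st : ∀ u, W u → side u = s → ∃ w, W w ∧ side w ≠ s ∧ (L u ↔ L w) ∧ A w u := by
    intro u hu su
    obtain ⟨w, hw, hA⟩ := h.inn hu (hne u)
    have sw : side w ≠ s := bo' (hs w u hA) su
    refine ⟨w, hw, sw, ?_, hA⟩
    by_contra hl
    exact h2 w u hw hu sw su (fun e => hl e.symm) hA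
  -- both parts have weak vertices
  have wL : ∀ u, W u → ∃ w, W w ∧ side w ≠ s ∧ (L u ↔ L w) := by
    intro u hu
    by_cases su : side u = s
    · obtain ⟨w, hw, sw, hl, _⟩ := st u hu su
      exact ⟨w, hw, sw, hl⟩
    · exact ⟨u, hu, su, Iff.rfl⟩
  have other : ∀ u, W u → ∃ w, W w ∧ side w ≠ s ∧ ¬ (L u ↔ L w) := by
    intro u hu
    by_cases lu : L u
    · obtain ⟨b, hb, lb⟩ := hR
      obtain ⟨w, hw, sw, hl⟩ := wL b hb
      refine ⟨w, hw, sw, fun e => lb (hl.2 (e.1 lu))⟩
    · obtain ⟨a, ha, la⟩ := hL
      obtain ⟨w, hw, sw, hl⟩ := wL a ha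
      refine ⟨w, hw, sw, fun e => lu (e.2 (hl.1 la))⟩
  -- from a strong vertex to any weak vertex
  have sw3 : ∀ u v, W u → W v → side u = s → side v ≠ s → P 3 u v := by
    intro u v hu hv su sv
    by_cases hl : L u ↔ L v
    · obtain ⟨y, hy, sy, ly⟩ := other u hu
      obtain ⟨x, hx, sx, lx, hyx⟩ := wk y hy sy
      have a1 := h.p1 _ _ hu hy (h1 u y hu hy su sy ly)
      have a2 := h.p1 _ _ hy hx hyx
      have a3 := h.p1 _ _ hx hv (h1 x v hx hv sx sv (by
        intro e
        exact ly (hl.trans (e.symm.trans lx.symm))))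
      exact h.pt 2 1 u x v (h.pt 1 1 u y x a1 a2) a3
    · exact h.pm 1 3 u v (by norm_num) (h.p1 _ _ hu hv (h1 u v hu hv su sv hl))
  have w4 : ∀ u v, W u → W v → side v ≠ s → P 4 u v := by
    intro u v hu hv sv
    by_cases su : side u = s
    · exact h.pm 3 4 u v (by norm_num) (sw3 u v hu hv su sv)
    · obtain ⟨w, hw, sw, _, hA⟩ := wk u hu su
      exact h.pt 1 3 u w v (h.p1 _ _ hu hw hA) (sw3 w v hw hv sw sv)
  intro u v hu hv
  by_cases sv : side v = s
  · obtain ⟨w, hw, sw, _, hA⟩ := st v hv sv
    exact h.pm 5 6 u v (by norm_num) (h.pt 4 1 u w v (w4 u w hu hw sw) (h.p1 _ _ hw hv hA))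
  · exact h.pm 4 6 u v (by norm_num) (w4 u v hu hv sv)

theorem cross {side : Z → Bool} {M : Z → Z → Prop} {ρ : Rule} {n : ℕ} {u v : Z}
    (h : Pth side M ρ (fun a b => W a ∧ W b) n u v) (K : Z → Prop) (hu : K u) (hv : ¬ K v) :
    ∃ a b, W a ∧ W b ∧ K a ∧ ¬ K b ∧ D side M ρ a b := by
  induction n generalizing v with
  | zero =>
    obtain ⟨_, rfl⟩ := h
    exact absurd hu hv
  | succ n ih =>
    rcases h with h | ⟨w, h1, h2, h3⟩
    · exact ih h hv
    · by_cases hw : K w
      · exact ⟨w, v, h2.1, h2.2, hw, hv, h3⟩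
      · exact ih h1 hw

theorem pa {side : Z → Bool} {M : Z → Z → Prop} (ρ : Rule)
    (hsc : ∀ u v, W u → W v → ∃ n, Pth side M ρ (fun a b => W a ∧ W b) n u v) :
    PA W (D side M ρ) (fun n u v => Pth side M ρ (fun a b => W a ∧ W b) n u v) where
  p0 := fun u hu => ⟨⟨hu, hu⟩, rfl⟩
  p1 := fun u v hu hv hA => Or.inr ⟨u, ⟨⟨hu, hu⟩, rfl⟩, ⟨hu, hv⟩, hA⟩
  pt := fun m n u v w h h' => Pth.trans h h' (fun _ _ _ h1 h2 => ⟨h1.1, h2.2⟩)
  pm := fun m n u v hmn h => Pth.mono hmn h
  cr := by
    rintro K ⟨u, hu, ku⟩ ⟨v, hv, kv⟩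
    obtain ⟨n, hn⟩ := hsc u v hu hv
    exact cross hn K ku kv

theorem ed_row {side : Z → Bool} {M : Z → Z → Prop} {u v : Z} (h : side u = true) :
    ed side M u v ↔ M u v := by
  unfold ed
  rw [if_pos h]

theorem ed_col {side : Z → Bool} {M : Z → Z → Prop} {u v : Z} (h : side u = false) :
    ed side M u v ↔ M v u := by
  unfold ed
  rw [if_neg (by rw [h]; exact Bool.false_ne_true)]

theorem ne1 {side : Z → Bool} {u v : Z} (hu : side u = true) (hv : side v = false) :
    side u ≠ side v := by
  rw [hu, hv]
  decide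

theorem ne2 {side : Z → Bool} {u v : Z} (hu : side u = false) (hv : side v = true) :
    side u ≠ side v := by
  rw [hu, hv]
  decide

theorem D_row {side : Z → Bool} {M : Z → Z → Prop} {u v : Z} (hu : side u = true)
    (hv : side v = false) : D side M .ord u v ↔ M u v := by
  constructor
  · rintro ⟨_, h⟩
    exact (ed_row hu).1 (h.2 hu)
  · intro h
    exact ⟨ne1 hu hv, ⟨fun _ => hu, fun _ => (ed_row hu).2 h⟩⟩

theorem D_col {side : Z → Bool} {M : Z → Z → Prop} {u v : Z} (hu : side u = false)
    (hv : side v = true) : D side M .ord u v ↔ ¬ M v u := by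
  constructor
  · rintro ⟨_, h⟩ hM
    have := h.1 ((ed_col hu).2 hM)
    rw [hu] at this
    exact Bool.false_ne_true this
  · intro h
    refine ⟨ne2 hu hv, ⟨fun h' => absurd ((ed_col hu).1 h') h, fun h' => ?_⟩⟩
    rw [hu] at h'
    exact absurd h' Bool.false_ne_true

end ReachAux

open ReachAux

theorem reach_short {side : Z → Bool} {M : Z → Z → Prop} {W : Z → Prop} (ρ : Rule)
    (hsep : Sep side M W)
    (hsc : ∀ u v, W u → W v → ∃ n, Pth side M ρ (fun a b => W a ∧ W b) n u v) :
    ∀ u v, W u → W v → Pth side M ρ (fun a b => W a ∧ W b) 6 u v := by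
  obtain ⟨L, hL, hR, p, q, hp, hq⟩ := hsep
  have hpa := pa ρ hsc
  cases ρ with
  | par =>
    refine sym_main hpa side (fun u v h => h.1) ?_ L hL hR p q ?_ ?_
    · intro u v _ _ h
      exact ⟨h.1.symm, (ed_symm h.1).1 h.2⟩
    · intro u v hu hv lu lv su sv
      rw [← hp u v hu hv lu lv su sv, ← ed_row (M := M) (v := v) su]
      exact ⟨fun h => h.2, fun h => ⟨ne1 su sv, h⟩⟩
    · intro u v hu hv lu lv su sv
      rw [← hq u v hu hv lu lv su sv, ← ed_col (M := M) (v := v) su]
      exact ⟨fun h => h.2, fun h => ⟨ne2 su sv, h⟩⟩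
  | ser =>
    refine sym_main hpa side (fun u v h => h.1) ?_ L hL hR (¬ p) (¬ q) ?_ ?_
    · intro u v _ _ h
      exact ⟨h.1.symm, fun h' => h.2 ((ed_symm h.1).2 h')⟩
    · intro u v hu hv lu lv su sv
      rw [← hp u v hu hv lu lv su sv, ← ed_row (M := M) (v := v) su]
      exact ⟨fun h => h.2, fun h => ⟨ne1 su sv, h⟩⟩
    · intro u v hu hv lu lv su sv
      rw [← hq u v hu hv lu lv su sv, ← ed_col (M := M) (v := v) su]
      exact ⟨fun h => h.2, fun h => ⟨ne2 su sv, h⟩⟩
  | ord =>
    have hs : ∀ u v, D side M .ord u v → side u ≠ side v := fun u v h => h.1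
    by_cases hpt : p <;> by_cases hqt : q
    · refine ord_case hpa side hs L hL hR true ?_ ?_
      · intro u v hu hv su sv hl
        have sv' : side v = false := by
          cases h : side v
          · rfl
          · exact absurd h sv
        rw [D_row su sv']
        by_cases lu : L u
        · have lv : ¬ L v := fun lv => hl ⟨fun _ => lv, fun _ => lu⟩
          exact (hp u v hu hv lu lv su sv').2 hpt
        · have lv : L v := by
            by_contra lv
            exact hl ⟨fun h => absurd h lu, fun h => absurd h lv⟩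
          exact (hq v u hv hu lv lu sv' su).2 hqt
      · intro u v hu hv su sv hl
        have su' : side u = false := by
          cases h : side u
          · rfl
          · exact absurd h su
        rw [D_col su' sv, not_not]
        by_cases lu : L u
        · have lv : ¬ L v := fun lv => hl ⟨fun _ => lv, fun _ => lu⟩
          exact (hq u v hu hv lu lv su' sv).2 hqt
        · have lv : L v := by
            by_contra lv
            exact hl ⟨fun h => absurd h lu, fun h => absurd h lv⟩
          exact (hp v u hv hu lv lu sv su').2 hpt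
    · exfalso
      obtain ⟨a, ha, la⟩ := hL
      obtain ⟨a, b, ha, hb, la, lb, hab⟩ := hpa.cr (fun z => ¬ L z) hR ⟨a, ha, fun h => h la⟩
      have lb' : L b := not_not.1 lb
      have hsab := hs a b hab
      cases sa : side a
      · cases sb : side b
        · exact hsab (sa.trans sb.symm)
        · rw [D_col sa sb] at hab
          exact hab ((hp b a hb ha lb' la sb sa).2 hpt)
      · cases sb : side b
        · rw [D_row sa sb] at hab
          exact hqt ((hq b a hb ha lb' la sb sa).1 hab)
        · exact hsab (sa.trans sb.symm)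
    · exfalso
      obtain ⟨a, b, ha, hb, la, lb, hab⟩ := hpa.cr L hL hR
      have hsab := hs a b hab
      cases sa : side a
      · cases sb : side b
        · exact hsab (sa.trans sb.symm)
        · rw [D_col sa sb] at hab
          exact hab ((hq a b ha hb la lb sa sb).2 hqt)
      · cases sb : side b
        · rw [D_row sa sb] at hab
          exact hpt ((hp a b ha hb la lb sa sb).1 hab)
        · exact hsab (sa.trans sb.symm)
    · refine ord_case hpa side hs L hL hR false ?_ ?_
      · intro u v hu hv su sv hl
        have sv' : side v = true := by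
          cases h : side v
          · exact absurd h sv
          · rfl
        rw [D_col su sv']
        by_cases lu : L u
        · have lv : ¬ L v := fun lv => hl ⟨fun _ => lv, fun _ => lu⟩
          exact fun h => hqt ((hq u v hu hv lu lv su sv').1 h)
        · have lv : L v := by
            by_contra lv
            exact hl ⟨fun h => absurd h lu, fun h => absurd h lv⟩
          exact fun h => hpt ((hp v u hv hu lv lu sv' su).1 h)
      · intro u v hu hv su sv hl
        have su' : side u = true := by
          cases h : side u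
          · exact absurd h su
          · rfl
        rw [D_row su' sv]
        by_cases lu : L u
        · have lv : ¬ L v := fun lv => hl ⟨fun _ => lv, fun _ => lu⟩
          exact fun h => hpt ((hp u v hu hv lu lv su' sv).1 h)
        · have lv : L v := by
            by_contra lv
            exact hl ⟨fun h => absurd h lu, fun h => absurd h lv⟩
          exact fun h => hqt ((hq v u hv hu lv lu sv su').1 h)

end L

end P1346e8
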