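import Pool.Agent.Lib.P1346L.Reach

/-!
# The refinement of an equivalence relation by a rule
-/

set_option autoImplicit false

namespace P1346e8

namespace L

variable {Z : Type}

namespace RefineAux

variable {side : Z → Bool} {M : Z → Z → Prop} {ρ : Rule} {q : Z → Z → Prop} {W : Z → Prop}

theorem pth_q (hq : EqOn W q) : ∀ (n : ℕ) (u v : Z), Pth side M ρ q n u v → q u v
  | 0, _, _, h => h.1
  | n + 1, u, v, h => by
    rcases h with h | ⟨w, h1, h2, _⟩
    · exact pth_q hq n u v h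
    · exact hq.trans _ _ _ (pth_q hq n u w h1) h2

theorem pth_imp {q' : Z → Z → Prop} (h : ∀ a b, q a b → q' a b) :
    ∀ (n : ℕ) (u v : Z), Pth side M ρ q n u v → Pth side M ρ q' n u v
  | 0, _, _, hp => ⟨h _ _ hp.1, hp.2⟩
  | n + 1, u, v, hp => by
    rcases hp with hp | ⟨w, h1, h2, h3⟩
    · exact Or.inl (pth_imp h n u v hp)
    · exact Or.inr ⟨w, pth_imp h n u w h1, h _ _ h2, h3⟩

theorem pth_one (hq : EqOn W q) {w v : Z} (h : q w v) (hD : D side M ρ w v) :
    Pth side M ρ q 1 w v :=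
  Or.inr ⟨w, ⟨hq.refl _ (hq.dom _ _ h).1, rfl⟩, h, hD⟩

/-- the strongly connected class -/
def KK (side : Z → Bool) (M : Z → Z → Prop) (ρ : Rule) (q : Z → Z → Prop) (u w : Z) : Prop :=
  (∃ n, Pth side M ρ q n u w) ∧ ∃ n, Pth side M ρ q n w u

theorem inside (hq : EqOn W q) (u : Z) : ∀ (n : ℕ) (a b : Z), KK side M ρ q u a →
    (∃ m, Pth side M ρ q m b u) → Pth side M ρ q n a b →
    Pth side M ρ (fun x y => KK side M ρ q u x ∧ KK side M ρ q u y) n a b
  | 0, a, b, ha, _, h => by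
    obtain ⟨_, rfl⟩ := h
    exact ⟨⟨ha, ha⟩, rfl⟩
  | n + 1, a, b, ha, hb, h => by
    rcases h with h | ⟨w, h1, h2, h3⟩
    · exact Or.inl (inside hq u n a b ha hb h)
    · have hw : ∃ m, Pth side M ρ q m w u := by
        obtain ⟨m, hm⟩ := hb
        exact ⟨1 + m, (pth_one hq h2 h3).trans hm hq.trans⟩
      have hKw : KK side M ρ q u w := by
        obtain ⟨m, hm⟩ := ha.1
        exact ⟨⟨m + n, hm.trans h1 hq.trans⟩, hw⟩
      have hKb : KK side M ρ q u b := by
        obtain ⟨m, hm⟩ := hKw.1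
        exact ⟨⟨m + 1, hm.trans (pth_one hq h2 h3) hq.trans⟩, hb⟩
      exact Or.inr ⟨w, inside hq u n a w ha hw h1, ⟨hKw, hKb⟩, h3⟩

theorem no_arc {K : Z → Prop} (hK : ¬ ∃ a b, K a ∧ K b ∧ side a ≠ side b) :
    ∀ (n : ℕ) (a b : Z), Pth side M ρ (fun x y => K x ∧ K y) n a b → a = b
  | 0, _, _, h => h.2
  | n + 1, a, b, h => by
    rcases h with h | ⟨w, _, h2, h3⟩
    · exact no_arc hK n a b h
    · have h4 : side w ≠ side b := by
        cases ρ with
        | par => exact h3.1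
        | ser => exact h3.1
        | ord => exact h3.1
      exact absurd ⟨w, b, h2.1, h2.2, h4⟩ hK

theorem mono_path (hq : EqOn W q) {u : Z} {g : Z → ℤ}
    (harc : ∀ a b, q u a → q u b → D side M ρ a b → g a ≤ g b) :
    ∀ (n : ℕ) (a b : Z), q u a → Pth side M ρ q n a b → g a ≤ g b ∧ q u b
  | 0, a, b, ha, h => by
    obtain ⟨_, rfl⟩ := h
    exact ⟨le_rfl, ha⟩
  | n + 1, a, b, ha, h => by
    rcases h with h | ⟨w, h1, h2, h3⟩
    · exact mono_path hq harc n a b ha h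
    · obtain ⟨h4, h5⟩ := mono_path hq harc n a w ha h1
      have h6 := hq.trans _ _ _ h5 h2
      exact ⟨h4.trans (harc w b h5 h6 h3), h6⟩

theorem const_label (hq : EqOn W q) {u : Z} (hu : W u) {g : Z → ℤ}
    (harc : ∀ a b, q u a → q u b → D side M ρ a b → g a ≤ g b) (v : Z)
    (h : nxt side M ρ q u v) : q u v ∧ g v = g u := by
  have huu := hq.refl u hu
  obtain ⟨h1, h2⟩ := mono_path hq harc 6 u v huu h.1
  obtain ⟨h3, _⟩ := mono_path hq harc 6 v u h2 h.2
  exact ⟨h2, le_antisymm h3 h1⟩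

end RefineAux

open RefineAux

theorem nxt_iff {side : Z → Bool} {M : Z → Z → Prop} {W : Z → Prop} {q : Z → Z → Prop}
    (hq : EqOn W q) (hTD : ∀ u, W u → ∃ τ, TD side M τ (q u)) (ρ : Rule) (u v : Z) :
    nxt side M ρ q u v ↔ (∃ n, Pth side M ρ q n u v) ∧ ∃ n, Pth side M ρ q n v u := by
  refine ⟨fun h => ⟨⟨6, h.1⟩, ⟨6, h.2⟩⟩, fun h => ?_⟩
  have hquv : q u v := by
    obtain ⟨n, hn⟩ := h.1
    exact pth_q hq n u v hn
  have huu : q u u := hq.refl u (hq.dom _ _ hquv).1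
  have hKu : KK side M ρ q u u := ⟨⟨0, huu, rfl⟩, ⟨0, huu, rfl⟩⟩
  have hKv : KK side M ρ q u v := h
  have hKq : ∀ w, KK side M ρ q u w → q u w := fun w hw => by
    obtain ⟨n, hn⟩ := hw.1
    exact pth_q hq n u w hn
  have hsc : ∀ a b, KK side M ρ q u a → KK side M ρ q u b →
      ∃ n, Pth side M ρ (fun x y => KK side M ρ q u x ∧ KK side M ρ q u y) n a b := by
    intro a b ha hb
    obtain ⟨m, hm⟩ := ha.2
    obtain ⟨n, hn⟩ := hb.1
    exact ⟨m + n, inside hq u (m + n) a b ha hb.2 (hm.trans hn hq.trans)⟩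
  by_cases hK : ∃ a b, KK side M ρ q u a ∧ KK side M ρ q u b ∧ side a ≠ side b
  · obtain ⟨τ, hτ⟩ := hTD u (hq.dom _ _ hquv).1
    have hsep : Sep side M (KK side M ρ q u) := sep_of_td (hτ.mono hKq) hK
    have h6 := reach_short ρ hsep hsc
    have himp : ∀ a b, KK side M ρ q u a ∧ KK side M ρ q u b → q a b := fun a b hab =>
      hq.trans _ _ _ (hq.symm _ _ (hKq a hab.1)) (hKq b hab.2)
    exact ⟨pth_imp himp 6 u v (h6 u v hKu hKv), pth_imp himp 6 v u (h6 v u hKv hKu)⟩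
  · obtain ⟨n, hn⟩ := hsc u v hKu hKv
    have huv : u = v := no_arc hK n u v hn
    subst huv
    have h0 : Pth side M ρ q 6 u u :=
      Pth.mono (m := 0) (Nat.zero_le 6) (⟨huu, rfl⟩ : Pth side M ρ q 0 u u)
    exact ⟨h0, h0⟩

theorem nxt_le {side : Z → Bool} {M : Z → Z → Prop} {W : Z → Prop} {q : Z → Z → Prop}
    (hq : EqOn W q) (ρ : Rule) (u v : Z) (h : nxt side M ρ q u v) : q u v :=
  pth_q hq 6 u v h.1

theorem nxt_eqOn {side : Z → Bool} {M : Z → Z → Prop} {W : Z → Prop} {q : Z → Z → Prop}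
    (hq : EqOn W q) (hTD : ∀ u, W u → ∃ τ, TD side M τ (q u)) (ρ : Rule) :
    EqOn W (nxt side M ρ q) where
  dom u v h := hq.dom u v (nxt_le hq ρ u v h)
  refl u hu := (nxt_iff hq hTD ρ u u).2 ⟨⟨0, hq.refl u hu, rfl⟩, ⟨0, hq.refl u hu, rfl⟩⟩
  symm u v h := ⟨h.2, h.1⟩
  trans u v w h h' := by
    refine (nxt_iff hq hTD ρ u w).2 ⟨⟨6 + 6, h.1.trans h'.1 hq.trans⟩,
      ⟨6 + 6, h'.2.trans h.2 hq.trans⟩⟩

theorem nxt_td {side : Z → Bool} {M : Z → Z → Prop} {W : Z → Prop} {q : Z → Z → Prop}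
    (hq : EqOn W q) (ρ : Rule) (τ : List Rule) (u : Z) (hu : W u)
    (h : TD side M (ρ :: τ) (q u)) : TD side M τ (nxt side M ρ q u) := by
  cases ρ with
  | par =>
    obtain ⟨g, h1, h2⟩ := h
    have harc : ∀ a b, q u a → q u b → D side M .par a b → g a ≤ g b := by
      intro a b ha hb hD
      by_contra hlt
      push Not at hlt
      exact h1 a b ha hb hD.1 hlt.ne' hD.2
    exact (h2 (g u)).mono fun v hv => const_label hq hu harc v hv
  | ser =>
    obtain ⟨g, h1, h2⟩ := h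
    have harc : ∀ a b, q u a → q u b → D side M .ser a b → g a ≤ g b := by
      intro a b ha hb hD
      by_contra hlt
      push Not at hlt
      exact hD.2 (h1 a b ha hb hD.1 hlt.ne')
    exact (h2 (g u)).mono fun v hv => const_label hq hu harc v hv
  | ord =>
    obtain ⟨g, h1, h2⟩ := h
    have harc : ∀ a b, q u a → q u b → D side M .ord a b → g a ≤ g b := by
      intro a b ha hb hD
      by_contra hlt
      push Not at hlt
      have h3 := h1 b a hb ha hD.1.symm hlt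
      have h4 := h3.2
      have h5 := hD.2
      rw [← ed_symm hD.1] at h4
      have h6 : side a = true ↔ side b = true := h5.symm.trans h4
      apply hD.1
      cases ha' : side a <;> cases hb' : side b <;> simp_all
    exact (h2 (g u)).mono fun v hv => const_label hq hu harc v hv

end L

end P1346e8
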