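import Pool.Agent.Lib.P1346L.Basic

/-!
# MODULE Sep: a decomposable set has a split with constant off-diagonal blocks (about 0.7 h)

STATEMENT. If `TD side M τ W` and `W` contains elements of both sides then `Sep side M W`: `W` is the
disjoint union of non-empty parts `L` and `W \ L` such that the entries between rows of `L` and columns
of `W \ L` are constant, and the entries between columns of `L` and rows of `W \ L` are constant.

PROOF. Induction on `τ`.  `[]`: impossible.  `ρ :: τ` with labels `g`: if `g` is constant on `W`, say `c`,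
then `TD side M τ (fun u => W u ∧ g u = c)`, hence `TD side M τ W` (`TD.mono`), and the induction
hypothesis applies.  Otherwise `g u ≠ g v` for some `u, v ∈ W`.  For `par`, `ser` take `L z := g z = g u`
(`p = q = False` resp. `True`, note `ed side M u v` is `M u v` if `u` is a row and `M v u` if `u` is a
column).  For `ord` take `L z := g z ≤ min (g u) (g v)`: for `z ∈ L`, `z' ∈ W \ L` we have `g z < g z'`, so
`D side M .ord z z'`: `p = True`, `q = False`.
-/

set_option autoImplicit false

namespace P1346e8

namespace L

variable {Z : Type}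

/-- A split with constant off-diagonal blocks. -/
def Sep (side : Z → Bool) (M : Z → Z → Prop) (W : Z → Prop) : Prop :=
  ∃ L : Z → Prop, (∃ u, W u ∧ L u) ∧ (∃ u, W u ∧ ¬ L u) ∧ ∃ p q : Prop,
    (∀ u v, W u → W v → L u → ¬ L v → side u = true → side v = false → (M u v ↔ p)) ∧
      ∀ u v, W u → W v → L u → ¬ L v → side u = false → side v = true → (M v u ↔ q)

namespace SepAux

theorem ed_row {side : Z → Bool} {M : Z → Z → Prop} {u v : Z} (h : side u = true) :
    ed side M u v ↔ M u v := by
  unfold ed
  rw [if_pos h]

theorem ed_col {side : Z → Bool} {M : Z → Z → Prop} {u v : Z} (h : side u = false) :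
    ed side M u v ↔ M v u := by
  unfold ed
  rw [if_neg (by rw [h]; exact Bool.false_ne_true)]

theorem const_or {W : Z → Prop} (g : Z → ℤ) (hne : ∃ u, W u) :
    (∃ c, ∀ u, W u → g u = c) ∨ ∃ u v, W u ∧ W v ∧ g u < g v := by
  by_cases h : ∃ u v, W u ∧ W v ∧ g u < g v
  · exact Or.inr h
  · left
    obtain ⟨u0, h0⟩ := hne
    refine ⟨g u0, fun u hu => ?_⟩
    rcases lt_trichotomy (g u) (g u0) with h1 | h1 | h1
    · exact absurd ⟨u, u0, hu, h0, h1⟩ h
    · exact h1
    · exact absurd ⟨u0, u, h0, hu, h1⟩ h

end SepAux

open SepAux

theorem sep_of_td {side : Z → Bool} {M : Z → Z → Prop} {τ : List Rule} {W : Z → Prop}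
    (h : TD side M τ W) (h2 : ∃ u v, W u ∧ W v ∧ side u ≠ side v) : Sep side M W := by
  induction τ generalizing W with
  | nil =>
    obtain ⟨u, v, hu, hv, hs⟩ := h2
    exact absurd (h u v hu hv) hs
  | cons ρ τ ih =>
    have hne : ∃ u, W u := by
      obtain ⟨u, v, hu, hv, hs⟩ := h2
      exact ⟨u, hu⟩
    -- the constant case
    have hconst : ∀ g : Z → ℤ, (∀ c, TD side M τ (fun u => W u ∧ g u = c)) →
        (∃ c, ∀ u, W u → g u = c) → Sep side M W := by
      intro g hg hc
      obtain ⟨c, hc⟩ := hc
      have h3 : (fun u => W u ∧ g u = c) = W := by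
        funext u
        exact propext ⟨fun h => h.1, fun h => ⟨h, hc u h⟩⟩
      have h4 := hg c
      rw [h3] at h4
      exact ih h4 h2
    cases ρ with
    | par =>
      obtain ⟨g, hg1, hg2⟩ := h
      rcases const_or g hne with hc | ⟨u, v, hu, hv, huv⟩
      · exact hconst g hg2 hc
      · refine ⟨fun z => g z = g u, ⟨u, hu, rfl⟩, ⟨v, hv, fun e => ?_⟩, False, False, ?_, ?_⟩
        · exact absurd (show g v = g u from e) huv.ne'
        · intro x y hx hy hlx hly hsx hsy
          have hxy : g x ≠ g y := fun e => hly (show g y = g u from e ▸ hlx)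
          have h5 := hg1 x y hx hy (by rw [hsx, hsy]; decide) hxy
          rw [ed_row hsx] at h5
          exact iff_false_intro h5
        · intro x y hx hy hlx hly hsx hsy
          have hxy : g x ≠ g y := fun e => hly (show g y = g u from e ▸ hlx)
          have h5 := hg1 x y hx hy (by rw [hsx, hsy]; decide) hxy
          rw [ed_col hsx] at h5
          exact iff_false_intro h5
    | ser =>
      obtain ⟨g, hg1, hg2⟩ := h
      rcases const_or g hne with hc | ⟨u, v, hu, hv, huv⟩
      · exact hconst g hg2 hc
      · refine ⟨fun z => g z = g u, ⟨u, hu, rfl⟩, ⟨v, hv, fun e => ?_⟩, True, True, ?_, ?_⟩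
        · exact absurd (show g v = g u from e) huv.ne'
        · intro x y hx hy hlx hly hsx hsy
          have hxy : g x ≠ g y := fun e => hly (show g y = g u from e ▸ hlx)
          have h5 := hg1 x y hx hy (by rw [hsx, hsy]; decide) hxy
          rw [ed_row hsx] at h5
          exact iff_true_intro h5
        · intro x y hx hy hlx hly hsx hsy
          have hxy : g x ≠ g y := fun e => hly (show g y = g u from e ▸ hlx)
          have h5 := hg1 x y hx hy (by rw [hsx, hsy]; decide) hxy
          rw [ed_col hsx] at h5
          exact iff_true_intro h5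
    | ord =>
      obtain ⟨g, hg1, hg2⟩ := h
      rcases const_or g hne with hc | ⟨u, v, hu, hv, huv⟩
      · exact hconst g hg2 hc
      · refine ⟨fun z => g z ≤ g u, ⟨u, hu, le_rfl⟩, ⟨v, hv, fun e => ?_⟩, True, False, ?_, ?_⟩
        · exact absurd (show g v ≤ g u from e) (not_le.2 huv)
        · intro x y hx hy hlx hly hsx hsy
          have hxy : g x < g y := lt_of_le_of_lt hlx (not_le.1 hly)
          have h5 := (hg1 x y hx hy (by rw [hsx, hsy]; decide) hxy).2
          rw [ed_row hsx] at h5
          exact iff_true_intro (h5.2 hsx)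
        · intro x y hx hy hlx hly hsx hsy
          have hxy : g x < g y := lt_of_le_of_lt hlx (not_le.1 hly)
          have h5 := (hg1 x y hx hy (by rw [hsx, hsy]; decide) hxy).2
          rw [ed_col hsx] at h5
          refine iff_false_intro fun h6 => ?_
          have h7 := h5.1 h6
          rw [hsx] at h7
          exact Bool.false_ne_true h7

end L

end P1346e8
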