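import Pool.Agent.Lib.P1346L.Word

/-!
# MODULE SimA: factorisation along labelled cuts (about 1.5 h)

STATEMENT. Let `p 0 < p 1 < ... < p m` be cuts such that the pieces `[p i, p (i+1))` have factorisations
of height at most `h`, and let the cuts carry labels `lam i` from the finite set `Λ` such that between any
two inner cuts (`0 < i < j < m`) with the same label the value of the word is an idempotent which depends
only on the label. Then `[p 0, p m)` has a factorisation of height at most `h + 3 * card Λ`.

PROOF. Show by induction on the finite set `D ⊆ Λ`: for `i < j ≤ m` such that all cuts `l` with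
`i < l < j` have labels in `D`: `Fac f (h + 3 * D.card) (p i) (p j)`.  `D = ∅`: `j = i + 1`.
`D = insert t D'`: if no `l` with `i < l < j` has label `t`, use the induction hypothesis and `Fac.mono`.
Otherwise let `l1` be the first and `lq` the last such `l` with label `t` (`l1 ≤ lq`).  The intervals from
`i` to `l1` and from `lq` to `j` have height `H' = h + 3 * D'.card`.  If `l1 < lq`: enumerate the cuts with
label `t` between `l1` and `lq`: `l1 < l2 < ... < lq`; the intervals between consecutive ones have height
at most `H'` (their inner cuts have labels in `D'`) and all have the same value, which is idempotent: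
height `H' + 1` for `[p l1, p lq)`.  (To avoid an enumeration: call `Chain a b` the statement `∃ m' p', 0 <
m' ∧ p' 0 = a ∧ p' m' = b ∧ ∀ k < m', Fac f H' (p' k) (p' (k+1)) ∧ ∀ s, val f (p' k) (p' (k+1)) s = e s`;
a chain can be extended by one interval at its end; by strong induction on `l` there is a chain from
`p l1` to `p l` for every `l` with label `t`, `l1 < l ≤ lq`: take the last `l' < l` with label `t`.)
Two more binary splits give height at most `H' + 3 = h + 3 * D.card`.  Finally `D = univ`, `i = 0`,
`j = m`.
-/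

set_option autoImplicit false

namespace P1346e8

namespace L

namespace SimAAux

theorem exists_last (P : ℕ → Prop) (a l : ℕ) (ha : a < l) (hP : P a) :
    ∃ b, a ≤ b ∧ b < l ∧ P b ∧ ∀ c, b < c → c < l → ¬ P c := by
  induction l with
  | zero => omega
  | succ l ih =>
    by_cases hl : P l
    · exact ⟨l, by omega, by omega, hl, fun c h1 h2 => by omega⟩
    · have hal : a < l := by
        rcases Nat.lt_succ_iff_lt_or_eq.1 ha with h | h
        · exact h
        · exact absurd (h ▸ hP) hl
      obtain ⟨b, h1, h2, h3, h4⟩ := ih hal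
      refine ⟨b, h1, by omega, h3, fun c hc1 hc2 => ?_⟩
      rcases Nat.lt_succ_iff_lt_or_eq.1 hc2 with h | h
      · exact h4 c hc1 h
      · exact h ▸ hl

open Classical in
theorem exists_first (P : ℕ → Prop) (a : ℕ) (hP : P a) :
    ∃ b, b ≤ a ∧ P b ∧ ∀ c, c < b → ¬ P c :=
  ⟨Nat.find ⟨a, hP⟩, Nat.find_min' ⟨a, hP⟩ hP, Nat.find_spec ⟨a, hP⟩,
    fun _ hc => Nat.find_min ⟨a, hP⟩ hc⟩

/-- a chain of intervals of height `H` with the value `e` -/
def Chain {K : ℕ} (f : ℕ → Fin K → Fin K) (H : ℕ) (e : Fin K → Fin K) (a b : ℕ) : Prop :=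
  ∃ (m' : ℕ) (p' : ℕ → ℕ), 0 < m' ∧ p' 0 = a ∧ p' m' = b ∧
    ∀ k < m', Fac f H (p' k) (p' (k + 1)) ∧ ∀ s, val f (p' k) (p' (k + 1)) s = e s

theorem Chain.one {K : ℕ} {f : ℕ → Fin K → Fin K} {H : ℕ} {e : Fin K → Fin K} {a b : ℕ}
    (h1 : Fac f H a b) (h2 : ∀ s, val f a b s = e s) : Chain f H e a b := by
  refine ⟨1, fun k => if k = 0 then a else b, by omega, rfl, rfl, ?_⟩
  intro k hk
  have : k = 0 := by omega
  subst this
  simp [h1, h2]

theorem Chain.snoc {K : ℕ} {f : ℕ → Fin K → Fin K} {H : ℕ} {e : Fin K → Fin K} {a b c : ℕ}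
    (h : Chain f H e a b)
    (h1 : Fac f H b c) (h2 : ∀ s, val f b c s = e s) : Chain f H e a c := by
  obtain ⟨m', p', hm', h0, hb, hk⟩ := h
  refine ⟨m' + 1, fun k => if k ≤ m' then p' k else c, by omega, ?_, ?_, ?_⟩
  · simp [h0]
  · simp
  · intro k hk'
    dsimp only
    rw [if_pos (by omega : k ≤ m')]
    rcases Nat.lt_succ_iff_lt_or_eq.1 hk' with h | h
    · rw [if_pos (by omega)]
      exact hk k h
    · subst h
      rw [if_neg (by omega), hb]
      exact ⟨h1, h2⟩

open Classical in
theorem main {K : ℕ} (f : ℕ → Fin K → Fin K) (h m : ℕ) (p : ℕ → ℕ)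
    (hp : ∀ i < m, Fac f h (p i) (p (i + 1))) {Λ : Type} (lam : ℕ → Λ)
    (hlam : ∀ i j i' j', 0 < i → i < j → j < m → 0 < i' → i' < j' → j' < m →
      lam i = lam j → lam i' = lam j' → lam i = lam i' →
      (∀ s, val f (p i) (p j) (val f (p i) (p j) s) = val f (p i) (p j) s) ∧
        ∀ s, val f (p i) (p j) s = val f (p i') (p j') s) (D : Finset Λ) :
    ∀ i j, i < j → j ≤ m → (∀ l, i < l → l < j → lam l ∈ D) →
      Fac f (h + 3 * D.card) (p i) (p j) := by
  induction D using Finset.induction_on with
  | empty =>
    intro i j hij hjm hl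
    have : j = i + 1 := by
      by_contra hne
      exact absurd (hl (i + 1) (by omega) (by omega)) (by simp)
    subst this
    simpa using hp i (by omega)
  | insert t D' ht ih =>
    intro i j hij hjm hl
    rw [Finset.card_insert_of_notMem ht]
    by_cases hex : ∃ l, i < l ∧ l < j ∧ lam l = t
    · obtain ⟨l0, hl0⟩ := hex
      obtain ⟨l1, -, ⟨hil1, hl1j, hlt1⟩, hfirst⟩ :=
        exists_first (fun l => i < l ∧ l < j ∧ lam l = t) l0 hl0
      obtain ⟨lq, hlq1, hlqj, hltq, hlast⟩ := exists_last (fun l => lam l = t) l1 j hl1j hlt1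
      -- the inner labels
      have hD : ∀ l, i < l → l < j → lam l ≠ t → lam l ∈ D' := by
        intro l h1 h2 h3
        rcases Finset.mem_insert.1 (hl l h1 h2) with h4 | h4
        · exact absurd h4 h3
        · exact h4
      have F1 : Fac f (h + 3 * D'.card) (p i) (p l1) :=
        ih i l1 hil1 (by omega) (fun l h1 h2 => hD l h1 (by omega)
          (fun h3 => hfirst l h2 ⟨h1, by omega, h3⟩))
      have F3 : Fac f (h + 3 * D'.card) (p lq) (p j) :=
        ih lq j hlqj hjm (fun l h1 h2 => hD l (by omega) h2 (fun h3 => hlast l h1 h2 h3))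
      rcases Nat.lt_or_ge l1 lq with hlt | hge
      · have key : ∀ l, l1 < l → l ≤ lq → lam l = t →
            Chain f (h + 3 * D'.card) (val f (p l1) (p lq)) (p l1) (p l) := by
          intro l
          induction l using Nat.strong_induction_on with
          | _ l ihl =>
            intro h1 h2 h3
            obtain ⟨l', g1, g2, g3, g4⟩ := exists_last (fun l => lam l = t) l1 l h1 hlt1
            have FF : Fac f (h + 3 * D'.card) (p l') (p l) :=
              ih l' l g2 (by omega) (fun x hx1 hx2 => hD x (by omega) (by omega)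
                (fun hx3 => g4 x hx1 hx2 hx3))
            have VV : ∀ s, val f (p l') (p l) s = val f (p l1) (p lq) s :=
              (hlam l' l l1 lq (by omega) g2 (by omega) (by omega) hlt (by omega)
                (g3.trans h3.symm) (hlt1.trans hltq.symm) (g3.trans hlt1.symm)).2
            rcases Nat.lt_or_ge l1 l' with g5 | g5
            · exact (ihl l' g2 g5 (by omega) g3).snoc FF VV
            · have : l' = l1 := by omega
              subst this
              exact Chain.one FF VV
        obtain ⟨m', p', hm', h0, hb, hk⟩ := key lq hlt le_rfl hltq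
        have hidem := (hlam l1 lq l1 lq (by omega) hlt (by omega) (by omega) hlt (by omega)
                (hlt1.trans hltq.symm) (hlt1.trans hltq.symm) rfl).1
        have F2 : Fac f (h + 3 * D'.card + 1) (p l1) (p lq) :=
          Or.inr (Or.inr ⟨m', p', val f (p l1) (p lq), hm', h0, hb, hidem, hk⟩)
        have F12 : Fac f (h + 3 * D'.card + 1 + 1) (p i) (p lq) :=
          Or.inr (Or.inl ⟨p l1, F1.mono (by omega), F2⟩)
        have F123 : Fac f (h + 3 * D'.card + 1 + 1 + 1) (p i) (p j) :=
          Or.inr (Or.inl ⟨p lq, F12, F3.mono (by omega)⟩)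
        exact F123
      · have : lq = l1 := by omega
        subst this
        have F13 : Fac f (h + 3 * D'.card + 1) (p i) (p j) :=
          Or.inr (Or.inl ⟨p lq, F1, F3⟩)
        exact F13.mono (by omega)
    · push Not at hex
      refine (ih i j hij hjm ?_).mono (by omega)
      intro l h1 h2
      rcases Finset.mem_insert.1 (hl l h1 h2) with h3 | h3
      · exact absurd h3 (hex l h1 h2)
      · exact h3

end SimAAux

theorem comb {K : ℕ} (f : ℕ → Fin K → Fin K) (h m : ℕ) (hm : 0 < m) (p : ℕ → ℕ)
    (hp : ∀ i < m, Fac f h (p i) (p (i + 1))) {Λ : Type} [Fintype Λ] (lam : ℕ → Λ)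
    (hlam : ∀ i j i' j', 0 < i → i < j → j < m → 0 < i' → i' < j' → j' < m →
      lam i = lam j → lam i' = lam j' → lam i = lam i' →
      (∀ s, val f (p i) (p j) (val f (p i) (p j) s) = val f (p i) (p j) s) ∧
        ∀ s, val f (p i) (p j) s = val f (p i') (p j') s) :
    Fac f (h + 3 * Fintype.card Λ) (p 0) (p m) := by
  classical
  exact SimAAux.main f h m p hp lam hlam Finset.univ 0 m hm le_rfl (fun l _ _ => Finset.mem_univ _)


end L

end P1346e8
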