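import Pool.Agent.Lib.P1346L.SimA

/-!
# MODULE SimB: every word has a factorisation of bounded height (about 2 h)

STATEMENT (Simon's factorisation theorem for the transformation monoid). For every `K` there is an `H` such
that every non-empty interval of every word `f : ℕ → Fin K → Fin K` has a factorisation of height at
most `H`.

PROOF. The rank of `g : Fin K → Fin K` is the number of elements of its range; the rank of a composition
is at most the rank of each factor, so the rank of `val f a b` decreases (weakly) when `[a, b)` grows.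
Show by downward induction on `r` (from `r = K + 1`, where there is nothing to show): there is `H_r` such
that all intervals `[a, b)`, `a < b`, of rank at least `r` have `Fac f (H_r) a b`.  `r = 0` is the theorem.
Step: let `H` be given for `r + 1`, and let `[a, b)` have rank at least `r`; if it is at least `r + 1` use
`H`.  So let the rank be `r`.  Then every subinterval has rank at least `r`.
Greedy cuts: there are `m ≥ 1` and `p 0 = a < p 1 < ... < p m ≤ b` such that every piece `[p i, p (i+1))`,
`i < m`, has rank exactly `r` and `Fac f (H + 1)`, and `p m = b` or (`p m < b` and `[p m, b)` has rank at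
least `r + 1`).  (Strong induction on `b - a`: let `c` be the smallest `c > a` with rank of `[a, c)` at
most `r`; it exists, `c ≤ b`; `[a, c-1)` is empty or has rank at least `r + 1`, so it has height `H`, and
the letter `[c-1, c)` has height `0`: `Fac f (H + 1) a c`.  If `c = b` or `[c, b)` has rank at least
`r + 1` stop with `m = 1`; otherwise `[c, b)` has rank `r`, continue with `c`.)
Labels: `lam i := (val f (p 0) (p i), val f (p i) (p (i+1)))`, in `(Fin K → Fin K) × (Fin K → Fin K)`.
Let `0 < i < j < m`, `lam i = lam j = (s, g)`, `v := val f (p i) (p j)`.  By `val_comp`, `v ∘ s = s`, so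
`v` is the identity on the image `I` of `s`; `s` has rank `r` (it is between the whole interval and the
first piece), so `I` has `r` elements, and `v` has rank `r`, so its image is `I`, hence `v (v x) = v x`.
Moreover `v = w ∘ g` with `w = val f (p (i+1)) (p j)`, so `g` is injective on `I`, and as `g` has rank `r`
for every `x` there is `y ∈ I` with `g y = g x`; so `v x = w (g x) = w (g y) = v y = y`.  For another pair
`i', j'` with the same label the same `y` shows `v' x = y`.  So `comb` applies with height `H + 1`:
`Fac f (H + 1 + 3 * card) a (p m)`, and a binary split with the rest `[p m, b)` (height `H`) gives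
`H_r := H + 2 + 3 * card`.
-/

set_option autoImplicit false

namespace P1346e8

namespace L

namespace SimBAux

/-- the rank of a transformation -/
def rk {K : ℕ} (g : Fin K → Fin K) : ℕ := (Finset.univ.image g).card

theorem rk_le {K : ℕ} (g : Fin K → Fin K) : rk g ≤ K := by
  unfold rk
  have h := Finset.card_le_univ (Finset.univ.image g)
  rwa [Fintype.card_fin] at h

theorem rk_comp {K : ℕ} {g g₁ g₂ g₃ : Fin K → Fin K} (h : ∀ s, g s = g₃ (g₂ (g₁ s))) :
    rk g ≤ rk g₂ := by
  unfold rk
  have h1 : Finset.univ.image g ⊆ (Finset.univ.image g₂).image g₃ := by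
    intro x hx
    rw [Finset.mem_image] at hx ⊢
    obtain ⟨s, _, rfl⟩ := hx
    exact ⟨g₂ (g₁ s), Finset.mem_image_of_mem _ (Finset.mem_univ _), (h s).symm⟩
  exact (Finset.card_le_card h1).trans Finset.card_image_le

theorem rk_val {K : ℕ} (f : ℕ → Fin K → Fin K) {a b c d : ℕ} (h1 : a ≤ c) (h2 : c ≤ d)
    (h3 : d ≤ b) : rk (val f a b) ≤ rk (val f c d) := by
  refine rk_comp (g₁ := val f a c) (g₃ := val f d b) fun s => ?_
  rw [val_comp f h1 h2, val_comp f (h1.trans h2) h3]

/-- greedy cuts -/
theorem cuts {K : ℕ} (f : ℕ → Fin K → Fin K) (r H : ℕ)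
    (hH : ∀ a b : ℕ, a < b → r + 1 ≤ rk (val f a b) → Fac f H a b) :
    ∀ (n a b : ℕ), b - a ≤ n → a < b → rk (val f a b) ≤ r →
      ∃ (m : ℕ) (p : ℕ → ℕ), 0 < m ∧ p 0 = a ∧ p m ≤ b ∧
        (∀ i < m, rk (val f (p i) (p (i + 1))) ≤ r ∧ Fac f (H + 1) (p i) (p (i + 1))) ∧
        (p m = b ∨ (p m < b ∧ r + 1 ≤ rk (val f (p m) b))) := by
  intro n
  induction n with
  | zero =>
    intro a b h1 h2
    omega
  | succ n ih =>
    intro a b h1 h2 h3
    have hex : ∃ c, a < c ∧ rk (val f a c) ≤ r := ⟨b, h2, h3⟩
    classical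
    obtain ⟨hc1, hc2⟩ := Nat.find_spec hex
    have hc3 := Nat.find_min' hex ⟨h2, h3⟩
    have hc4 : ∀ c, c < Nat.find hex → ¬ (a < c ∧ rk (val f a c) ≤ r) := fun c hc =>
      Nat.find_min hex hc
    generalize Nat.find hex = c at hc1 hc2 hc3 hc4
    have hF : Fac f (H + 1) a c := by
      by_cases hca : c = a + 1
      · exact Fac.mono (h := 0) (Nat.zero_le _) hca
      · right
        left
        refine ⟨c - 1, hH a (c - 1) (by omega) ?_, ?_⟩
        · have h4 := hc4 (c - 1) (by omega)
          by_contra h5
          exact h4 ⟨by omega, by omega⟩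
        · refine Fac.mono (h := 0) (Nat.zero_le _) ?_
          change c = c - 1 + 1
          omega
    by_cases hcb : c = b
    · subst hcb
      refine ⟨1, fun i => if i = 0 then a else c, one_pos, by simp, by simp, ?_, Or.inl (by simp)⟩
      intro i hi
      have hi0 : i = 0 := by omega
      subst hi0
      simp only [if_true, Nat.zero_add, one_ne_zero, if_false]
      exact ⟨hc2, hF⟩
    · by_cases hr : r + 1 ≤ rk (val f c b)
      · refine ⟨1, fun i => if i = 0 then a else c, one_pos, by simp, by simpa using hc3, ?_,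
          Or.inr ⟨?_, ?_⟩⟩
        · intro i hi
          have hi0 : i = 0 := by omega
          subst hi0
          simp only [if_true, Nat.zero_add, one_ne_zero, if_false]
          exact ⟨hc2, hF⟩
        · simp only [one_ne_zero, if_false]
          omega
        · simpa using hr
      · obtain ⟨m, p, hm, hp0, hpm, hp1, hp2⟩ := ih c b (by omega) (by omega) (by omega)
        refine ⟨m + 1, fun i => if i = 0 then a else p (i - 1), Nat.succ_pos _, by simp,
          by simpa using hpm, ?_, by simpa using hp2⟩
        intro i hi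
        by_cases hi0 : i = 0
        · subst hi0
          simp only [if_true, Nat.zero_add, one_ne_zero, if_false, Nat.sub_self, hp0]
          exact ⟨hc2, hF⟩
        · have h4 := hp1 (i - 1) (by omega)
          rw [show i - 1 + 1 = i by omega] at h4
          simp only [hi0, if_false, Nat.add_sub_cancel, Nat.succ_ne_zero]
          exact h4

theorem p_mono {K : ℕ} {f : ℕ → Fin K → Fin K} {H m : ℕ} {p : ℕ → ℕ}
    (hp : ∀ i < m, Fac f H (p i) (p (i + 1))) : ∀ (j i : ℕ), i ≤ j → j ≤ m → p i ≤ p j := by
  intro j
  induction j with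
  | zero =>
    intro i hi _
    rw [Nat.le_zero.1 hi]
  | succ j ih =>
    intro i hi hj
    by_cases h : i = j + 1
    · rw [h]
    · exact (ih i (by omega) (by omega)).trans (hp j (by omega)).lt.le

/-- the values between cuts with the same label -/
theorem key {K : ℕ} {s g v w : Fin K → Fin K} {r : ℕ} (h1 : ∀ x, v (s x) = s x)
    (h2 : ∀ x, v x = w (g x)) (hs : r ≤ rk s) (hg : rk g ≤ r) (x : Fin K) :
    ∃ y, (∃ z, s z = y) ∧ g y = g x := by
  have hinj : Set.InjOn g (Finset.univ.image s : Finset (Fin K)) := by
    intro a ha b hb hab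
    rw [Finset.mem_coe, Finset.mem_image] at ha hb
    obtain ⟨a', _, rfl⟩ := ha
    obtain ⟨b', _, rfl⟩ := hb
    rw [← h1 a', ← h1 b', h2, h2, hab]
  have h3 : ((Finset.univ.image s).image g).card = (Finset.univ.image s).card :=
    Finset.card_image_of_injOn hinj
  have h4 : (Finset.univ.image s).image g ⊆ Finset.univ.image g := by
    intro z hz
    rw [Finset.mem_image] at hz ⊢
    obtain ⟨y, _, rfl⟩ := hz
    exact ⟨y, Finset.mem_univ _, rfl⟩
  have h5 : (Finset.univ.image s).image g = Finset.univ.image g := by
    refine Finset.eq_of_subset_of_card_le h4 ?_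
    rw [h3]
    exact hg.trans hs
  have h6 : g x ∈ (Finset.univ.image s).image g := by
    rw [h5]
    exact Finset.mem_image_of_mem _ (Finset.mem_univ _)
  rw [Finset.mem_image] at h6
  obtain ⟨y, hy, hyx⟩ := h6
  rw [Finset.mem_image] at hy
  obtain ⟨z, _, hz⟩ := hy
  exact ⟨y, ⟨z, hz⟩, hyx⟩

theorem step (K r : ℕ) (h : ∃ H : ℕ, ∀ (f : ℕ → Fin K → Fin K) (a b : ℕ), a < b →
    r + 1 ≤ rk (val f a b) → Fac f H a b) :
    ∃ H : ℕ, ∀ (f : ℕ → Fin K → Fin K) (a b : ℕ), a < b →
      r ≤ rk (val f a b) → Fac f H a b := by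
  obtain ⟨H, hH⟩ := h
  refine ⟨H + 1 + 3 * Fintype.card ((Fin K → Fin K) × (Fin K → Fin K)) + 1, ?_⟩
  intro f a b hab hr
  by_cases hr1 : r + 1 ≤ rk (val f a b)
  · exact (hH f a b hab hr1).mono (by omega)
  · obtain ⟨m, p, hm, hp0, hpm, hp1, hp2⟩ :=
      cuts f r H (hH f) (b - a) a b le_rfl hab (by omega)
    have hp : ∀ i < m, Fac f (H + 1) (p i) (p (i + 1)) := fun i hi => (hp1 i hi).2
    have hmono := p_mono hp
    have hC := comb f (H + 1) m hm p hp (Λ := (Fin K → Fin K) × (Fin K → Fin K))
      (fun i => (val f (p 0) (p i), val f (p i) (p (i + 1)))) ?_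
    · rw [hp0] at hC
      rcases hp2 with h2 | ⟨h2, h3⟩
      · rw [h2] at hC
        exact Or.inl hC
      · exact Or.inr (Or.inl ⟨p m, hC, (hH f (p m) b h2 h3).mono (by omega)⟩)
    · intro i j i' j' hi hij hj hi' hij' hj' e1 e2 e3
      have e1a : val f (p 0) (p i) = val f (p 0) (p j) := congrArg Prod.fst e1
      have e2a : val f (p 0) (p i') = val f (p 0) (p j') := congrArg Prod.fst e2
      have e3a : val f (p 0) (p i) = val f (p 0) (p i') := congrArg Prod.fst e3
      have e3b : val f (p i) (p (i + 1)) = val f (p i') (p (i' + 1)) := congrArg Prod.snd e3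
      have q1 : p 0 ≤ p i := hmono i 0 (by omega) (by omega)
      have q2 : p i ≤ p j := hmono j i (by omega) (by omega)
      have q3 : p i ≤ p (i + 1) := hmono (i + 1) i (by omega) (by omega)
      have q4 : p (i + 1) ≤ p j := hmono j (i + 1) (by omega) (by omega)
      have q1' : p 0 ≤ p i' := hmono i' 0 (by omega) (by omega)
      have q2' : p i' ≤ p j' := hmono j' i' (by omega) (by omega)
      have q3' : p i' ≤ p (i' + 1) := hmono (i' + 1) i' (by omega) (by omega)
      have q4' : p (i' + 1) ≤ p j' := hmono j' (i' + 1) (by omega) (by omega)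
      have v1 : ∀ x, val f (p i) (p j) (val f (p 0) (p i) x) = val f (p 0) (p i) x := by
        intro x
        rw [val_comp f q1 q2, ← e1a]
      have v1' : ∀ x, val f (p i') (p j') (val f (p 0) (p i) x) = val f (p 0) (p i) x := by
        intro x
        rw [e3a, val_comp f q1' q2', ← e2a]
      have v2 : ∀ x, val f (p i) (p j) x =
          val f (p (i + 1)) (p j) (val f (p i) (p (i + 1)) x) := by
        intro x
        rw [val_comp f q3 q4]
      have v2' : ∀ x, val f (p i') (p j') x =
          val f (p (i' + 1)) (p j') (val f (p i) (p (i + 1)) x) := by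
        intro x
        rw [e3b, val_comp f q3' q4']
      have hs : r ≤ rk (val f (p 0) (p i)) := by
        refine hr.trans (rk_val f hp0.ge q1 ((hmono m i (by omega) le_rfl).trans hpm))
      have hg : rk (val f (p i) (p (i + 1))) ≤ r := (hp1 i (by omega)).1
      have main : ∀ x, ∃ y, val f (p i) (p j) x = y ∧ val f (p i') (p j') x = y ∧
          val f (p i) (p j) y = y := by
        intro x
        obtain ⟨y, ⟨z, hz⟩, hy⟩ := key v1 v2 hs hg x
        refine ⟨y, ?_, ?_, ?_⟩
        · rw [v2, ← hy, ← v2, ← hz, v1]
        · rw [v2', ← hy, ← v2', ← hz, v1']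
        · rw [← hz, v1]
      refine ⟨fun x => ?_, fun x => ?_⟩
      · obtain ⟨y, h1, _, h3⟩ := main x
        rw [h1, h3]
      · obtain ⟨y, h1, h2, _⟩ := main x
        rw [h1, h2]

end SimBAux

open SimBAux

theorem simon (K : ℕ) : ∃ H : ℕ, ∀ (f : ℕ → Fin K → Fin K) (a b : ℕ), a < b → Fac f H a b := by
  have main : ∀ n r : ℕ, r + n = K + 1 → ∃ H : ℕ, ∀ (f : ℕ → Fin K → Fin K) (a b : ℕ), a < b →
      r ≤ rk (val f a b) → Fac f H a b := by
    intro n
    induction n with
    | zero =>
      intro r hr
      refine ⟨0, fun f a b _ h => ?_⟩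
      have := rk_le (val f a b)
      omega
    | succ n ih =>
      intro r hr
      exact step K r (ih (r + 1) (by omega))
  obtain ⟨H, hH⟩ := main (K + 1) 0 (by omega)
  exact ⟨H, fun f a b hab => hH f a b hab (Nat.zero_le _)⟩

end L

end P1346e8
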