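import Pool.Agent.Lib.P1346L.Word
import Pool.Agent.Lib.P1346L.Blocks

/-!
# MODULE TDWord: words with factorisations of bounded height are decomposable (about 2.5 h)

STATEMENT. For all `K`, `h` there are a finite set `C` of colours and lists of rules `τ α β` such that for
every word with `Fac f h a b` the positions of `[a, b)` can be coloured such that the rows of colour `α` and
the columns of colour `β` of the matrix `Ew f c S` are decomposable by `τ α β`.

PROOF. Induction on `h`.  `h = 0`: `b = a + 1`, one position, and `Ew f c S a a` is false: `C = Unit`,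
`τ = [par]`, `TD.constFalse`.
Step: let `C'`, `τ'` be given for `h`.  `C := C' × Fin 4 × Fin 3 × Fin K × (Fin K → Prop) × (Fin K → Fin K)`:
inner colour, tag, block number mod 3, state `r`, set `l`, function `e`.  Let `α, β` be colours with tags
`t, t'`.
Case `Fac f h a b`: all tags `0`, inner colours from the induction hypothesis, the rest arbitrary (if `K = 0`
there is `c a : Fin 0`, so we may assume that `Fin K` has an element, e.g. `c a`).
Case of a binary split `a < m < b` (`Fac.lt`): positions `x < m` get tag `1` and `r x := val f (x+1) m (c x)`,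
positions `x ≥ m` get tag `2` and `l x := fun s => S x (val f m x s)`; the inner colours from the two
parts; everything else arbitrary but fixed.  For `x < m ≤ y`: `val f (x+1) y (c x) = val f m y (r x)`
(`val_comp`), so `Ew x y ↔ S y (val f m y (r x)) ↔ l y (r x)`, and `Ew` is symmetric.
Case of an idempotent split `p 0 < ... < p m`, value `e`: let `g x` be the block of `x`
(`p (g x) ≤ x < p (g x + 1)`); tag `3`, number `g x % 3`, `r x := val f (x+1) (p (g x + 1)) (c x)`,
`l x := fun s => S x (val f (p (g x)) x s)`, the function `e`, the inner colours from the blocks.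
For `x`, `y` in blocks `i < j`: `Ew x y ↔ l y (val f (p (i+1)) (p j) (r x))`, and `val f (p (i+1)) (p j)` is
the identity if `j = i + 1` and equals `e` if `j ≥ i + 2` (induction on `j`, `e ∘ e = e`).  So for a row `x`
of colour `α` and a column `y` of colour `β` in blocks `i`, `j`: `j = i + 1`: entry `ψ1 := l_β (r_α)`;
`j ≥ i + 2`: `φ1 := l_β (e (r_α))`; `i = j + 1`: `ψ2 := l_α (r_β)`; `i ≥ j + 2`: `φ2 := l_α (e (r_β))`.
Definition of `τ α β`: if `t ≠ t'` and `{t, t'} ≠ {1, 2}`: `[]` (there are no rows or no columns: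
`TD.oneSided`).  `t = t' = 0, 1, 2`: `τ'` of the inner colours.  `t = 1, t' = 2`: `[ser]` if `l_β (r_α)`,
otherwise `[par]`; `t = 2, t' = 1`: `[ser]` if `l_α (r_β)`, otherwise `[par]` (`TD.constTrue/False`).
`t = t' = 3`: if the functions `e` of `α` and `β` are different: `[]` (no rows or no columns); otherwise the
list from `td_blocks` (choice) for `i0, j0` the block numbers mod 3 of `α, β`, the four values above and
`τ0 := τ'` of the inner colours.  In the cases `t = t' ∈ {1, 2}` the set is contained in the corresponding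
set for the part (`TD.mono`), and for blocks: `{z ∈ W, B z = c}` is contained in the set for the block `c`.
-/

set_option autoImplicit false

namespace P1346e8

namespace L

namespace TDWordAux

/-- Colours: inner colour, tag, block number, state, set, function. -/
abbrev Col (K : ℕ) (C : Type) : Type :=
  C × Fin 4 × Fin 3 × Fin K × (Fin K → Prop) × (Fin K → Fin K)

/-- The list of rules for blocks. -/
noncomputable def blk (i0 j0 : ℕ) (φ1 φ2 ψ1 ψ2 : Prop) (τ0 : List Rule) : List Rule :=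
  Classical.choose (td_blocks i0 j0 φ1 φ2 ψ1 ψ2 τ0)

open Classical in
/-- The rules. -/
noncomputable def rul {K : ℕ} {C : Type} (τ' : C → C → List Rule) (α β : Col K C) : List Rule :=
  if α.2.1 = β.2.1 then
    (if α.2.1 = 3 then
      (if α.2.2.2.2.2 = β.2.2.2.2.2 then
        blk α.2.2.1 β.2.2.1 (β.2.2.2.2.1 (α.2.2.2.2.2 α.2.2.2.1))
          (α.2.2.2.2.1 (α.2.2.2.2.2 β.2.2.2.1)) (β.2.2.2.2.1 α.2.2.2.1)
          (α.2.2.2.2.1 β.2.2.2.1) (τ' α.1 β.1)
      else [])
    else τ' α.1 β.1)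
  else if α.2.1 = 1 ∧ β.2.1 = 2 then (if β.2.2.2.2.1 α.2.2.2.1 then [.ser] else [.par])
  else if α.2.1 = 2 ∧ β.2.1 = 1 then (if α.2.2.2.2.1 β.2.2.2.1 then [.ser] else [.par])
  else []

theorem noRow {C : Type} {M : ℕ × Bool → ℕ × Bool → Prop} {a b : ℕ} {κ : ℕ → C} {α β : C}
    {τ : List Rule} (h : ¬ ∃ x, a ≤ x ∧ x < b ∧ κ x = α) :
    TD (Z := ℕ × Bool) Prod.snd M τ
      (fun z => a ≤ z.1 ∧ z.1 < b ∧ κ z.1 = if z.2 = true then α else β) := by
  apply TD.oneSided
  rintro ⟨x, s⟩ ⟨y, t⟩ hu hv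
  have hs : s = false := by
    cases s with
    | false => rfl
    | true => exact absurd ⟨x, hu.1, hu.2.1, by simpa using hu.2.2⟩ h
  have ht : t = false := by
    cases t with
    | false => rfl
    | true => exact absurd ⟨y, hv.1, hv.2.1, by simpa using hv.2.2⟩ h
  simp [hs, ht]

theorem noCol {C : Type} {M : ℕ × Bool → ℕ × Bool → Prop} {a b : ℕ} {κ : ℕ → C} {α β : C}
    {τ : List Rule} (h : ¬ ∃ x, a ≤ x ∧ x < b ∧ κ x = β) :
    TD (Z := ℕ × Bool) Prod.snd M τ
      (fun z => a ≤ z.1 ∧ z.1 < b ∧ κ z.1 = if z.2 = true then α else β) := by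
  apply TD.oneSided
  rintro ⟨x, s⟩ ⟨y, t⟩ hu hv
  have hs : s = true := by
    cases s with
    | true => rfl
    | false => exact absurd ⟨x, hu.1, hu.2.1, by simpa using hu.2.2⟩ h
  have ht : t = true := by
    cases t with
    | true => rfl
    | false => exact absurd ⟨y, hv.1, hv.2.1, by simpa using hv.2.2⟩ h
  simp [hs, ht]

/-- Passing to an inner colouring on a part. -/
theorem inner {K : ℕ} {C : Type} {M : ℕ × Bool → ℕ × Bool → Prop} {a' b' : ℕ}
    {κ : ℕ → Col K C} {κ' : ℕ → C} {α β : Col K C} {τ : List Rule} {W : ℕ × Bool → Prop}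
    (H : TD (Z := ℕ × Bool) Prod.snd M τ
      (fun z => a' ≤ z.1 ∧ z.1 < b' ∧ κ' z.1 = if z.2 = true then α.1 else β.1))
    (hW : ∀ z, W z → a' ≤ z.1 ∧ z.1 < b' ∧ κ z.1 = (if z.2 = true then α else β) ∧
      κ' z.1 = (κ z.1).1) :
    TD (Z := ℕ × Bool) Prod.snd M τ W := by
  refine H.mono ?_
  intro z hz
  obtain ⟨h1, h2, h3, h4⟩ := hW z hz
  refine ⟨h1, h2, ?_⟩
  rw [h4, h3]
  split_ifs <;> rfl

theorem case1 {K : ℕ} {C : Type} (τ' : C → C → List Rule) (f : ℕ → Fin K → Fin K)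
    (c : ℕ → Fin K) (S : ℕ → Fin K → Prop) (a b : ℕ)
    (H : ∃ κ : ℕ → C, ∀ α β, TD (Z := ℕ × Bool) Prod.snd (fun u v => Ew f c S u.1 v.1) (τ' α β)
        (fun z => a ≤ z.1 ∧ z.1 < b ∧ κ z.1 = if z.2 = true then α else β)) :
    ∃ κ : ℕ → Col K C, ∀ α β, TD (Z := ℕ × Bool) Prod.snd (fun u v => Ew f c S u.1 v.1)
      (rul τ' α β) (fun z => a ≤ z.1 ∧ z.1 < b ∧ κ z.1 = if z.2 = true then α else β) := by
  obtain ⟨κ', H⟩ := H
  refine ⟨fun x => (κ' x, 0, 0, c a, fun _ => False, id), fun α β => ?_⟩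
  by_cases hr : ∃ x, a ≤ x ∧ x < b ∧ (κ' x, (0 : Fin 4), (0 : Fin 3), c a,
      (fun _ : Fin K => False), (id : Fin K → Fin K)) = α
  swap
  · exact noRow hr
  by_cases hc : ∃ x, a ≤ x ∧ x < b ∧ (κ' x, (0 : Fin 4), (0 : Fin 3), c a,
      (fun _ : Fin K => False), (id : Fin K → Fin K)) = β
  swap
  · exact noCol hc
  obtain ⟨x, _, _, hx⟩ := hr
  obtain ⟨y, _, _, hy⟩ := hc
  have e1 : α.2.1 = 0 := by rw [← hx]
  have e2 : β.2.1 = 0 := by rw [← hy]
  have : rul τ' α β = τ' α.1 β.1 := by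
    unfold rul
    rw [if_pos (by rw [e1, e2]), if_neg (by rw [e1]; decide)]
  rw [this]
  exact inner (H α.1 β.1) (κ := fun x => (κ' x, 0, 0, c a, fun _ => False, id))
    fun z hz => ⟨hz.1, hz.2.1, hz.2.2, rfl⟩

theorem case2 {K : ℕ} {C : Type} (τ' : C → C → List Rule) (f : ℕ → Fin K → Fin K)
    (c : ℕ → Fin K) (S : ℕ → Fin K → Prop) (a m b : ℕ)
    (H1 : ∃ κ : ℕ → C, ∀ α β, TD (Z := ℕ × Bool) Prod.snd (fun u v => Ew f c S u.1 v.1) (τ' α β)
        (fun z => a ≤ z.1 ∧ z.1 < m ∧ κ z.1 = if z.2 = true then α else β))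
    (H2 : ∃ κ : ℕ → C, ∀ α β, TD (Z := ℕ × Bool) Prod.snd (fun u v => Ew f c S u.1 v.1) (τ' α β)
        (fun z => m ≤ z.1 ∧ z.1 < b ∧ κ z.1 = if z.2 = true then α else β)) :
    ∃ κ : ℕ → Col K C, ∀ α β, TD (Z := ℕ × Bool) Prod.snd (fun u v => Ew f c S u.1 v.1)
      (rul τ' α β) (fun z => a ≤ z.1 ∧ z.1 < b ∧ κ z.1 = if z.2 = true then α else β) := by
  obtain ⟨κ1, H1⟩ := H1
  obtain ⟨κ2, H2⟩ := H2
  set κ : ℕ → Col K C := fun x => if x < m then
      (κ1 x, 1, 0, val f (x + 1) m (c x), fun _ => False, id)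
    else (κ2 x, 2, 0, c a, fun s => S x (val f m x s), id) with hκ
  have k1 : ∀ x, x < m → κ x = (κ1 x, 1, 0, val f (x + 1) m (c x), fun _ => False, id) := by
    intro x hx; rw [hκ]; simp only [if_pos hx]
  have k2 : ∀ x, ¬ x < m → κ x = (κ2 x, 2, 0, c a, fun s => S x (val f m x s), id) := by
    intro x hx; rw [hκ]; simp only [if_neg hx]
  have t1 : ∀ x, x < m ↔ (κ x).2.1 = 1 := by
    intro x
    by_cases hx : x < m
    · rw [k1 x hx]; simp [hx]
    · rw [k2 x hx]; simp only [hx, false_iff]; decide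
  have t2 : ∀ x, ¬ x < m ↔ (κ x).2.1 = 2 := by
    intro x
    by_cases hx : x < m
    · rw [k1 x hx]; simp only [hx, not_true, false_iff]; decide
    · rw [k2 x hx]; simp [hx]
  -- the entries
  have ent : ∀ x y, x < m → ¬ y < m → (Ew f c S x y ↔ (κ y).2.2.2.2.1 (κ x).2.2.2.1) := by
    intro x y hx hy
    rw [k1 x hx, k2 y hy]
    simp only [Ew]
    have hxy : x < y := by omega
    have hyx : ¬ y < x := by omega
    simp only [hxy, hyx, true_and, false_and, or_false]
    rw [val_comp f (by omega : x + 1 ≤ m) (by omega : m ≤ y)]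
  have esym : ∀ x y, Ew f c S x y ↔ Ew f c S y x := by
    intro x y; unfold Ew; exact or_comm
  refine ⟨κ, fun α β => ?_⟩
  by_cases hr : ∃ x, a ≤ x ∧ x < b ∧ κ x = α
  swap
  · exact noRow hr
  by_cases hc : ∃ x, a ≤ x ∧ x < b ∧ κ x = β
  swap
  · exact noCol hc
  obtain ⟨x, hxa, hxb, hx⟩ := hr
  obtain ⟨y, hya, hyb, hy⟩ := hc
  have row : ∀ z : ℕ × Bool, z.2 = true → (κ z.1 = if z.2 = true then α else β) → κ z.1 = α := by
    intro z hz h; rw [h, if_pos hz]
  have col : ∀ z : ℕ × Bool, z.2 = false → (κ z.1 = if z.2 = true then α else β) → κ z.1 = β := by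
    intro z hz h; rw [h, if_neg (by simp [hz])]
  by_cases hxm : x < m
  · have e1 : α.2.1 = 1 := by rw [← hx]; exact (t1 x).1 hxm
    by_cases hym : y < m
    · have e2 : β.2.1 = 1 := by rw [← hy]; exact (t1 y).1 hym
      have : rul τ' α β = τ' α.1 β.1 := by
        unfold rul
        rw [if_pos (by rw [e1, e2]), if_neg (by rw [e1]; decide)]
      rw [this]
      refine inner (H1 α.1 β.1) (κ := κ) fun z hz => ?_
      have hzm : z.1 < m := by
        rw [t1, hz.2.2]; split_ifs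
        · exact e1
        · exact e2
      exact ⟨hz.1, hzm, hz.2.2, by rw [k1 z.1 hzm]⟩
    · have e2 : β.2.1 = 2 := by rw [← hy]; exact (t2 y).1 hym
      have key : ∀ u v : ℕ × Bool, (a ≤ u.1 ∧ u.1 < b ∧ κ u.1 = if u.2 = true then α else β) →
          (a ≤ v.1 ∧ v.1 < b ∧ κ v.1 = if v.2 = true then α else β) → u.2 = true → v.2 = false →
          (Ew f c S u.1 v.1 ↔ β.2.2.2.2.1 α.2.2.2.1) := by
        intro u v hu hv hu2 hv2
        have hu' := row u hu2 hu.2.2
        have hv' := col v hv2 hv.2.2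
        rw [ent u.1 v.1 ((t1 _).2 (by rw [hu']; exact e1)) ((t2 _).2 (by rw [hv']; exact e2)),
          hu', hv']
      by_cases hl : β.2.2.2.2.1 α.2.2.2.1
      · have : rul τ' α β = [.ser] := by
          unfold rul
          rw [if_neg (by rw [e1, e2]; decide), if_pos ⟨e1, e2⟩, if_pos hl]
        rw [this]
        exact TD.constTrue fun u v hu hv hu2 hv2 => (key u v hu hv hu2 hv2).2 hl
      · have : rul τ' α β = [.par] := by
          unfold rul
          rw [if_neg (by rw [e1, e2]; decide), if_pos ⟨e1, e2⟩, if_neg hl]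
        rw [this]
        exact TD.constFalse fun u v hu hv hu2 hv2 h => hl ((key u v hu hv hu2 hv2).1 h)
  · have e1 : α.2.1 = 2 := by rw [← hx]; exact (t2 x).1 hxm
    by_cases hym : y < m
    · have e2 : β.2.1 = 1 := by rw [← hy]; exact (t1 y).1 hym
      have key : ∀ u v : ℕ × Bool, (a ≤ u.1 ∧ u.1 < b ∧ κ u.1 = if u.2 = true then α else β) →
          (a ≤ v.1 ∧ v.1 < b ∧ κ v.1 = if v.2 = true then α else β) → u.2 = true → v.2 = false →
          (Ew f c S u.1 v.1 ↔ α.2.2.2.2.1 β.2.2.2.1) := by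
        intro u v hu hv hu2 hv2
        have hu' := row u hu2 hu.2.2
        have hv' := col v hv2 hv.2.2
        rw [esym, ent v.1 u.1 ((t1 _).2 (by rw [hv']; exact e2)) ((t2 _).2 (by rw [hu']; exact e1)),
          hu', hv']
      by_cases hl : α.2.2.2.2.1 β.2.2.2.1
      · have : rul τ' α β = [.ser] := by
          unfold rul
          rw [if_neg (by rw [e1, e2]; decide), if_neg (by rw [e1, e2]; decide),
            if_pos ⟨e1, e2⟩, if_pos hl]
        rw [this]
        exact TD.constTrue fun u v hu hv hu2 hv2 => (key u v hu hv hu2 hv2).2 hl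
      · have : rul τ' α β = [.par] := by
          unfold rul
          rw [if_neg (by rw [e1, e2]; decide), if_neg (by rw [e1, e2]; decide),
            if_pos ⟨e1, e2⟩, if_neg hl]
        rw [this]
        exact TD.constFalse fun u v hu hv hu2 hv2 h => hl ((key u v hu hv hu2 hv2).1 h)
    · have e2 : β.2.1 = 2 := by rw [← hy]; exact (t2 y).1 hym
      have : rul τ' α β = τ' α.1 β.1 := by
        unfold rul
        rw [if_pos (by rw [e1, e2]), if_neg (by rw [e1]; decide)]
      rw [this]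
      refine inner (H2 α.1 β.1) (κ := κ) fun z hz => ?_
      have hzm : ¬ z.1 < m := by
        rw [t2, hz.2.2]; split_ifs
        · exact e1
        · exact e2
      exact ⟨not_lt.1 hzm, hz.2.1, hz.2.2, by rw [k2 z.1 hzm]⟩

/-- The block of a position. -/
theorem block {p : ℕ → ℕ} : ∀ {m : ℕ} {x : ℕ}, p 0 ≤ x → x < p m →
    ∃ i < m, p i ≤ x ∧ x < p (i + 1)
  | 0, x, h0, h1 => absurd h1 (not_lt.2 h0)
  | m + 1, x, h0, h1 => by
      by_cases h : x < p m
      · obtain ⟨i, hi, h2⟩ := block h0 h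
        exact ⟨i, by omega, h2⟩
      · exact ⟨m, by omega, not_lt.1 h, h1⟩

theorem case3 {K : ℕ} {C : Type} (τ' : C → C → List Rule) (f : ℕ → Fin K → Fin K)
    (c : ℕ → Fin K) (S : ℕ → Fin K → Prop) (a b : ℕ) (m : ℕ) (p : ℕ → ℕ) (e : Fin K → Fin K)
    (hm : 0 < m) (hp0 : p 0 = a) (hpm : p m = b) (he : ∀ s, e (e s) = e s)
    (hlt : ∀ i < m, p i < p (i + 1)) (hval : ∀ i < m, ∀ s, val f (p i) (p (i + 1)) s = e s)
    (H : ∀ i < m, ∃ κ : ℕ → C, ∀ α β, TD (Z := ℕ × Bool) Prod.snd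
      (fun u v => Ew f c S u.1 v.1) (τ' α β)
        (fun z => p i ≤ z.1 ∧ z.1 < p (i + 1) ∧ κ z.1 = if z.2 = true then α else β)) :
    ∃ κ : ℕ → Col K C, ∀ α β, TD (Z := ℕ × Bool) Prod.snd (fun u v => Ew f c S u.1 v.1)
      (rul τ' α β) (fun z => a ≤ z.1 ∧ z.1 < b ∧ κ z.1 = if z.2 = true then α else β) := by
  have hmono : ∀ i j, i ≤ j → j ≤ m → p i ≤ p j := by
    intro i j hij
    induction j, hij using Nat.le_induction with
    | base => intro _; exact le_rfl
    | succ j hj ih => intro hjm; exact (ih (by omega)).trans (hlt j (by omega)).le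
  have hvale : ∀ i j, i < j → j ≤ m → ∀ s, val f (p i) (p j) s = e s := by
    intro i j hij
    induction j, hij using Nat.le_induction with
    | base => intro hjm s; exact hval i (by omega) s
    | succ j hj ih =>
      intro hjm s
      rw [← val_comp f (hmono i j (by omega) (by omega)) (hlt j (by omega)).le,
        ih (by omega) s, hval j (by omega), he]
  have hg : ∀ x, ∃ i, a ≤ x → x < b → i < m ∧ p i ≤ x ∧ x < p (i + 1) := by
    intro x
    by_cases hx : a ≤ x ∧ x < b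
    · obtain ⟨i, hi, h⟩ := block (p := p) (m := m) (x := x) (by rw [hp0]; exact hx.1)
        (by rw [hpm]; exact hx.2)
      exact ⟨i, fun _ _ => ⟨hi, h⟩⟩
    · exact ⟨0, fun h1 h2 => absurd ⟨h1, h2⟩ hx⟩
  choose g hg using hg
  have H' : ∀ i, ∃ κ : ℕ → C, i < m → ∀ α β, TD (Z := ℕ × Bool) Prod.snd
      (fun u v => Ew f c S u.1 v.1) (τ' α β)
        (fun z => p i ≤ z.1 ∧ z.1 < p (i + 1) ∧ κ z.1 = if z.2 = true then α else β) := by
    intro i
    by_cases hi : i < m
    · obtain ⟨κ, hκ⟩ := H i hi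
      exact ⟨κ, fun _ => hκ⟩
    · obtain ⟨κ, _⟩ := H 0 hm
      exact ⟨κ, fun h => absurd h hi⟩
  choose κi hκi using H'
  set κ : ℕ → Col K C := fun x => (κi (g x) x, 3, ⟨g x % 3, Nat.mod_lt _ (by decide)⟩,
    val f (x + 1) (p (g x + 1)) (c x), fun s => S x (val f (p (g x)) x s), e) with hκ
  -- the entries
  have ent : ∀ x y, a ≤ x → x < b → a ≤ y → y < b → g x < g y →
      (Ew f c S x y ↔ (κ y).2.2.2.2.1 (val f (p (g x + 1)) (p (g y)) (κ x).2.2.2.1)) := by
    intro x y hxa hxb hya hyb hxy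
    obtain ⟨hx1, hx2, hx3⟩ := hg x hxa hxb
    obtain ⟨hy1, hy2, hy3⟩ := hg y hya hyb
    have h1 : p (g x + 1) ≤ p (g y) := hmono _ _ (by omega) (by omega)
    have hlt' : x < y := by omega
    have hnlt : ¬ y < x := by omega
    simp only [hκ, Ew, hlt', hnlt, true_and, false_and, or_false]
    rw [val_comp f (by omega : x + 1 ≤ p (g x + 1)) h1,
      val_comp f (by omega : x + 1 ≤ p (g y)) hy2]
  have ent1 : ∀ x y, a ≤ x → x < b → a ≤ y → y < b → g y = g x + 1 →
      (Ew f c S x y ↔ (κ y).2.2.2.2.1 (κ x).2.2.2.1) := by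
    intro x y hxa hxb hya hyb hxy
    rw [ent x y hxa hxb hya hyb (by omega), hxy, val_self]
  have ent2 : ∀ x y, a ≤ x → x < b → a ≤ y → y < b → g x + 2 ≤ g y →
      (Ew f c S x y ↔ (κ y).2.2.2.2.1 (e (κ x).2.2.2.1)) := by
    intro x y hxa hxb hya hyb hxy
    rw [ent x y hxa hxb hya hyb (by omega),
      hvale _ _ (by omega) (hg y hya hyb).1.le]
  have esym : ∀ x y, Ew f c S x y ↔ Ew f c S y x := by
    intro x y; unfold Ew; exact or_comm
  refine ⟨κ, fun α β => ?_⟩
  by_cases hr : ∃ x, a ≤ x ∧ x < b ∧ κ x = α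
  swap
  · exact noRow hr
  by_cases hc : ∃ x, a ≤ x ∧ x < b ∧ κ x = β
  swap
  · exact noCol hc
  obtain ⟨x, hxa, hxb, hx⟩ := hr
  obtain ⟨y, hya, hyb, hy⟩ := hc
  have row : ∀ z : ℕ × Bool, z.2 = true → (κ z.1 = if z.2 = true then α else β) → κ z.1 = α := by
    intro z hz h; rw [h, if_pos hz]
  have col : ∀ z : ℕ × Bool, z.2 = false → (κ z.1 = if z.2 = true then α else β) → κ z.1 = β := by
    intro z hz h; rw [h, if_neg (by simp [hz])]
  have ta : α.2.1 = 3 := by rw [← hx]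
  have tb : β.2.1 = 3 := by rw [← hy]
  have ea : α.2.2.2.2.2 = e := by rw [← hx]
  have eb : β.2.2.2.2.2 = e := by rw [← hy]
  have : rul τ' α β = blk α.2.2.1 β.2.2.1 (β.2.2.2.2.1 (e α.2.2.2.1))
          (α.2.2.2.2.1 (e β.2.2.2.1)) (β.2.2.2.2.1 α.2.2.2.1)
          (α.2.2.2.2.1 β.2.2.2.1) (τ' α.1 β.1) := by
    unfold rul
    rw [if_pos (by rw [ta, tb]), if_pos ta, if_pos (by rw [ea, eb]), ea]
  rw [this]
  refine Classical.choose_spec (td_blocks α.2.2.1 β.2.2.1 (β.2.2.2.2.1 (e α.2.2.2.1))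
          (α.2.2.2.2.1 (e β.2.2.2.1)) (β.2.2.2.2.1 α.2.2.2.1)
          (α.2.2.2.2.1 β.2.2.2.1) (τ' α.1 β.1)) (ℕ × Bool) Prod.snd
          (fun u v => Ew f c S u.1 v.1) _ (fun z => g z.1) ?_ ?_ ?_ ?_ ?_ ?_ ?_
  · intro u hu hu2
    have := row u hu2 hu.2.2
    rw [← this]
  · intro v hv hv2
    have := col v hv2 hv.2.2
    rw [← this]
  · intro u v hu hv hu2 hv2 huv
    have hu' := row u hu2 hu.2.2
    have hv' := col v hv2 hv.2.2
    rw [ent2 u.1 v.1 hu.1 hu.2.1 hv.1 hv.2.1 huv, hu', hv']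
  · intro u v hu hv hu2 hv2 huv
    have hu' := row u hu2 hu.2.2
    have hv' := col v hv2 hv.2.2
    rw [esym, ent2 v.1 u.1 hv.1 hv.2.1 hu.1 hu.2.1 huv, hu', hv']
  · intro u v hu hv hu2 hv2 huv
    have hu' := row u hu2 hu.2.2
    have hv' := col v hv2 hv.2.2
    rw [ent1 u.1 v.1 hu.1 hu.2.1 hv.1 hv.2.1 huv, hu', hv']
  · intro u v hu hv hu2 hv2 huv
    have hu' := row u hu2 hu.2.2
    have hv' := col v hv2 hv.2.2
    rw [esym, ent1 v.1 u.1 hv.1 hv.2.1 hu.1 hu.2.1 huv, hu', hv']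
  · intro i
    by_cases hi : i < m
    · refine inner (hκi i hi α.1 β.1) (κ := κ) fun z hz => ?_
      obtain ⟨hz, hzi⟩ := hz
      obtain ⟨h1, h2, h3⟩ := hg z.1 hz.1 hz.2.1
      rw [hzi] at h2 h3
      refine ⟨h2, h3, hz.2.2, ?_⟩
      simp only [hκ, hzi]
    · apply TD.oneSided
      intro u v hu _
      exact absurd ((hg u.1 hu.1.1 hu.1.2.1).1) (by rw [hu.2]; exact hi)

end TDWordAux

open TDWordAux in
theorem td_word (K h : ℕ) : ∃ (C : Type) (_ : Finite C) (τ : C → C → List Rule),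
    ∀ (f : ℕ → Fin K → Fin K) (c : ℕ → Fin K) (S : ℕ → Fin K → Prop) (a b : ℕ), Fac f h a b →
      ∃ κ : ℕ → C, ∀ α β, TD (Z := ℕ × Bool) Prod.snd (fun u v => Ew f c S u.1 v.1) (τ α β)
        (fun z => a ≤ z.1 ∧ z.1 < b ∧ κ z.1 = if z.2 = true then α else β) := by
  induction h with
  | zero =>
    refine ⟨Unit, inferInstance, fun _ _ => [.par], fun f c S a b H => ⟨fun _ => (), fun α β => ?_⟩⟩
    have hb : b = a + 1 := H
    apply TD.constFalse
    intro u v hu hv _ _ h
    have h1 := hu.1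
    have h2 := hu.2.1
    have h3 := hv.1
    have h4 := hv.2.1
    rcases h with h | h
    · have := h.1; omega
    · have := h.1; omega
  | succ h ih =>
    obtain ⟨C, hC, τ', ih⟩ := ih
    refine ⟨Col K C, inferInstance, rul τ', fun f c S a b H => ?_⟩
    rcases H with H | ⟨m, H1, H2⟩ | ⟨m, p, e, hm, hp0, hpm, he, H⟩
    · exact case1 τ' f c S a b (ih f c S a b H)
    · exact case2 τ' f c S a m b (ih f c S a m H1) (ih f c S m b H2)
    · exact case3 τ' f c S a b m p e hm hp0 hpm he (fun i hi => (H i hi).1.lt)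
        (fun i hi => (H i hi).2) fun i hi => ih f c S _ _ (H i hi).1

end L

end P1346e8
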