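import Pool.Agent.Lib.P1346L.Word

/-!
# MODULE WordRep: a graph with few classes at every cut is given by a word (about 1.8 h)

STATEMENT. Let `r` be a linear order of the finite set `V`, `E` a symmetric irreflexive relation, and suppose
that for every `x` there is a map `cl` to `Fin K` (`0 < K`) such that `u, u' ≤ x` have the same value iff they
have the same neighbours after `x`. Then there are an injective numbering `e : V → ℕ` by numbers
`< Nat.card V` and a word `f, c, S` with `E u v ↔ Ew f c S (e u) (e v)`.

PROOF. `e v := ` number of `u` with `r u v` (`Nat.card {u // r u v}` or `Finset.card`); then `e v < Nat.card V`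
and `r u v ↔ e u < e v`, and `e` is a bijection onto `{0, ..., n-1}`.  (One can also take the order
isomorphism of `V` with `Fin n` for a linear order, e.g. `Finite.equivFin` composed suitably; or only use
injectivity and that `e` is strictly monotone, with `v_i` the element with `e v_i = i`, if it exists.)
Let `v_i` be the element with number `i` (`i < n`), `cl_i` the class map at `v_i`.
`c i := cl_i v_i`.  Letters: for `0 < j < n` let
`f j s := cl_j u` for some `u` with `e u < j` and `cl_(j-1) u = s`, if there is one, otherwise `s`.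
If `e u < j` then `f j (cl_(j-1) u) = cl_j u`: for the chosen `u'`, `cl_(j-1) u' = cl_(j-1) u`, so `u, u'` have
the same neighbours after `v_(j-1)`, hence after `v_j`, so `cl_j u' = cl_j u`.  By induction on `b` (`val_succ`,
`val_self`): `val f (e u + 1) b (c (e u)) = cl_(b-1) u` for `e u < b ≤ n`.
`S b s := ∃ u, e u < b ∧ cl_(b-1) u = s ∧ E u v_b`.  For `e u < e v = b`: `S b (cl_(b-1) u) ↔ E u v` (if `u'`
has the same class as `u` at `b - 1` and `E u' v` then `E u v`).  So `E u v ↔ Ew (e u) (e v)` for
`e u < e v`; by symmetry for `e v < e u`; and for `u = v` both sides are false.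
-/

set_option autoImplicit false

namespace P1346e8

namespace L

namespace WordRepAux

variable {V : Type} [Finite V]

theorem exists_num (r : V → V → Prop) (hr : StrictLin (fun _ => True) r) :
    ∃ e : V → ℕ, Function.Injective e ∧ (∀ v, e v < Nat.card V) ∧ (∀ u v, r u v ↔ e u < e v) ∧
      ∀ i, i < Nat.card V → ∃ v, e v = i := by
  obtain ⟨h1, h2, h3⟩ := hr
  have hmono : ∀ u v, r u v → ({w | r w u} : Set V).ncard < ({w | r w v} : Set V).ncard := by
    intro u v huv
    refine Set.ncard_lt_ncard ?_ (Set.toFinite _)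
    refine ⟨fun w hw => h2 w u v trivial trivial trivial hw huv, fun hsub => ?_⟩
    have : u ∈ ({w | r w u} : Set V) := hsub (show u ∈ ({w | r w v} : Set V) from huv)
    exact h1 u trivial this
  have hinj : Function.Injective (fun v => ({w | r w v} : Set V).ncard) := by
    intro u v huv
    by_contra hne
    have huv' : ({w | r w u} : Set V).ncard = ({w | r w v} : Set V).ncard := huv
    rcases h3 u v trivial trivial hne with h | h
    · have := hmono u v h
      omega
    · have := hmono v u h
      omega
  have hlt : ∀ v, ({w | r w v} : Set V).ncard < Nat.card V := by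
    intro v
    rw [← Set.ncard_univ]
    refine Set.ncard_lt_ncard ?_ (Set.toFinite _)
    refine ⟨fun w _ => trivial, fun hsub => ?_⟩
    have : v ∈ ({w | r w v} : Set V) := hsub (Set.mem_univ v)
    exact h1 v trivial this
  refine ⟨fun v => ({w | r w v} : Set V).ncard, hinj, hlt, ?_, ?_⟩
  · intro u v
    refine ⟨hmono u v, fun h => ?_⟩
    have h' : ({w | r w u} : Set V).ncard < ({w | r w v} : Set V).ncard := h
    by_contra hn
    by_cases huv : u = v
    · subst huv
      omega
    · rcases h3 u v trivial trivial huv with h4 | h4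
      · exact hn h4
      · have := hmono v u h4
        omega
  · intro i hi
    have hinj' : Function.Injective
        (fun v => (⟨({w | r w v} : Set V).ncard, hlt v⟩ : Fin (Nat.card V))) := by
      intro u v huv
      have := congrArg Fin.val huv
      exact hinj this
    have hb := (Nat.bijective_iff_injective_and_card _).2 ⟨hinj', by simp⟩
    obtain ⟨v, hv⟩ := hb.2 ⟨i, hi⟩
    exact ⟨v, congrArg Fin.val hv⟩

end WordRepAux

theorem word_rep {V : Type} [Finite V] (E r : V → V → Prop) (hr : StrictLin (fun _ => True) r)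
    (hirr : ∀ x, ¬ E x x) (hsymm : ∀ x y, E x y → E y x) {K : ℕ} (hK : 0 < K)
    (hcl : ∀ x, ∃ cl : V → Fin K, ∀ u u', (u = x ∨ r u x) → (u' = x ∨ r u' x) →
      (cl u = cl u' ↔ ∀ y, r x y → (E u y ↔ E u' y))) :
    ∃ (e : V → ℕ) (f : ℕ → Fin K → Fin K) (c : ℕ → Fin K) (S : ℕ → Fin K → Prop),
      Function.Injective e ∧ (∀ v, e v < Nat.card V) ∧ ∀ u v, E u v ↔ Ew f c S (e u) (e v) := by
  classical
  obtain ⟨e, hinj, hlt, hre, hsurj⟩ := WordRepAux.exists_num r hr
  rcases isEmpty_or_nonempty V with hV | hV
  · exact ⟨e, fun _ s => s, fun _ => ⟨0, hK⟩, fun _ _ => False, hinj, hlt, fun u => (hV.false u).elim⟩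
  choose cl hcl using hcl
  obtain ⟨v0⟩ := hV
  have hw : ∀ i, ∃ v, i < Nat.card V → e v = i := by
    intro i
    by_cases h : i < Nat.card V
    · obtain ⟨v, hv⟩ := hsurj i h
      exact ⟨v, fun _ => hv⟩
    · exact ⟨v0, fun h' => (h h').elim⟩
  choose w hw using hw
  have hwe : ∀ v, w (e v) = v := fun v => hinj (hw (e v) (hlt v))
  let f : ℕ → Fin K → Fin K := fun j s =>
    if h : ∃ u, e u < j ∧ cl (w (j - 1)) u = s then cl (w j) h.choose else s
  have hle : ∀ u j, e u < j → j ≤ Nat.card V → (u = w (j - 1) ∨ r u (w (j - 1))) := by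
    intro u j hu hj
    have h1 : e (w (j - 1)) = j - 1 := hw (j - 1) (by omega)
    rcases Nat.lt_or_ge (e u) (j - 1) with h | h
    · right
      rw [hre, h1]
      exact h
    · left
      refine hinj ?_
      rw [h1]
      omega
  have hsame : ∀ u u' j, e u < j → e u' < j → j ≤ Nat.card V →
      cl (w (j - 1)) u = cl (w (j - 1)) u' → ∀ y, j ≤ e y → (E u y ↔ E u' y) := by
    intro u u' j hu hu' hj h y hy
    refine (hcl (w (j - 1)) u u' (hle u j hu hj) (hle u' j hu' hj)).1 h y ?_
    rw [hre, hw (j - 1) (by omega)]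
    omega
  have hf : ∀ u j, e u < j → j < Nat.card V → f j (cl (w (j - 1)) u) = cl (w j) u := by
    intro u j hu hj
    have hex : ∃ u', e u' < j ∧ cl (w (j - 1)) u' = cl (w (j - 1)) u := ⟨u, hu, rfl⟩
    have h1 : f j (cl (w (j - 1)) u) = cl (w j) hex.choose := dif_pos hex
    rw [h1]
    obtain ⟨h2, h3⟩ := hex.choose_spec
    have h4 := hle hex.choose (j + 1) (by omega) (by omega)
    have h5 := hle u (j + 1) (by omega) (by omega)
    rw [Nat.add_sub_cancel] at h4 h5
    refine (hcl (w j) _ _ h4 h5).2 fun y hy => ?_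
    rw [hre, hw j hj] at hy
    exact hsame _ _ j h2 hu hj.le h3 y hy.le
  have hval : ∀ u b, e u < b → b ≤ Nat.card V →
      val f (e u + 1) b (cl (w (e u)) (w (e u))) = cl (w (b - 1)) u := by
    intro u b hb
    have hb' : e u + 1 ≤ b := hb
    induction b, hb' using Nat.le_induction with
    | base =>
      intro _
      rw [val_self, Nat.add_sub_cancel, hwe]
    | succ b hb2 ih =>
      intro hb3
      rw [val_succ f hb2, ih (by omega) (by omega), hf u b (by omega) (by omega),
        Nat.add_sub_cancel]
  have hS : ∀ u v, e u < e v → (E u v ↔ ∃ u', e u' < e v ∧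
      cl (w (e v - 1)) u' = val f (e u + 1) (e v) (cl (w (e u)) (w (e u))) ∧ E u' (w (e v))) := by
    intro u v huv
    rw [hval u (e v) huv (hlt v).le, hwe]
    constructor
    · intro h
      exact ⟨u, huv, rfl, h⟩
    · rintro ⟨u', h1, h2, h3⟩
      exact (hsame u' u (e v) h1 huv (hlt v).le h2 v le_rfl).1 h3
  refine ⟨e, f, fun i => cl (w i) (w i),
    fun b s => ∃ u, e u < b ∧ cl (w (b - 1)) u = s ∧ E u (w b), hinj, hlt, ?_⟩
  intro u v
  unfold Ew
  rcases lt_trichotomy (e u) (e v) with h | h | h
  · rw [hS u v h]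
    constructor
    · intro h'
      exact Or.inl ⟨h, h'⟩
    · rintro (⟨_, h'⟩ | ⟨h', _⟩)
      · exact h'
      · omega
  · have huv : u = v := hinj h
    subst huv
    constructor
    · intro h'
      exact (hirr u h').elim
    · rintro (⟨h', _⟩ | ⟨h', _⟩) <;> omega
  · have h0 : E u v ↔ E v u := ⟨hsymm u v, hsymm v u⟩
    rw [h0, hS v u h]
    constructor
    · intro h'
      exact Or.inr ⟨h, h'⟩
    · rintro (⟨h', _⟩ | ⟨_, h'⟩)
      · omega
      · exact h'

end L

end P1346e8
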