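import Pool.Agent.Lib.P1346L.SimB
import Pool.Agent.Lib.P1346L.TDWord
import Pool.Agent.Lib.P1346L.WordRep
import Pool.Agent.Lib.P1346L.RankCls

/-!
# Graphs of bounded linear rank-width are decomposable
-/

set_option autoImplicit false

namespace P1346e8

namespace L

theorem td_graph (k : ℕ) : ∃ (C : Type) (_ : Finite C) (τ : C → C → List Rule),
    ∀ (V : Type) (_ : Finite V) (E : V → V → Prop), (∀ x, ¬ E x x) → (∀ x y, E x y → E y x) →
      LinRankWidthLE k E → ∃ κ : V → C, ∀ α β,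
        TD (Z := V × Bool) Prod.snd (fun u v => E u.1 v.1) (τ α β)
          (fun z => κ z.1 = if z.2 = true then α else β) := by
  obtain ⟨H, hH⟩ := simon (2 ^ k)
  obtain ⟨C, hC, τ, hτ⟩ := td_word (2 ^ k) H
  by_cases hne : Nonempty C
  · refine ⟨C, hC, τ, fun V hV E hirr hsymm hE => ?_⟩
    obtain ⟨r, hr, hrk⟩ := hE
    obtain ⟨e, f, c, S, he, hlt, hES⟩ := word_rep E r hr hirr hsymm (K := 2 ^ k) (by positivity)
      (fun x => rank_cls E r k x (hrk x))
    by_cases hVn : Nonempty V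
    · obtain ⟨v0⟩ := hVn
      have h0 : 0 < Nat.card V := lt_of_le_of_lt (Nat.zero_le _) (hlt v0)
      obtain ⟨κ, hκ⟩ := hτ f c S 0 (Nat.card V) (hH f 0 _ h0)
      refine ⟨fun v => κ (e v), fun α β => ?_⟩
      have := TD.pull (Z := V × Bool) (side := Prod.snd) (M := fun u v => E u.1 v.1)
        (fun z : V × Bool => ((e z.1, z.2) : ℕ × Bool)) (fun z => rfl)
        (fun u v => (hES u.1 v.1).symm) (hκ α β)
      exact this.mono fun z hz => ⟨Nat.zero_le _, hlt _, hz⟩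
    · refine ⟨fun v => absurd ⟨v⟩ hVn, fun α β => ?_⟩
      exact TD.oneSided fun u => absurd ⟨u.1⟩ hVn
  · refine ⟨C, hC, τ, fun V hV E hirr hsymm hE => ?_⟩
    by_cases hVn : Nonempty V
    · obtain ⟨r, hr, hrk⟩ := hE
      obtain ⟨e, f, c, S, he, hlt, hES⟩ := word_rep E r hr hirr hsymm (K := 2 ^ k) (by positivity)
        (fun x => rank_cls E r k x (hrk x))
      obtain ⟨v0⟩ := hVn
      have h0 : 0 < Nat.card V := lt_of_le_of_lt (Nat.zero_le _) (hlt v0)
      obtain ⟨κ, hκ⟩ := hτ f c S 0 (Nat.card V) (hH f 0 _ h0)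
      exact absurd ⟨κ 0⟩ hne
    · refine ⟨fun v => absurd ⟨v⟩ hVn, fun α β => ?_⟩
      exact TD.oneSided fun u => absurd ⟨u.1⟩ hVn

end L

end P1346e8
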