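import Pool.Agent.Lib.P1346L.Defs

/-!
# The orders of rows and columns (definitions)
-/

set_option autoImplicit false

namespace P1346e8

namespace L

variable {V : Type}

/-- The lexicographic extension of `lt` to rows and columns. -/
def ltZ (lt : V → V → Prop) (u v : V × Bool) : Prop :=
  lt u.1 v.1 ∨ (u.1 = v.1 ∧ u.2 = true ∧ v.2 = false)

/-- The rows from `X` and the columns from `Y`. -/
def W0 (X Y : V → Prop) (z : V × Bool) : Prop := if z.2 = true then X z.1 else Y z.1

/-- The lexicographic order of the rows and columns. -/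
def lam0 (M lt : V → V → Prop) (X Y : V → Prop) (τ : List Rule) : V × Bool → V × Bool → Prop :=
  Lam Prod.snd (fun u v => M u.1 v.1) (ltZ lt) τ (fun u v => W0 X Y u ∧ W0 X Y v)

/-- The order of the rows. -/
def rowOrd (M lt : V → V → Prop) (X Y : V → Prop) (τ : List Rule) (x x' : V) : Prop :=
  X x ∧ X x' ∧ lam0 M lt X Y τ (x, true) (x', true)

/-- The order of the columns. -/
def colOrd (M lt : V → V → Prop) (X Y : V → Prop) (τ : List Rule) (y y' : V) : Prop :=
  Y y ∧ Y y' ∧ lam0 M lt X Y τ (y, false) (y', false)

end L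

end P1346e8
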