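import Pool.Agent.Lib.P1346L.Basic

/-!
# Words over a transformation monoid, factorisations of bounded height (definitions)
-/

set_option autoImplicit false

namespace P1346e8

namespace L

variable {K : ℕ}

/-- `f (a+n-1) ∘ ... ∘ f a`. -/
def run (f : ℕ → Fin K → Fin K) (a : ℕ) : ℕ → Fin K → Fin K
  | 0, s => s
  | n + 1, s => f (a + n) (run f a n s)

/-- The composition `f (b-1) ∘ ... ∘ f a` of the letters at the positions `a, ..., b-1`. -/
def val (f : ℕ → Fin K → Fin K) (a b : ℕ) : Fin K → Fin K := run f a (b - a)

/-- The interval `[a, b)` has a factorisation of height at most `h`: a letter, a concatenation of two,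
or a concatenation of any number of factors with the same idempotent value. -/
def Fac (f : ℕ → Fin K → Fin K) : ℕ → ℕ → ℕ → Prop
  | 0, a, b => b = a + 1
  | h + 1, a, b => Fac f h a b ∨ (∃ c, Fac f h a c ∧ Fac f h c b) ∨
      ∃ (m : ℕ) (p : ℕ → ℕ) (e : Fin K → Fin K), 0 < m ∧ p 0 = a ∧ p m = b ∧ (∀ s, e (e s) = e s) ∧
        ∀ i < m, Fac f h (p i) (p (i + 1)) ∧ ∀ s, val f (p i) (p (i + 1)) s = e s

/-- The graph on the positions given by the word: the element at `i` has the state `c i`, which is
transported by the letters up to the later element `j`, which is adjacent to the states in `S j`. -/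
def Ew (f : ℕ → Fin K → Fin K) (c : ℕ → Fin K) (S : ℕ → Fin K → Prop) (i j : ℕ) : Prop :=
  (i < j ∧ S j (val f (i + 1) j (c i))) ∨ (j < i ∧ S i (val f (j + 1) i (c j)))

theorem val_self (f : ℕ → Fin K → Fin K) (a : ℕ) (s : Fin K) : val f a a s = s := by
  simp [val, run]

theorem val_succ (f : ℕ → Fin K → Fin K) {a b : ℕ} (h : a ≤ b) (s : Fin K) :
    val f a (b + 1) s = f b (val f a b s) := by
  unfold val
  rw [show b + 1 - a = (b - a) + 1 by omega]
  simp only [run]
  rw [show a + (b - a) = b by omega]

theorem val_comp (f : ℕ → Fin K → Fin K) {a b c : ℕ} (hab : a ≤ b) (hbc : b ≤ c) (s : Fin K) :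
    val f b c (val f a b s) = val f a c s := by
  induction c, hbc using Nat.le_induction with
  | base => rw [val_self]
  | succ c hc ih => rw [val_succ f hc, val_succ f (hab.trans hc), ih]

theorem Fac.lt {f : ℕ → Fin K → Fin K} : ∀ {h a b : ℕ}, Fac f h a b → a < b
  | 0, a, b, h => by
      have : b = a + 1 := h
      omega
  | h + 1, a, b, H => by
      rcases H with H | ⟨c, H1, H2⟩ | ⟨m, p, e, hm, h0, h1, _, h2⟩
      · exact Fac.lt H
      · exact (Fac.lt H1).trans (Fac.lt H2)
      · have key : ∀ i, i ≤ m → 0 < i → p 0 < p i := by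
          intro i
          induction i with
          | zero => intro _ h; omega
          | succ i ih =>
            intro hi _
            have := Fac.lt (h2 i (by omega)).1
            rcases Nat.eq_zero_or_pos i with rfl | hpos
            · exact this
            · exact (ih (by omega) hpos).trans this
        rw [← h0, ← h1]
        exact key m le_rfl hm

theorem Fac.mono {f : ℕ → Fin K → Fin K} {h h' a b : ℕ} (hh : h ≤ h') (H : Fac f h a b) :
    Fac f h' a b := by
  induction hh with
  | refl => exact H
  | step _ ih => exact Or.inl ih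

end L

end P1346e8
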